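import Mathlib
import Pool.Agent.R306.GP.AEb

/-!
# Sequences `b_n exp(a_n y)` with gaps `1 + θ (n+1)^(-κ)`, and oscillatory integrals along them
-/

set_option autoImplicit false

open MeasureTheory Filter Topology Set Real
open Pool.Agent.H469R2.NK (e norm_e e_add conj_e e_zero)
open Pool.Agent.H383.Gen (U Bd)
open Pool.Agent.Y969.TM
open Pool.Agent.R306.GP (pt vdc)

namespace Pool.Agent.W2helper40.MX

/-- the sequences -/
structure Lac (a b : ℕ → ℝ) (c θ κ : ℝ) : Prop where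
  one : ∀ n, 1 ≤ a n
  mono : Monotone a
  pos : ∀ n, 0 < b n
  th0 : 0 < θ
  th1 : θ ≤ 1
  k0 : 0 ≤ κ
  k1 : κ < 1
  gap : ∀ n : ℕ, (1 + θ * ((n:ℝ) + 1) ^ (-κ)) * pt a b n c ≤ pt a b (n + 1) c

variable {a b : ℕ → ℝ} {c d θ κ : ℝ}

lemma Lac.ppos (h : Lac a b c θ κ) (n : ℕ) (y : ℝ) : 0 < pt a b n y := by
  unfold pt
  exact mul_pos (h.pos n) (exp_pos _)

lemma pt_shift (a b : ℕ → ℝ) (n : ℕ) (c y : ℝ) : pt a b n y = pt a b n c * exp (a n * (y - c)) := by
  unfold pt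
  rw [mul_assoc, ← Real.exp_add]
  congr 2
  ring

lemma Lac.step (h : Lac a b c θ κ) (n : ℕ) {y : ℝ} (hy : c ≤ y) :
    (1 + θ * ((n:ℝ) + 1) ^ (-κ)) * pt a b n y ≤ pt a b (n + 1) y := by
  have h1 := h.ppos n c
  have h2 := h.ppos (n + 1) c
  have h3 := h.gap n
  have h4 : exp (a n * (y - c)) ≤ exp (a (n + 1) * (y - c)) := by
    apply Real.exp_le_exp.2
    exact mul_le_mul_of_nonneg_right (h.mono (Nat.le_succ n)) (by linarith)
  rw [pt_shift a b n c y, pt_shift a b (n + 1) c y]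
  calc (1 + θ * ((n:ℝ) + 1) ^ (-κ)) * (pt a b n c * exp (a n * (y - c)))
      = ((1 + θ * ((n:ℝ) + 1) ^ (-κ)) * pt a b n c) * exp (a n * (y - c)) := by ring
    _ ≤ pt a b (n + 1) c * exp (a (n + 1) * (y - c)) :=
        mul_le_mul h3 h4 (exp_pos _).le h2.le

lemma half_exp {t : ℝ} (h0 : 0 ≤ t) (h1 : t ≤ 1) : exp (t / 2) ≤ 1 + t := by
  have h2 : exp (t / 2) ≤ 1 / (1 - t / 2) := by
    rw [le_div_iff₀ (by linarith)]
    have h3 := Real.add_one_le_exp (-(t / 2))
    have h4 : exp (t / 2) * exp (-(t / 2)) = 1 := by rw [← Real.exp_add]; simp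
    have h5 := exp_pos (t / 2)
    nlinarith
  refine h2.trans ?_
  rw [div_le_iff₀ (by linarith)]
  nlinarith

lemma Lac.ratio (h : Lac a b c θ κ) {y : ℝ} (hy : c ≤ y) (n : ℕ) : ∀ m : ℕ, n ≤ m → ∀ K : ℕ, m ≤ K → 1 ≤ K →
    pt a b n y * exp (((m:ℝ) - n) * (θ / 2 * (K:ℝ) ^ (-κ))) ≤ pt a b m y := by
  intro m hnm
  induction m, hnm using Nat.le_induction with
  | base => intro K _ _; simp
  | succ m hnm ih =>
    intro K hK hK1
    have h1 := ih K (by omega) hK1
    have h2 := h.step m hy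
    have hK0 : (0:ℝ) < K := by exact_mod_cast hK1
    have h3 : (K:ℝ) ^ (-κ) ≤ ((m:ℝ) + 1) ^ (-κ) := by
      apply Real.rpow_le_rpow_of_nonpos (by positivity)
      · exact_mod_cast hK
      · linarith [h.k0]
    have h4 : ((m:ℝ) + 1) ^ (-κ) ≤ 1 := by
      apply Real.rpow_le_one_of_one_le_of_nonpos
      · have : (0:ℝ) ≤ m := Nat.cast_nonneg m
        linarith
      · linarith [h.k0]
    have h5 : 0 ≤ (K:ℝ) ^ (-κ) := by positivity
    have h6 : exp (θ / 2 * (K:ℝ) ^ (-κ)) ≤ 1 + θ * ((m:ℝ) + 1) ^ (-κ) := by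
      have h7 := half_exp (t := θ * (K:ℝ) ^ (-κ)) (mul_nonneg h.th0.le h5) (by
        calc θ * (K:ℝ) ^ (-κ) ≤ 1 * 1 := mul_le_mul h.th1 (h3.trans h4) h5 (by norm_num)
          _ = 1 := by norm_num)
      have h8 : θ * (K:ℝ) ^ (-κ) / 2 = θ / 2 * (K:ℝ) ^ (-κ) := by ring
      rw [h8] at h7
      have h9 := mul_le_mul_of_nonneg_left h3 h.th0.le
      linarith
    have h10 : exp ((((m + 1 : ℕ):ℝ) - n) * (θ / 2 * (K:ℝ) ^ (-κ))) =
        exp (((m:ℝ) - n) * (θ / 2 * (K:ℝ) ^ (-κ))) * exp (θ / 2 * (K:ℝ) ^ (-κ)) := by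
      rw [← Real.exp_add]; congr 1; push_cast; ring
    rw [h10, ← mul_assoc]
    calc pt a b n y * exp (((m:ℝ) - n) * (θ / 2 * (K:ℝ) ^ (-κ))) * exp (θ / 2 * (K:ℝ) ^ (-κ))
        ≤ pt a b m y * (1 + θ * ((m:ℝ) + 1) ^ (-κ)) :=
          mul_le_mul h1 h6 (exp_pos _).le (h.ppos m y).le
      _ = (1 + θ * ((m:ℝ) + 1) ^ (-κ)) * pt a b m y := by ring
      _ ≤ _ := h2

/-- growth -/
lemma Lac.low (h : Lac a b c θ κ) {y : ℝ} (hy : c ≤ y) {n : ℕ} (hn : 1 ≤ n) :
    pt a b 0 c * exp (θ / 2 * (n:ℝ) ^ (1 - κ)) ≤ pt a b n y := by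
  have h1 := h.ratio (le_refl c) 0 n (Nat.zero_le n) n le_rfl hn
  have hn0 : (0:ℝ) < n := by exact_mod_cast hn
  have h2 : ((n:ℝ) - (0:ℕ)) * (θ / 2 * (n:ℝ) ^ (-κ)) = θ / 2 * (n:ℝ) ^ (1 - κ) := by
    rw [Real.rpow_sub hn0, Real.rpow_one, Real.rpow_neg hn0.le]
    push_cast
    field_simp
    ring
  rw [h2] at h1
  refine h1.trans ?_
  rw [pt_shift a b n c y]
  have h3 : 1 ≤ exp (a n * (y - c)) := by
    apply Real.one_le_exp
    have := h.one n
    exact mul_nonneg (by linarith) (by linarith)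
  have h4 := h.ppos n c
  nlinarith

lemma Lac.pmono (h : Lac a b c θ κ) {n m : ℕ} (hnm : n ≤ m) {y : ℝ} (hy : c ≤ y) :
    pt a b n y ≤ pt a b m y := by
  rcases Nat.eq_zero_or_pos m with rfl | hm
  · rw [Nat.le_zero.1 hnm]
  have h1 := h.ratio hy n m hnm m le_rfl hm
  have h2 : 1 ≤ exp (((m:ℝ) - n) * (θ / 2 * (m:ℝ) ^ (-κ))) := by
    apply Real.one_le_exp
    have h3 : (n:ℝ) ≤ m := by exact_mod_cast hnm
    have := h.th0
    exact mul_nonneg (by linarith) (by positivity)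
  have h4 := h.ppos n y
  nlinarith

/-! ## Oscillatory integrals -/

lemma osc {A B A' B' l l' τ Θ : ℝ} (hcd : c ≤ d) (hA : 1 ≤ A) (hA' : 0 ≤ A') (hAA : A' ≤ A) (hB : 0 < B)
    (hB' : 0 ≤ B') (hτ : 0 < τ) (hl : τ ≤ |l|) (hl' : |l'| ≤ Θ)
    (hG : ∀ y ∈ Icc c d, 4 * Θ * (B' * exp (A' * y)) ≤ τ * (B * exp (A * y))) :
    ‖∫ y in c..d, e (B * exp (A * y) * l + B' * exp (A' * y) * l')‖ ≤
      (3 + 3 * (d - c)) / (τ * (B * exp (A * c))) := by
  have hΘ : 0 ≤ Θ := (abs_nonneg _).trans hl'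
  set p : ℝ → ℝ := fun y => B * exp (A * y) with hp
  set p' : ℝ → ℝ := fun y => B' * exp (A' * y) with hp'
  have hppos : ∀ y, 0 < p y := fun y => mul_pos hB (exp_pos _)
  have hp'pos : ∀ y, 0 ≤ p' y := fun y => mul_nonneg hB' (exp_pos _).le
  have hd1 : ∀ y, HasDerivAt p (A * p y) y := by
    intro y
    have h1 : HasDerivAt (fun y : ℝ => A * y) A y := by simpa using (hasDerivAt_id y).const_mul A
    have h2 := (h1.exp).const_mul B
    refine h2.congr_deriv ?_
    simp only [hp]; ring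
  have hd2 : ∀ y, HasDerivAt p' (A' * p' y) y := by
    intro y
    have h1 : HasDerivAt (fun y : ℝ => A' * y) A' y := by simpa using (hasDerivAt_id y).const_mul A'
    have h2 := (h1.exp).const_mul B'
    refine h2.congr_deriv ?_
    simp only [hp']; ring
  have hf : ∀ y ∈ Icc c d, HasDerivAt (fun y => p y * l + p' y * l') (A * p y * l + A' * p' y * l') y :=
    fun y _ => ((hd1 y).mul_const l).add ((hd2 y).mul_const l')
  have hf' : ∀ y ∈ Icc c d, HasDerivAt (fun y => A * p y * l + A' * p' y * l')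
      (A * (A * p y) * l + A' * (A' * p' y) * l') y :=
    fun y _ => (((hd1 y).const_mul A).mul_const l).add (((hd2 y).const_mul A').mul_const l')
  have hcont : ContinuousOn (fun y => A * (A * p y) * l + A' * (A' * p' y) * l') (Icc c d) := by
    simp only [hp, hp']
    fun_prop
  have hl0 : 0 < |l| := hτ.trans_le hl
  have hA0 : 0 < A := by linarith
  -- the small term
  have hsm : ∀ y ∈ Icc c d, |A' * p' y * l'| ≤ |l| * (A * p y) / 4 := by
    intro y hy
    rw [abs_mul, abs_of_nonneg (mul_nonneg hA' (hp'pos y))]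
    have h1 := hG y hy
    have h2 : A' * p' y * |l'| ≤ A * (p' y * Θ) := by
      calc A' * p' y * |l'| = A' * (p' y * |l'|) := by ring
        _ ≤ A * (p' y * Θ) := by
            apply mul_le_mul hAA _ (mul_nonneg (hp'pos y) (abs_nonneg _)) hA0.le
            exact mul_le_mul_of_nonneg_left hl' (hp'pos y)
    have h3 : A * (p' y * Θ) ≤ A * (|l| * p y / 4) := by
      apply mul_le_mul_of_nonneg_left _ hA0.le
      have h4 : τ * p y ≤ |l| * p y := mul_le_mul_of_nonneg_right hl (hppos y).le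
      simp only [hp, hp'] at h4 ⊢
      linarith
    linarith
  have hlow : ∀ y ∈ Icc c d, 3 / 4 * (|l| * (A * p y)) ≤ |A * p y * l + A' * p' y * l'| := by
    intro y hy
    have h1 := hsm y hy
    have h2 : |A * p y * l| = |l| * (A * p y) := by
      rw [abs_mul, abs_of_pos (mul_pos hA0 (hppos y))]; ring
    have h3 := abs_sub_abs_le_abs_sub (A * p y * l) (-(A' * p' y * l'))
    rw [abs_neg, sub_neg_eq_add, h2] at h3
    linarith
  have hpc : ∀ y ∈ Icc c d, p c ≤ p y := by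
    intro y hy
    simp only [hp]
    apply mul_le_mul_of_nonneg_left _ hB.le
    apply Real.exp_le_exp.2
    exact mul_le_mul_of_nonneg_left hy.1 hA0.le
  have hmain := vdc hcd hf hf' hcont (l := 3 / 4 * (τ * p c)) (by have := hppos c; positivity) (by
      intro y hy
      refine le_trans ?_ (hlow y hy)
      apply mul_le_mul_of_nonneg_left _ (by norm_num)
      have h1 := hpc y hy
      have h2 := hppos c
      apply mul_le_mul hl _ h2.le hl0.le
      nlinarith [hppos y]) (Q := 3 / (τ * p c)) (by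
      intro y hy
      have h1 := hlow y hy
      have h2 : |A * (A * p y) * l + A' * (A' * p' y) * l'| ≤ 5 / 4 * (|l| * (A * (A * p y))) := by
        have h3 : |A' * (A' * p' y) * l'| ≤ A * (|l| * (A * p y) / 4) := by
          have h4 : A' * (A' * p' y) * l' = A' * (A' * p' y * l') := by ring
          rw [h4, abs_mul, abs_of_nonneg hA']
          exact mul_le_mul hAA (hsm y hy) (abs_nonneg _) hA0.le
        have h5 : |A * (A * p y) * l| = |l| * (A * (A * p y)) := by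
          rw [abs_mul, abs_of_pos (mul_pos hA0 (mul_pos hA0 (hppos y)))]; ring
        refine (abs_add_le _ _).trans ?_
        rw [h5]
        linarith
      refine h2.trans ?_
      have h6 : (3 / 4 * (|l| * (A * p y))) ^ 2 ≤ (A * p y * l + A' * p' y * l') ^ 2 := by
        rw [← sq_abs (A * p y * l + A' * p' y * l')]
        have := hppos y
        exact pow_le_pow_left₀ (by positivity) h1 2
      have h7 : 0 < τ * p c := mul_pos hτ (hppos c)
      have h8 : 3 / (τ * p c) * (3 / 4 * (|l| * (A * p y))) ^ 2 ≤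
          3 / (τ * p c) * (A * p y * l + A' * p' y * l') ^ 2 :=
        mul_le_mul_of_nonneg_left h6 (by positivity)
      refine le_trans ?_ h8
      have h9 : τ * p c ≤ |l| * p y := mul_le_mul hl (hpc y hy) (hppos c).le hl0.le
      have h10 : 3 / (τ * p c) * (3 / 4 * (|l| * (A * p y))) ^ 2 =
          27 / 16 * (|l| * (A * (A * p y))) * ((|l| * p y) / (τ * p c)) := by ring
      rw [h10]
      have h11 : 1 ≤ (|l| * p y) / (τ * p c) := by rw [le_div_iff₀ h7]; linarith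
      have h12 : 0 ≤ |l| * (A * (A * p y)) := by have := hppos y; positivity
      nlinarith)
  refine hmain.trans ?_
  have h7 : 0 < τ * p c := mul_pos hτ (hppos c)
  have h8 : 2 / (3 / 4 * (τ * p c)) + 3 / (τ * p c) * (d - c) = (8 / 3 + 3 * (d - c)) / (τ * p c) := by
    field_simp
    ring
  rw [h8]
  apply div_le_div_of_nonneg_right _ h7.le
  linarith

/-- one term -/
lemma Lac.osc1 (h : Lac a b c θ κ) (hcd : c ≤ d) {τ l : ℝ} (hτ : 0 < τ) (hl : τ ≤ |l|) (n : ℕ) :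
    ‖∫ y in c..d, e (pt a b n y * l)‖ ≤ (3 + 3 * (d - c)) / (τ * pt a b n c) := by
  have h1 := osc (c := c) (d := d) (A := a n) (B := b n) (A' := 0) (B' := 0) (l := l) (l' := 0) (τ := τ) (Θ := 0)
    hcd (h.one n) le_rfl (by linarith [h.one n]) (h.pos n) le_rfl hτ hl (by simp) (by
      intro y _
      have := mul_pos (h.pos n) (exp_pos (a n * y))
      simp only [mul_zero, zero_mul]
      positivity)
  simpa [pt] using h1

/-- two terms -/
lemma Lac.osc2 (h : Lac a b c θ κ) (hcd : c ≤ d) {τ Θ l l' : ℝ} (hτ : 0 < τ) (hl : τ ≤ |l|) (hl' : |l'| ≤ Θ)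
    {n m : ℕ} (hmn : m ≤ n) (hG : ∀ y ∈ Icc c d, 4 * Θ * pt a b m y ≤ τ * pt a b n y) :
    ‖∫ y in c..d, e (pt a b n y * l + pt a b m y * l')‖ ≤ (3 + 3 * (d - c)) / (τ * pt a b n c) := by
  exact osc hcd (h.one n) (by linarith [h.one m]) (h.mono hmn) (h.pos n) (h.pos m).le hτ hl hl' hG

end Pool.Agent.W2helper40.MX
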