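import Mathlib
import Pool.Agent.Y969.TM4
import Pool.Agent.H452R2.Win.W5

/-!
# Moments of growing order of the model polynomials
-/

set_option autoImplicit false

open Finset Filter Topology
open Pool.Agent.H383.AP Pool.Agent.H383.Gauss
open Pool.Agent.H383.Gen
open Pool.Agent.H469R2.NK (e norm_e e_add conj_e e_zero)
open Pool.Agent.Y969.TM
open Pool.Agent.H452R2.Win (Bdw)

namespace Pool.Agent.W2helper40.MX

/-- exponential moments bound the zero-frequency part -/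
theorem ZZ_exp {a : ℕ → ℝ} (φ : ℝ) {κ C p : ℝ} (hκ : 1/2 < κ) (hC : 0 < C)
    (ha : ∀ m : ℕ, 1 ≤ m → |a m| ≤ C * (m:ℝ) ^ (-κ)) (hp1 : 1 ≤ p) (hp2 : p ≤ 2) (hp : 1 < κ * p) :
    ∃ B0 D : ℝ, 0 ≤ B0 ∧ 0 ≤ D ∧ ∀ l : ℝ, 0 < l → ∀ k M : ℕ,
      l ^ (2 * k) * ‖ZZ a φ (2 * k) M‖ ≤ ((2 * k).factorial : ℝ) * (2 * Real.exp (B0 * l + D * l ^ p)) := by
  classical
  obtain ⟨t, ht0, ht⟩ := exists_tr
  obtain ⟨S0, hS⟩ := exists_S ht0
  obtain ⟨B0, D, hB0, hD, hm⟩ := mgf_bound (a := a) (φ := φ) (α := t) (X := 0) (κ := κ) (p := p) hS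
    hκ hC ha hp1 hp2 hp
  refine ⟨B0, D, hB0, hD, fun l hl k M => ?_⟩
  have h1 := pow_mean ht a φ (2 * k) M
  have e0 : ∀ l : ℝ, ex a φ t 0 (l:ℂ) (Icc 1 (M^2)) = fun n : ℕ => ((Real.exp (l * U a φ (n * t) M) : ℝ) : ℂ) := by
    intro l
    funext n
    unfold ex
    rw [ST_U, zero_add]
    push_cast
    rfl
  have h2 := fun l : ℝ => UC_hasMean (ex_UC_top (a := a) (φ := φ) (α := t) (X := 0) (T := Icc 1 (M^2)) (l:ℂ))
  have h3 := (h2 l).add (h2 (-l))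
  have hfac : (0:ℝ) < ((2 * k).factorial : ℝ) := by positivity
  have hA : Tendsto (rm (fun n : ℕ => (U a φ (n * t) M) ^ (2 * k))) atTop (𝓝 (ZZ a φ (2 * k) M).re) := by
    unfold HasMean at h1
    have : cm (fun n : ℕ => ((U a φ (n * t) M : ℝ) : ℂ) ^ (2 * k)) =
        fun N => ((rm (fun n : ℕ => (U a φ (n * t) M) ^ (2 * k)) N : ℝ) : ℂ) := by
      funext N
      rw [← cm_ofReal]
      push_cast
      rfl
    rw [this] at h1
    exact (Complex.continuous_re.tendsto _).comp h1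
  have hIm : (ZZ a φ (2 * k) M).im = 0 := by
    unfold HasMean at h1
    have : cm (fun n : ℕ => ((U a φ (n * t) M : ℝ) : ℂ) ^ (2 * k)) =
        fun N => ((rm (fun n : ℕ => (U a φ (n * t) M) ^ (2 * k)) N : ℝ) : ℂ) := by
      funext N
      rw [← cm_ofReal]
      push_cast
      rfl
    rw [this] at h1
    have h4 := (Complex.continuous_im.tendsto _).comp h1
    have h5 : Tendsto (fun _ : ℕ => (0:ℝ)) atTop (𝓝 (ZZ a φ (2 * k) M).im) := h4
    exact tendsto_nhds_unique h5 tendsto_const_nhds |>.symm ▸ rfl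
  have hB : Tendsto (rm (fun n : ℕ => Real.exp (l * U a φ (n * t) M) + Real.exp (-(l * U a φ (n * t) M)))) atTop
      (𝓝 (mn (ex a φ t 0 ((l:ℝ):ℂ) (Icc 1 (M^2))) + mn (ex a φ t 0 ((-l:ℝ):ℂ) (Icc 1 (M^2)))).re) := by
    unfold HasMean at h3
    have : cm (ex a φ t 0 ((l:ℝ):ℂ) (Icc 1 (M^2)) + ex a φ t 0 ((-l:ℝ):ℂ) (Icc 1 (M^2))) =
        fun N => ((rm (fun n : ℕ => Real.exp (l * U a φ (n * t) M) + Real.exp (-(l * U a φ (n * t) M))) N : ℝ) : ℂ) := by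
      funext N
      rw [← cm_ofReal, e0, e0]
      simp only [neg_mul]
      push_cast
      rfl
    rw [this] at h3
    exact (Complex.continuous_re.tendsto _).comp h3
  have hle : l ^ (2 * k) * (ZZ a φ (2 * k) M).re ≤ ((2 * k).factorial : ℝ) *
      (mn (ex a φ t 0 ((l:ℝ):ℂ) (Icc 1 (M^2))) + mn (ex a φ t 0 ((-l:ℝ):ℂ) (Icc 1 (M^2)))).re := by
    refine le_of_tendsto_of_tendsto (hA.const_mul _) (hB.const_mul _) (Eventually.of_forall fun N => ?_)
    beta_reduce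
    rw [← rm_mul, ← rm_mul]
    refine rm_mono (fun n => ?_) N
    rw [← mul_pow]
    exact pow_le_exp _ k
  have h0 : 0 ≤ (ZZ a φ (2 * k) M).re := by
    refine ge_of_tendsto hA (Eventually.of_forall fun N => rm_nonneg (fun n => ?_) N)
    exact Even.pow_nonneg (even_two_mul k) _
  have hnorm : ‖ZZ a φ (2 * k) M‖ = (ZZ a φ (2 * k) M).re := by
    have : ZZ a φ (2 * k) M = (((ZZ a φ (2 * k) M).re : ℝ) : ℂ) := by
      apply Complex.ext
      · simp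
      · simp [hIm]
    rw [this, Complex.norm_real, Real.norm_eq_abs, abs_of_nonneg h0, Complex.ofReal_re]
  rw [hnorm]
  refine hle.trans ?_
  have hm1 := hm l M
  have hm2 := hm (-l) M
  rw [abs_of_pos hl] at hm1
  rw [abs_neg, abs_of_pos hl] at hm2
  apply mul_le_mul_of_nonneg_left _ hfac.le
  refine (Complex.re_le_norm _).trans ((norm_add_le _ _).trans ?_)
  linarith

/-- moments of order `2k` of the model polynomials: at most `(K (2k)^(1/4+ε))^(2k)` -/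
theorem ZZ_le {a : ℕ → ℝ} (φ : ℝ) (hb : Bdw a) {ε : ℝ} (hε : 0 < ε) (hε1 : ε ≤ 1/8) :
    ∃ K : ℝ, 1 ≤ K ∧ ∀ k M : ℕ, 1 ≤ k →
      ‖ZZ a φ (2 * k) M‖ ≤ 2 * (K * ((2 * k : ℕ) : ℝ) ^ (1/4 + ε)) ^ (2 * k) := by
  obtain ⟨C, hC, ha⟩ := hb (ε / 2) (by linarith)
  have h34 : 0 < 3/4 - ε := by linarith
  obtain ⟨B0, D, hB0, hD, h⟩ := ZZ_exp (a := a) φ (κ := 3/4 - ε/2) (C := C) (p := 1 / (3/4 - ε)) (by linarith) hC
    (fun m hm => by
      have := ha m hm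
      rwa [show -(3/4 - ε/2) = -(3/4) + ε/2 by ring])
    (by rw [le_div_iff₀ h34]; linarith) (by rw [div_le_iff₀ h34]; linarith)
    (by rw [mul_one_div, lt_div_iff₀ h34]; linarith)
  refine ⟨Real.exp (B0 + D), Real.one_le_exp (by positivity), fun k M hk => ?_⟩
  have hk2 : (1:ℝ) ≤ ((2 * k : ℕ) : ℝ) := by exact_mod_cast (by omega : 1 ≤ 2 * k)
  set x : ℝ := ((2 * k : ℕ) : ℝ) with hx
  have hx0 : 0 < x := by linarith
  set l : ℝ := x ^ (3/4 - ε) with hl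
  have hl0 : 0 < l := by positivity
  have h1 := h l hl0 k M
  have h2 : l ^ (1 / (3/4 - ε)) = x := by
    rw [hl, ← Real.rpow_mul hx0.le, mul_one_div_cancel h34.ne', Real.rpow_one]
  have h3 : l ≤ x := by
    calc l ≤ x ^ (1:ℝ) := Real.rpow_le_rpow_of_exponent_le hk2 (by linarith)
      _ = x := Real.rpow_one x
  have h4 : Real.exp (B0 * l + D * l ^ (1 / (3/4 - ε))) ≤ (Real.exp (B0 + D)) ^ (2 * k) := by
    rw [← Real.exp_nat_mul]
    apply Real.exp_le_exp.2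
    rw [h2, ← hx]
    nlinarith [mul_le_mul_of_nonneg_left h3 hB0]
  have h5 : ((2 * k).factorial : ℝ) ≤ x ^ (2 * k) := by
    rw [hx]
    exact_mod_cast Nat.factorial_le_pow (2 * k)
  have h6 : x = x ^ (1/4 + ε) * l := by
    rw [hl, ← Real.rpow_add hx0]
    norm_num
  have h7 : l ^ (2 * k) * ‖ZZ a φ (2 * k) M‖ ≤ l ^ (2 * k) * (2 * (Real.exp (B0 + D) * x ^ (1/4 + ε)) ^ (2 * k)) := by
    calc l ^ (2 * k) * ‖ZZ a φ (2 * k) M‖ ≤ ((2 * k).factorial : ℝ) * (2 * Real.exp (B0 * l + D * l ^ (1 / (3/4 - ε)))) := h1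
      _ ≤ x ^ (2 * k) * (2 * (Real.exp (B0 + D)) ^ (2 * k)) := by
          apply mul_le_mul h5 _ (by positivity) (by positivity)
          linarith
      _ = _ := by
          conv_lhs => rw [h6]
          rw [mul_pow, mul_pow]; ring
  exact le_of_mul_le_mul_left h7 (by positivity)

end Pool.Agent.W2helper40.MX
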