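import Mathlib
import Pool.Agent.W2helper40.MX.Seq
import Pool.Agent.W2helper40.MX.ZZb

/-!
# The upper bound for the records
-/

set_option autoImplicit false

open MeasureTheory Filter Topology Set Real
open scoped ENNReal
open Pool.Agent.H469R2.NK (e norm_e e_add conj_e e_zero)
open Pool.Agent.H383.Gen (U Bd)
open Pool.Agent.Y969.TM
open Pool.Agent.H452R2.Win (Bdw)
open Pool.Agent.R306.GP (pt vdc AA AA_nonneg AA_le pow_expand gap_inv sum_norm_filter pt_cont e_continuous Ctx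
  ae_zero ae_zero' Upt_cont pt_meas)

namespace Pool.Agent.W2helper40.MX

variable {a b : ℕ → ℝ} {c d θ κ : ℝ}

/-! ## Moments -/

lemma Lac.int_pow (h : Lac a b c θ κ) (hcd : c ≤ d) (af : ℕ → ℝ) (φ : ℝ) (r M n : ℕ) :
    ‖∫ y in c..d, (((U af φ (pt a b n y) M : ℝ) : ℂ) ^ r - ZZ af φ r M)‖ ≤
      AA af M ^ r * ((3 + 3 * (d - c)) * (((r * M + 1 : ℕ) : ℝ) ^ (2 ^ r) / pt a b n c)) := by
  classical
  have hpt := h.ppos n c
  have hdc : 0 ≤ d - c := by linarith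
  simp only [pow_expand]
  rw [intervalIntegral.integral_finsetSum]
  · refine (norm_sum_le _ _).trans ?_
    calc ∑ η ∈ (TT r M).filter (fun y => ∑ i, fq (y i) ≠ 0), ‖∫ y in c..d, (∏ i, cf af φ (η i)) * e (pt a b n y * ∑ i, fq (η i))‖
        ≤ ∑ η ∈ (TT r M).filter (fun y => ∑ i, fq (y i) ≠ 0), ‖∏ i, cf af φ (η i)‖ *
          ((3 + 3 * (d - c)) * (((r * M + 1 : ℕ) : ℝ) ^ (2 ^ r) / pt a b n c)) := by
          apply Finset.sum_le_sum
          intro η hη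
          rw [intervalIntegral.integral_const_mul, norm_mul]
          apply mul_le_mul_of_nonneg_left _ (norm_nonneg _)
          rw [Finset.mem_filter] at hη
          refine (h.osc1 hcd (abs_pos.2 hη.2) le_rfl n).trans ?_
          rw [div_eq_mul_one_div]
          exact mul_le_mul_of_nonneg_left (gap_inv hη.1 hη.2 hpt) (by positivity)
      _ ≤ _ := by
          rw [← Finset.sum_mul]
          exact mul_le_mul_of_nonneg_right (sum_norm_filter af φ r M _) (by positivity)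
  · intro η _
    exact (continuous_const.mul (e_continuous.comp ((pt_cont a b n).mul continuous_const))).intervalIntegrable _ _

lemma Lac.int_even (h : Lac a b c θ κ) (hcd : c ≤ d) (af : ℕ → ℝ) (φ : ℝ) (r M n : ℕ) :
    ∫ y in c..d, (U af φ (pt a b n y) M) ^ r ≤
      AA af M ^ r * ((3 + 3 * (d - c)) * (((r * M + 1 : ℕ) : ℝ) ^ (2 ^ r) / pt a b n c)) +
        (d - c) * ‖ZZ af φ r M‖ := by
  have h3 := h.int_pow hcd af φ r M n
  have hc1 : Continuous fun y => ((U af φ (pt a b n y) M : ℝ) : ℂ) ^ r :=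
    (Complex.continuous_ofReal.comp (Upt_cont af φ a b n M)).pow _
  have h4 : ((∫ y in c..d, (U af φ (pt a b n y) M) ^ r : ℝ) : ℂ) =
      (∫ y in c..d, (((U af φ (pt a b n y) M : ℝ) : ℂ) ^ r - ZZ af φ r M)) + (d - c) * ZZ af φ r M := by
    rw [intervalIntegral.integral_sub (hc1.intervalIntegrable _ _) intervalIntegrable_const,
      intervalIntegral.integral_const, ← intervalIntegral.integral_ofReal]
    simp only [Complex.ofReal_pow, Complex.real_smul, Complex.ofReal_sub]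
    ring
  have h5 : ∫ y in c..d, (U af φ (pt a b n y) M) ^ r ≤
      ‖((∫ y in c..d, (U af φ (pt a b n y) M) ^ r : ℝ) : ℂ)‖ := by
    rw [Complex.norm_real]; exact Real.le_norm_self _
  refine h5.trans ?_
  rw [h4]
  refine (norm_add_le _ _).trans (add_le_add h3 (le_of_eq ?_))
  rw [norm_mul]
  have h6 : ‖((d:ℂ) - c)‖ = d - c := by
    rw [← Complex.ofReal_sub, Complex.norm_real, Real.norm_eq_abs, abs_of_nonneg (by linarith)]
  rw [h6]

/-! ## Growth -/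

lemma ev_exp {β s δ : ℝ} (hβ : 0 < β) (hs : 0 < s) (hδ : 0 < δ) (hδ1 : δ ≤ 1) (C1 C2 : ℝ) : ∀ᶠ n : ℕ in atTop,
    C2 * exp (C1 * ((n:ℝ) + 1) ^ (δ / 2)) ≤ β * exp (s * (n:ℝ) ^ δ) := by
  -- it suffices that `log (|C2|+1) + |C1| * 2 * z ≤ log β + s z^2`
  have hz : Tendsto (fun n : ℕ => (n:ℝ) ^ (δ / 2)) atTop atTop :=
    (tendsto_rpow_atTop (by linarith)).comp tendsto_natCast_atTop_atTop
  have h1 : ∀ᶠ z : ℝ in atTop, Real.log (|C2| + 1) - Real.log β + |C1| * 2 * z ≤ s * z ^ 2 := by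
    have h2 : Tendsto (fun z : ℝ => z * (s * z - |C1| * 2)) atTop atTop :=
      tendsto_id.atTop_mul_atTop₀ (tendsto_atTop_add_const_right _ _ (tendsto_id.const_mul_atTop hs))
    filter_upwards [h2.eventually_ge_atTop (Real.log (|C2| + 1) - Real.log β)] with z hz
    nlinarith
  filter_upwards [hz.eventually h1, eventually_ge_atTop 1] with n hn hn1
  have hn0 : (1:ℝ) ≤ n := by exact_mod_cast hn1
  have hnp : (0:ℝ) < n := by linarith
  set z : ℝ := (n:ℝ) ^ (δ / 2) with hzd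
  have hz0 : 0 < z := by positivity
  have e1 : (n:ℝ) ^ δ = z ^ 2 := by
    rw [hzd, ← Real.rpow_natCast, ← Real.rpow_mul hnp.le]; congr 1; push_cast; ring
  have e2 : ((n:ℝ) + 1) ^ (δ / 2) ≤ 2 * z := by
    calc ((n:ℝ) + 1) ^ (δ / 2) ≤ (2 * n) ^ (δ / 2) := Real.rpow_le_rpow (by positivity) (by linarith) (by linarith)
      _ = 2 ^ (δ / 2) * z := by rw [Real.mul_rpow (by norm_num) hnp.le]
      _ ≤ 2 * z := by
          apply mul_le_mul_of_nonneg_right _ hz0.le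
          calc (2:ℝ) ^ (δ / 2) ≤ 2 ^ (1:ℝ) := Real.rpow_le_rpow_of_exponent_le (by norm_num) (by linarith)
            _ = 2 := Real.rpow_one _
  have e3 : C1 * ((n:ℝ) + 1) ^ (δ / 2) ≤ |C1| * 2 * z := by
    have h0 : 0 ≤ ((n:ℝ) + 1) ^ (δ / 2) := by positivity
    calc C1 * ((n:ℝ) + 1) ^ (δ / 2) ≤ |C1| * ((n:ℝ) + 1) ^ (δ / 2) := mul_le_mul_of_nonneg_right (le_abs_self _) h0
      _ ≤ |C1| * (2 * z) := mul_le_mul_of_nonneg_left e2 (abs_nonneg _)
      _ = _ := by ring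
  have e4 : C2 * exp (C1 * ((n:ℝ) + 1) ^ (δ / 2)) ≤ (|C2| + 1) * exp (|C1| * 2 * z) := by
    apply mul_le_mul (by linarith [le_abs_self C2]) (Real.exp_le_exp.2 e3) (exp_pos _).le (by positivity)
  refine e4.trans ?_
  have e5 : (|C2| + 1) * exp (|C1| * 2 * z) = exp (Real.log (|C2| + 1) + |C1| * 2 * z) := by
    rw [Real.exp_add, Real.exp_log (by positivity)]
  have e6 : β * exp (s * (n:ℝ) ^ δ) = exp (Real.log β + s * z ^ 2) := by
    rw [Real.exp_add, Real.exp_log hβ, e1]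
  rw [e5, e6]
  apply Real.exp_le_exp.2
  linarith

lemma Lac.big (h : Lac a b c θ κ) (C1 C2 : ℝ) : ∀ᶠ n : ℕ in atTop,
    C2 * exp (C1 * ((n:ℝ) + 1) ^ ((1 - κ) / 2)) ≤ pt a b n c := by
  filter_upwards [ev_exp (h.ppos 0 c) (s := θ / 2) (by linarith [h.th0]) (δ := 1 - κ) (by linarith [h.k1])
    (by linarith [h.k0]) C1 C2, eventually_ge_atTop 1] with n hn hn1
  exact hn.trans (h.low le_rfl hn1)

lemma pow_exp_le {δ x : ℝ} (hδ : 0 < δ) (hx : 1 ≤ x) (K : ℕ) : x ^ K ≤ exp ((K:ℝ) * (2 / δ) * x ^ (δ / 2)) := by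
  have hx0 : 0 < x := by linarith
  have h1 := Real.log_le_rpow_div hx0.le (show 0 < δ / 2 by linarith)
  have h2 : x ^ K = exp ((K:ℝ) * Real.log x) := by
    rw [mul_comm, Real.exp_mul, Real.exp_log hx0, Real.rpow_natCast]
  rw [h2]
  apply Real.exp_le_exp.2
  have h3 : x ^ (δ / 2) / (δ / 2) = (2 / δ) * x ^ (δ / 2) := by field_simp
  rw [h3] at h1
  calc (K:ℝ) * Real.log x ≤ K * ((2 / δ) * x ^ (δ / 2)) := mul_le_mul_of_nonneg_left h1 (Nat.cast_nonneg K)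
    _ = _ := by ring

/-- the order of the moments -/
def kk (q n : ℕ) : ℕ := Nat.log 2 (n + 1) / q

lemma kk_low {q : ℕ} (hq : 1 ≤ q) (n : ℕ) : n + 1 ≤ 2 ^ q * 2 ^ (q * kk q n) := by
  have h1 : n + 1 < 2 ^ (Nat.log 2 (n + 1) + 1) := Nat.lt_pow_succ_log_self (by norm_num) _
  have h2 : Nat.log 2 (n + 1) + 1 ≤ q + q * kk q n := by
    unfold kk
    have h3 := Nat.div_add_mod (Nat.log 2 (n + 1)) q
    have h4 := Nat.mod_lt (Nat.log 2 (n + 1)) hq
    omega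
  rw [← pow_add]
  exact h1.le.trans (Nat.pow_le_pow_right (by norm_num) h2)

lemma kk_up (q n : ℕ) : 2 ^ (q * kk q n) ≤ n + 1 := by
  have h1 : 2 ^ Nat.log 2 (n + 1) ≤ n + 1 := Nat.pow_log_le_self 2 (by omega)
  refine le_trans (Nat.pow_le_pow_right (by norm_num) ?_) h1
  unfold kk
  exact Nat.mul_div_le _ _

lemma kk_tendsto {q : ℕ} (hq : 1 ≤ q) : Tendsto (kk q) atTop atTop := by
  rw [tendsto_atTop]
  intro K
  filter_upwards [eventually_ge_atTop (2 ^ (q * K + q))] with n hn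
  have h1 := kk_low hq n
  by_contra hlt
  rw [not_le] at hlt
  have h2 : q * kk q n ≤ q * K := Nat.mul_le_mul_left q hlt.le
  have h3 : 2 ^ q * 2 ^ (q * kk q n) ≤ 2 ^ (q * K + q) := by
    rw [← pow_add]; exact Nat.pow_le_pow_right (by norm_num) (by omega)
  omega

lemma kk_log (q n : ℕ) (hq : 1 ≤ q) : ((2 * kk q n : ℕ) : ℝ) ≤ 3 * Real.log ((n:ℝ) + 1) := by
  have h1 := kk_up q n
  have h2 : ((2:ℝ)) ^ (q * kk q n) ≤ (n:ℝ) + 1 := by exact_mod_cast h1
  have h3 := Real.log_le_log (by positivity) h2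
  rw [Real.log_pow] at h3
  have h4 := Real.log_two_gt_d9
  have h5 : (kk q n : ℝ) ≤ ((q * kk q n : ℕ) : ℝ) := by
    exact_mod_cast Nat.le_mul_of_pos_left _ hq
  have h6 : (0:ℝ) ≤ kk q n := Nat.cast_nonneg _
  push_cast at h3 h5 ⊢
  nlinarith

/-- the error term of the moments is small -/
lemma Lac.err (h : Lac a b c θ κ) (hcd : c ≤ d) {af : ℕ → ℝ} (ha : Bd af) {q : ℕ} (hq : 8 / (1 - κ) ≤ q) :
    ∀ᶠ n : ℕ in atTop, AA af ((n + 1) ^ 400) ^ (2 * kk q n) * ((3 + 3 * (d - c)) *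
      (((2 * kk q n * (n + 1) ^ 400 + 1 : ℕ) : ℝ) ^ (2 ^ (2 * kk q n)) / pt a b n c)) ≤ 1 := by
  obtain ⟨Cs, hCs, hAA⟩ := AA_le ha
  have hδ : 0 < 1 - κ := by linarith [h.k1]
  have hq0 : (0:ℝ) < q := lt_of_lt_of_le (by positivity) hq
  have hq1 : 1 ≤ q := by exact_mod_cast hq0
  have hdc : 0 ≤ d - c := by linarith
  filter_upwards [h.big (1203 * (4 / (1 - κ))) (3 + 3 * (d - c)), eventually_ge_atTop (⌈Cs⌉₊ + 2)] with n hn hnC
  have hnC' : Cs ≤ (n:ℝ) := by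
    have h1 : (⌈Cs⌉₊ : ℝ) ≤ n := by exact_mod_cast (by omega : ⌈Cs⌉₊ ≤ n)
    exact (Nat.le_ceil _).trans h1
  have hn2 : (2:ℝ) ≤ n := by exact_mod_cast (by omega : 2 ≤ n)
  set x : ℝ := (n:ℝ) + 1 with hx
  clear_value x
  have hx2 : 2 ≤ x := by rw [hx]; linarith
  have hx1 : 1 ≤ x := by linarith
  have hx0 : 0 < x := by linarith
  set k := kk q n with hk
  have hpt := h.ppos n c
  -- `2^(2k) ≤ x^(δ/4)`
  have h4k : ((2:ℝ) ^ (2 * k)) ≤ x ^ ((1 - κ) / 4) := by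
    have h1 : (2:ℝ) ^ (q * k) ≤ x := by
      have := kk_up q n
      rw [hx]; exact_mod_cast this
    have h2 : ((2:ℝ) ^ (2 * k)) = ((2:ℝ) ^ (q * k)) ^ ((2:ℝ) / q) := by
      rw [← Real.rpow_natCast, ← Real.rpow_natCast, ← Real.rpow_mul (by norm_num)]
      congr 1
      push_cast
      field_simp
    rw [h2]
    calc ((2:ℝ) ^ (q * k)) ^ ((2:ℝ) / q) ≤ x ^ ((2:ℝ) / q) := Real.rpow_le_rpow (by positivity) h1 (by positivity)
      _ ≤ _ := by
          apply Real.rpow_le_rpow_of_exponent_le hx1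
          rw [div_le_iff₀ hδ] at hq
          rw [div_le_div_iff₀ hq0 (by norm_num)]
          linarith
  -- the base
  have hM : AA af ((n + 1) ^ 400) ≤ Cs * x ^ 800 := by
    refine (hAA _).trans (le_of_eq ?_)
    rw [hx]; push_cast; rw [← pow_mul]
  have hkx : ((2 * k : ℕ) : ℝ) ≤ (2:ℝ) ^ (2 * k) := by
    exact_mod_cast (Nat.lt_two_pow_self (n := 2 * k)).le
  have hAA2 : AA af ((n + 1) ^ 400) ^ (2 * k) ≤ (Cs * x ^ 800) ^ (2 ^ (2 * k)) := by
    calc AA af ((n + 1) ^ 400) ^ (2 * k) ≤ (Cs * x ^ 800) ^ (2 * k) := pow_le_pow_left₀ (AA_nonneg _ _) hM _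
      _ ≤ _ := by
          apply pow_le_pow_right₀
          · have : (1:ℝ) ≤ x ^ 800 := one_le_pow₀ hx1
            nlinarith
          · exact (Nat.lt_two_pow_self (n := 2 * k)).le
  have hkn : 2 * k ≤ n + 1 := by
    have h1 := kk_up q n
    rw [← hk] at h1
    rcases Nat.eq_zero_or_pos k with h0 | h0
    · omega
    -- `2k ≤ 2^k ≤ 2^(qk)`
    have h2 : 2 * k ≤ 2 ^ k := by
      clear_value k
      have h3 : ∀ j : ℕ, 1 ≤ j → 2 * j ≤ 2 ^ j := by
        intro j hj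
        induction j, hj using Nat.le_induction with
        | base => norm_num
        | succ j hj ih => rw [pow_succ]; omega
      exact h3 k h0
    have h3 : 2 ^ k ≤ 2 ^ (q * k) := Nat.pow_le_pow_right (by norm_num) (Nat.le_mul_of_pos_left _ hq1)
    omega
  have hbase : ((2 * k * (n + 1) ^ 400 + 1 : ℕ) : ℝ) ≤ x ^ 402 := by
    have h1 : ((2 * k * (n + 1) ^ 400 + 1 : ℕ) : ℝ) ≤ x * x ^ 400 + 1 := by
      have h2 : ((2 * k : ℕ) : ℝ) ≤ x := by rw [hx]; exact_mod_cast hkn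
      push_cast at h2 ⊢
      rw [← hx]
      have : 0 ≤ x ^ 400 := by positivity
      nlinarith
    refine h1.trans ?_
    have h3 : 1 ≤ x ^ 401 := one_le_pow₀ hx1
    calc x * x ^ 400 + 1 = x ^ 401 + 1 := by ring
      _ ≤ 2 * x ^ 401 := by linarith
      _ ≤ x * x ^ 401 := mul_le_mul_of_nonneg_right hx2 (by positivity)
      _ = _ := by ring
  have hprod : AA af ((n + 1) ^ 400) ^ (2 * k) * ((2 * k * (n + 1) ^ 400 + 1 : ℕ) : ℝ) ^ (2 ^ (2 * k)) ≤
      exp (1203 * (4 / (1 - κ)) * x ^ ((1 - κ) / 2)) := by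
    calc AA af ((n + 1) ^ 400) ^ (2 * k) * ((2 * k * (n + 1) ^ 400 + 1 : ℕ) : ℝ) ^ (2 ^ (2 * k))
        ≤ (Cs * x ^ 800) ^ (2 ^ (2 * k)) * (x ^ 402) ^ (2 ^ (2 * k)) := by
          exact mul_le_mul hAA2 (pow_le_pow_left₀ (Nat.cast_nonneg _) hbase _) (pow_nonneg (Nat.cast_nonneg _) _)
            (pow_nonneg (mul_nonneg (by linarith) (pow_nonneg hx0.le _)) _)
      _ = (Cs * x ^ 1202) ^ (2 ^ (2 * k)) := by rw [← mul_pow]; congr 1; ring
      _ ≤ (x ^ 1203) ^ (2 ^ (2 * k)) := by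
          apply pow_le_pow_left₀ (mul_nonneg (by linarith) (pow_nonneg hx0.le _))
          calc Cs * x ^ 1202 ≤ x * x ^ 1202 := mul_le_mul_of_nonneg_right (by rw [hx]; linarith) (by positivity)
            _ = _ := by ring
      _ = exp (1203 * ((2:ℝ) ^ (2 * k) * Real.log x)) := by
          rw [← pow_mul, ← Real.rpow_natCast, Real.rpow_def_of_pos hx0]
          congr 1
          push_cast; ring
      _ ≤ _ := by
          apply Real.exp_le_exp.2
          have h1 := Real.log_le_rpow_div hx0.le (show 0 < (1 - κ) / 4 by linarith)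
          have h2 : (2:ℝ) ^ (2 * k) * Real.log x ≤ x ^ ((1 - κ) / 4) * (x ^ ((1 - κ) / 4) / ((1 - κ) / 4)) :=
            mul_le_mul h4k h1 (Real.log_nonneg hx1) (by positivity)
          have h3 : x ^ ((1 - κ) / 4) * (x ^ ((1 - κ) / 4) / ((1 - κ) / 4)) = (4 / (1 - κ)) * x ^ ((1 - κ) / 2) := by
            rw [mul_div_assoc', ← Real.rpow_add hx0, show (1 - κ) / 4 + (1 - κ) / 4 = (1 - κ) / 2 by ring]
            field_simp
          rw [h3] at h2
          linarith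
  calc AA af ((n + 1) ^ 400) ^ (2 * k) * ((3 + 3 * (d - c)) *
      (((2 * k * (n + 1) ^ 400 + 1 : ℕ) : ℝ) ^ (2 ^ (2 * k)) / pt a b n c))
      = (3 + 3 * (d - c)) * (AA af ((n + 1) ^ 400) ^ (2 * k) * ((2 * k * (n + 1) ^ 400 + 1 : ℕ) : ℝ) ^ (2 ^ (2 * k))) / pt a b n c := by ring
    _ ≤ (3 + 3 * (d - c)) * exp (1203 * (4 / (1 - κ)) * x ^ ((1 - κ) / 2)) / pt a b n c := by
        apply div_le_div_of_nonneg_right _ hpt.le
        exact mul_le_mul_of_nonneg_left hprod (by positivity)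
    _ ≤ 1 := by rw [div_le_one hpt]; exact hn

lemma summ2 (C : ℝ) : Summable fun n : ℕ => C * ((n:ℝ) + 1) ^ (-2:ℝ) := by
  have h1 : Summable fun n : ℕ => ((n:ℝ)) ^ (-2:ℝ) := Real.summable_nat_rpow.mpr (by norm_num)
  have h2 := (summable_nat_add_iff 1).mpr h1
  refine (h2.mul_left C).congr fun n => ?_
  push_cast
  rfl

/-- the model polynomials along the sequence -/
theorem Lac.model (h : Lac a b c θ κ) (hcd : c ≤ d) {af : ℕ → ℝ} (φ : ℝ) (hw : Bdw af) {ε : ℝ} (hε : 0 < ε)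
    (hε1 : ε ≤ 1/8) : ∀ᵐ y ∂(volume.restrict (Icc c d)), ∀ᶠ n : ℕ in atTop,
      |U af φ (pt a b n y) ((n + 1) ^ 400)| ≤ (Real.log ((n:ℝ) + 1)) ^ (1/4 + ε) := by
  have hδ : 0 < 1 - κ := by linarith [h.k1]
  have hdc : 0 ≤ d - c := by linarith
  obtain ⟨q, hq⟩ := exists_nat_ge (8 / (1 - κ))
  have hq0 : (0:ℝ) < q := lt_of_lt_of_le (by positivity) hq
  have hq1 : 1 ≤ q := by exact_mod_cast hq0
  obtain ⟨K, hK, hZ⟩ := ZZ_le (a := af) φ hw (ε := ε / 2) (by linarith) (by linarith)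
  set Kn : ℕ → ℝ := fun n => (Real.log ((n:ℝ) + 1)) ^ (1/4 + ε) with hKn
  set g : ℕ → ℝ → ℝ := fun n y => (U af φ (pt a b n y) ((n + 1) ^ 400) / Kn n) ^ (2 * kk q n) with hg
  have hlogt : Tendsto (fun n : ℕ => Real.log ((n:ℝ) + 1)) atTop atTop :=
    Real.tendsto_log_atTop.comp (tendsto_atTop_add_const_right _ _ tendsto_natCast_atTop_atTop)
  have hKt : Tendsto Kn atTop atTop := (tendsto_rpow_atTop (by linarith)).comp hlogt
  -- eventually all is small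
  have hsm : ∀ᶠ n : ℕ in atTop, 3 * K * (Real.log ((n:ℝ) + 1)) ^ (-(ε / 2)) ≤ (1/2) ^ (2 * q) := by
    have h1 : Tendsto (fun n : ℕ => 3 * K * (Real.log ((n:ℝ) + 1)) ^ (-(ε / 2))) atTop (𝓝 (3 * K * 0)) :=
      ((tendsto_rpow_neg_atTop (by linarith)).comp hlogt).const_mul _
    rw [mul_zero] at h1
    filter_upwards [h1.eventually (gt_mem_nhds (show (0:ℝ) < (1/2) ^ (2 * q) by positivity))] with n hn
    exact hn.le
  have hev : ∀ᶠ n : ℕ in atTop, ∫ y in c..d, g n y ≤ (1 + 2 * (d - c)) * (2 ^ q) ^ 4 * ((n:ℝ) + 1) ^ (-2:ℝ) := by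
    filter_upwards [h.err hcd hw.Bd hq, hsm, (kk_tendsto hq1).eventually_ge_atTop 1,
      hKt.eventually_ge_atTop (2 ^ (2 * q)), hlogt.eventually_ge_atTop 1] with n h1 h2 h3 h4 h5
    set k := kk q n with hk
    set L := Real.log ((n:ℝ) + 1) with hL
    have hL0 : 0 < L := by linarith
    have hKn0 : 0 < Kn n := lt_of_lt_of_le (by positivity) h4
    have e1 : ∫ y in c..d, g n y = (Kn n ^ (2 * k))⁻¹ * ∫ y in c..d, (U af φ (pt a b n y) ((n + 1) ^ 400)) ^ (2 * k) := by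
      rw [← intervalIntegral.integral_const_mul]
      congr 1
      funext y
      simp only [hg, ← hk]
      rw [div_pow]; field_simp
    have e2 := h.int_even hcd af φ (2 * k) ((n + 1) ^ 400) n
    have e3 := hZ k ((n + 1) ^ 400) h3
    have e4 : ∫ y in c..d, (U af φ (pt a b n y) ((n + 1) ^ 400)) ^ (2 * k) ≤
        1 + 2 * (d - c) * (K * ((2 * k : ℕ) : ℝ) ^ (1/4 + ε / 2)) ^ (2 * k) := by
      refine e2.trans (add_le_add h1 ?_)
      calc (d - c) * ‖ZZ af φ (2 * k) ((n + 1) ^ 400)‖ ≤ (d - c) * (2 * (K * ((2 * k : ℕ) : ℝ) ^ (1/4 + ε / 2)) ^ (2 * k)) :=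
            mul_le_mul_of_nonneg_left e3 hdc
        _ = _ := by ring
    -- the base
    have e5 : K * ((2 * k : ℕ) : ℝ) ^ (1/4 + ε / 2) ≤ (1/2) ^ (2 * q) * Kn n := by
      have f1 : ((2 * k : ℕ) : ℝ) ≤ 3 * L := kk_log q n hq1
      have f2 : ((2 * k : ℕ) : ℝ) ^ (1/4 + ε / 2) ≤ 3 * L ^ (1/4 + ε / 2) := by
        calc ((2 * k : ℕ) : ℝ) ^ (1/4 + ε / 2) ≤ (3 * L) ^ (1/4 + ε / 2) :=
              Real.rpow_le_rpow (Nat.cast_nonneg _) f1 (by linarith)
          _ = 3 ^ (1/4 + ε / 2) * L ^ (1/4 + ε / 2) := Real.mul_rpow (by norm_num) hL0.le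
          _ ≤ 3 * L ^ (1/4 + ε / 2) := by
              apply mul_le_mul_of_nonneg_right _ (by positivity)
              calc (3:ℝ) ^ (1/4 + ε / 2) ≤ 3 ^ (1:ℝ) := Real.rpow_le_rpow_of_exponent_le (by norm_num) (by linarith)
                _ = 3 := Real.rpow_one _
      have f3 : L ^ (1/4 + ε / 2) = L ^ (-(ε / 2)) * Kn n := by
        simp only [hKn]
        rw [← hL, ← Real.rpow_add hL0]; congr 1; ring
      calc K * ((2 * k : ℕ) : ℝ) ^ (1/4 + ε / 2) ≤ K * (3 * L ^ (1/4 + ε / 2)) :=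
            mul_le_mul_of_nonneg_left f2 (by linarith)
        _ = (3 * K * L ^ (-(ε / 2))) * Kn n := by rw [f3]; ring
        _ ≤ _ := mul_le_mul_of_nonneg_right h2 hKn0.le
    have e6 : (1:ℝ) ≤ (1/2) ^ (2 * q) * Kn n := by
      have : (1/2:ℝ) ^ (2 * q) * 2 ^ (2 * q) = 1 := by rw [← mul_pow]; norm_num
      calc (1:ℝ) = (1/2:ℝ) ^ (2 * q) * 2 ^ (2 * q) := this.symm
        _ ≤ _ := mul_le_mul_of_nonneg_left h4 (by positivity)
    have e7 : ∫ y in c..d, (U af φ (pt a b n y) ((n + 1) ^ 400)) ^ (2 * k) ≤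
        (1 + 2 * (d - c)) * (((1/2) ^ (2 * q) * Kn n) ^ (2 * k)) := by
      have f1 : (1:ℝ) ≤ ((1/2) ^ (2 * q) * Kn n) ^ (2 * k) := one_le_pow₀ e6
      have f2 : (K * ((2 * k : ℕ) : ℝ) ^ (1/4 + ε / 2)) ^ (2 * k) ≤ ((1/2) ^ (2 * q) * Kn n) ^ (2 * k) :=
        pow_le_pow_left₀ (by positivity) e5 _
      calc _ ≤ 1 + 2 * (d - c) * (K * ((2 * k : ℕ) : ℝ) ^ (1/4 + ε / 2)) ^ (2 * k) := e4
        _ ≤ ((1/2) ^ (2 * q) * Kn n) ^ (2 * k) + 2 * (d - c) * ((1/2) ^ (2 * q) * Kn n) ^ (2 * k) := by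
            apply add_le_add f1
            exact mul_le_mul_of_nonneg_left f2 (by positivity)
        _ = _ := by ring
    rw [e1]
    have hKp : 0 < Kn n ^ (2 * k) := by positivity
    calc (Kn n ^ (2 * k))⁻¹ * ∫ y in c..d, (U af φ (pt a b n y) ((n + 1) ^ 400)) ^ (2 * k)
        ≤ (Kn n ^ (2 * k))⁻¹ * ((1 + 2 * (d - c)) * (((1/2) ^ (2 * q) * Kn n) ^ (2 * k))) :=
          mul_le_mul_of_nonneg_left e7 (by positivity)
      _ = (1 + 2 * (d - c)) * ((1/2) ^ (2 * q)) ^ (2 * k) := by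
          rw [mul_pow ((1/2:ℝ) ^ (2 * q))]; field_simp
      _ = (1 + 2 * (d - c)) * (((2:ℝ) ^ (q * k))⁻¹) ^ 4 := by
          congr 1
          rw [one_div, ← pow_mul, inv_pow, inv_pow, ← pow_mul]
          congr 2; ring
      _ ≤ (1 + 2 * (d - c)) * ((2 ^ q) ^ 4 * ((n:ℝ) + 1) ^ (-2:ℝ)) := by
          apply mul_le_mul_of_nonneg_left _ (by positivity)
          have f1 : ((n:ℝ) + 1) ≤ 2 ^ q * 2 ^ (q * k) := by exact_mod_cast kk_low hq1 n
          have f2 : 0 < (n:ℝ) + 1 := by positivity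
          have f3 : ((2:ℝ) ^ (q * k))⁻¹ ≤ 2 ^ q * ((n:ℝ) + 1)⁻¹ := by
            rw [← div_eq_mul_inv, inv_eq_one_div, div_le_div_iff₀ (by positivity) f2]
            linarith
          calc (((2:ℝ) ^ (q * k))⁻¹) ^ 4 ≤ (2 ^ q * ((n:ℝ) + 1)⁻¹) ^ 4 := pow_le_pow_left₀ (by positivity) f3 4
            _ = (2 ^ q) ^ 4 * (((n:ℝ) + 1) ^ 4)⁻¹ := by rw [mul_pow, inv_pow]
            _ ≤ (2 ^ q) ^ 4 * ((n:ℝ) + 1) ^ (-2:ℝ) := by
                apply mul_le_mul_of_nonneg_left _ (by positivity)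
                rw [show (-2:ℝ) = -((2:ℕ):ℝ) by norm_num, Real.rpow_neg f2.le, Real.rpow_natCast]
                apply inv_anti₀ (by positivity)
                apply pow_le_pow_right₀ _ (by norm_num)
                have : (0:ℝ) ≤ n := Nat.cast_nonneg n
                linarith
      _ = _ := by ring
  rw [eventually_atTop] at hev
  obtain ⟨n0, hn0⟩ := hev
  have hgc : ∀ n, Continuous (g n) := fun n => ((Upt_cont af φ a b n _).div_const _).pow _
  have hg0 : ∀ n y, 0 ≤ g n y := fun n y => Even.pow_nonneg (even_two_mul _) _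
  have hae := ae_zero' hcd hgc (summ2 ((1 + 2 * (d - c)) * (2 ^ q) ^ 4)) (j0 := n0) (fun n hn => hn0 n hn) hg0
  filter_upwards [hae] with y hy
  filter_upwards [hy.eventually (gt_mem_nhds (show (0:ℝ) < 1 by norm_num)), (kk_tendsto hq1).eventually_ge_atTop 1,
    hKt.eventually_ge_atTop 1] with n h1 h2 h3
  have hKn0 : 0 < Kn n := by linarith
  by_contra hcon
  rw [not_le] at hcon
  have h4 : 1 ≤ |U af φ (pt a b n y) ((n + 1) ^ 400) / Kn n| := by
    rw [abs_div, abs_of_pos hKn0, le_div_iff₀ hKn0, one_mul]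
    exact hcon.le
  have h5 : 1 ≤ g n y := by
    simp only [hg]
    rw [← (even_two_mul (kk q n)).pow_abs]
    exact one_le_pow₀ h4
  linarith

/-- the approximation -/
theorem Lac.approx (h : Lac a b c θ κ) (hcd : c ≤ d) {E : ℝ → ℝ} {af : ℕ → ℝ} {φ : ℝ} (hX : Ctx E af φ) :
    ∀ᵐ y ∂(volume.restrict (Icc c d)), ∀ᶠ n : ℕ in atTop,
      |E (pt a b n y) - U af φ (pt a b n y) ((n + 1) ^ 400)| ≤ 1 := by
  obtain ⟨C, hC, ρ, hρ, hl⟩ := hX.l2 c d hcd
  have hδ : 0 < 1 - κ := by linarith [h.k1]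
  have h1 := h.big 0 ρ
  have h2 := h.big ((40000 : ℕ) * (2 / (1 - κ))) 2
  have hev : ∀ᶠ n : ℕ in atTop, ∫⁻ y in Icc c d, ENNReal.ofReal ((E (pt a b n y) - U af φ (pt a b n y) ((n + 1) ^ 400)) ^ 2) ≤
      ENNReal.ofReal (C * ((n:ℝ) + 1) ^ (-2:ℝ)) := by
    filter_upwards [h1, h2] with n h3 h4
    have h5 : (((n + 1) ^ 400 : ℕ) : ℝ) ^ 100 ≤ pt a b n c / 2 := by
      have h6 := pow_exp_le hδ (x := (n:ℝ) + 1) (by have : (0:ℝ) ≤ n := Nat.cast_nonneg n; linarith) 40000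
      rw [le_div_iff₀ (by norm_num)]
      refine le_trans ?_ h4
      have h7 : (((n + 1) ^ 400 : ℕ) : ℝ) ^ 100 = ((n:ℝ) + 1) ^ 40000 := by
        push_cast; rw [← pow_mul]
      rw [h7, mul_comm]
      exact mul_le_mul_of_nonneg_left h6 (by norm_num)
    have h8 := hl (a n) (b n) (h.one n) (h.pos n) (by
      rw [zero_mul, Real.exp_zero, mul_one] at h3; exact h3) ((n + 1) ^ 400) (Nat.one_le_pow _ _ (by omega)) h5
    refine h8.trans (ENNReal.ofReal_le_ofReal (le_of_eq ?_))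
    congr 1
    have hn0 : (0:ℝ) ≤ (n:ℝ) + 1 := by positivity
    push_cast
    rw [← Real.rpow_natCast, ← Real.rpow_mul hn0]
    norm_num
  rw [eventually_atTop] at hev
  obtain ⟨n0, hn0⟩ := hev
  have hmeas : ∀ n : ℕ, Measurable fun y => (E (pt a b n y) - U af φ (pt a b n y) ((n + 1) ^ 400)) ^ 2 := fun n =>
    ((pt_meas hX.meas n).sub (Upt_cont af φ a b n _).measurable).pow_const 2
  have hae := ae_zero (μ := volume.restrict (Icc c d)) hmeas (summ2 C) (j0 := n0) (fun n hn => hn0 n hn)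
    (fun n y => sq_nonneg _)
  filter_upwards [hae] with y hy
  filter_upwards [hy.eventually (gt_mem_nhds (show (0:ℝ) < 1 by norm_num))] with n h1
  rw [← sq_le_one_iff_abs_le_one]
  exact h1.le

/-- **upper bound** -/
theorem Lac.upper (h : Lac a b c θ κ) (hcd : c ≤ d) {E : ℝ → ℝ} {af : ℕ → ℝ} {φ : ℝ} (hX : Ctx E af φ)
    (hw : Bdw af) {ε : ℝ} (hε : 0 < ε) (hε1 : ε ≤ 1/8) :
    ∀ᵐ y ∂(volume.restrict (Icc c d)), ∀ᶠ n : ℕ in atTop,
      |E (pt a b n y)| ≤ (Real.log ((n:ℝ) + 1)) ^ (1/4 + ε) + 1 := by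
  filter_upwards [h.model hcd φ hw hε hε1, h.approx hcd hX] with y h1 h2
  filter_upwards [h1, h2] with n h3 h4
  have h5 : E (pt a b n y) = U af φ (pt a b n y) ((n + 1) ^ 400) +
      (E (pt a b n y) - U af φ (pt a b n y) ((n + 1) ^ 400)) := by ring
  rw [h5]
  exact (abs_add_le _ _).trans (add_le_add h3 h4)

end Pool.Agent.W2helper40.MX
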