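import Mathlib
import Pool.Agent.H383.LinIndep
import Pool.Agent.Y969.TM3
import Pool.Agent.W2helper40.MX.Seq

/-!
# Riesz products over squarefree integers and their products with the model polynomials
-/

set_option autoImplicit false

open MeasureTheory Filter Topology Set Real
open Pool.Agent.H469R2.NK (e norm_e e_add conj_e e_zero)
open Pool.Agent.H383.Gen (U Bd)
open Pool.Agent.Y969.TM
open Pool.Agent.H383.Gauss (sf_indep)
open Pool.Agent.W24.Liou (vv vv_pos liou)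
open Pool.Agent.R306.GP (pt AA AA_nonneg)

namespace Pool.Agent.W2helper40.MX

/-- the signs -/
def SG : Finset ℤ := {-1, 0, 1}

lemma SG_abs {s : ℤ} (h : s ∈ SG) : |s| ≤ 1 := by
  simp only [SG, Finset.mem_insert, Finset.mem_singleton] at h
  rcases h with rfl | rfl | rfl <;> norm_num

/-- coefficients of a factor -/
noncomputable def gm (σ φ : ℝ) (s : ℤ) : ℂ :=
  if s = 0 then 1 else ((σ / 2 : ℝ) : ℂ) * Complex.exp (((-(s:ℝ) * φ : ℝ) : ℂ) * Complex.I)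

lemma fac_exp (σ φ R : ℝ) (q : ℕ) : ((1 + σ * Real.cos (2 * π * (R * √(q:ℝ)) - φ) : ℝ) : ℂ) =
    ∑ s ∈ SG, gm σ φ s * e (R * ((s:ℝ) * √(q:ℝ))) := by
  have h0 : ∑ s ∈ SG, gm σ φ s * e (R * ((s:ℝ) * √(q:ℝ))) =
      gm σ φ (-1) * e (R * (((-1:ℤ):ℝ) * √(q:ℝ))) + (gm σ φ 0 * e (R * (((0:ℤ):ℝ) * √(q:ℝ))) +
        gm σ φ 1 * e (R * (((1:ℤ):ℝ) * √(q:ℝ)))) := by
    unfold SG
    rw [Finset.sum_insert (by decide), Finset.sum_insert (by decide), Finset.sum_singleton]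
  rw [h0]
  have h1 : Complex.cos (2 * (π:ℂ) * ((R:ℂ) * ((√(q:ℝ) : ℝ) : ℂ)) - (φ:ℂ)) =
      (Complex.exp ((2 * (π:ℂ) * ((R:ℂ) * ((√(q:ℝ) : ℝ) : ℂ)) - (φ:ℂ)) * Complex.I) +
       Complex.exp (-(2 * (π:ℂ) * ((R:ℂ) * ((√(q:ℝ) : ℝ) : ℂ)) - (φ:ℂ)) * Complex.I)) / 2 := rfl
  have h2 : (2 * (π:ℂ) * ((R:ℂ) * ((√(q:ℝ) : ℝ) : ℂ)) - (φ:ℂ)) * Complex.I =
     ((-(((1:ℤ):ℝ)) * φ : ℝ) : ℂ) * Complex.I + ((2 * π * (R * ((((1:ℤ):ℝ)) * √(q:ℝ))) : ℝ) : ℂ) * Complex.I := by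
    push_cast; ring
  have h3 : -(2 * (π:ℂ) * ((R:ℂ) * ((√(q:ℝ) : ℝ) : ℂ)) - (φ:ℂ)) * Complex.I =
     ((-((((-1:ℤ)):ℝ)) * φ : ℝ) : ℂ) * Complex.I + ((2 * π * (R * (((((-1:ℤ)):ℝ)) * √(q:ℝ))) : ℝ) : ℂ) * Complex.I := by
    push_cast; ring
  unfold gm
  rw [if_neg (by decide), if_pos rfl, if_neg (by decide)]
  have h4 : e (R * (((0:ℤ):ℝ) * √(q:ℝ))) = 1 := by
    rw [Int.cast_zero, zero_mul, mul_zero, e_zero]
  rw [h4]
  have h5 : ∀ x : ℝ, e x = Complex.exp (((2 * π * x : ℝ) : ℂ) * Complex.I) := fun x => rfl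
  rw [h5, h5]
  have h6 : ((1 + σ * Real.cos (2 * π * (R * √(q:ℝ)) - φ) : ℝ) : ℂ) =
      1 + (σ:ℂ) * Complex.cos (2 * (π:ℂ) * ((R:ℂ) * ((√(q:ℝ) : ℝ) : ℂ)) - (φ:ℂ)) := by
    push_cast; rfl
  rw [h6, h1, h2, h3, Complex.exp_add, Complex.exp_add]
  push_cast
  ring

lemma norm_gm {σ : ℝ} (hσ : |σ| = 1) (φ : ℝ) {s : ℤ} : ‖gm σ φ s‖ = if s = 0 then 1 else 1 / 2 := by
  unfold gm
  split_ifs with h
  · simp
  · rw [norm_mul, Complex.norm_exp_ofReal_mul_I, mul_one, Complex.norm_real, Real.norm_eq_abs, abs_div, hσ]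
    norm_num

/-- the Riesz product -/
noncomputable def Wr (σ φ : ℝ) (Q : Finset ℕ) (R : ℝ) : ℝ := ∏ q ∈ Q, (1 + σ * Real.cos (2 * π * (R * √(q:ℝ)) - φ))

lemma Wr_cont (σ φ : ℝ) (Q : Finset ℕ) : Continuous (Wr σ φ Q) := by
  unfold Wr
  fun_prop

lemma Wr_fac {σ : ℝ} (hσ : |σ| = 1) (x : ℝ) : 0 ≤ 1 + σ * Real.cos x ∧ 1 + σ * Real.cos x ≤ 2 := by
  have h1 : |σ * Real.cos x| ≤ 1 := by
    rw [abs_mul, hσ, one_mul]; exact Real.abs_cos_le_one x
  have := abs_le.1 h1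
  constructor <;> linarith

lemma Wr_nonneg {σ : ℝ} (hσ : |σ| = 1) (φ : ℝ) (Q : Finset ℕ) (R : ℝ) : 0 ≤ Wr σ φ Q R :=
  Finset.prod_nonneg fun _ _ => (Wr_fac hσ _).1

lemma Wr_le {σ : ℝ} (hσ : |σ| = 1) (φ : ℝ) (Q : Finset ℕ) (R : ℝ) : Wr σ φ Q R ≤ 2 ^ Q.card := by
  unfold Wr
  rw [← Finset.prod_const]
  exact Finset.prod_le_prod (fun _ _ => (Wr_fac hσ _).1) fun _ _ => (Wr_fac hσ _).2

/-- index set of the Riesz product -/
def PQ (Q : Finset ℕ) : Finset (↥Q → ℤ) := Fintype.piFinset fun _ => SG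

/-- coefficient -/
noncomputable def ge (σ φ : ℝ) {Q : Finset ℕ} (ε : ↥Q → ℤ) : ℂ := ∏ q, gm σ φ (ε q)

/-- frequency -/
noncomputable def fe {Q : Finset ℕ} (ε : ↥Q → ℤ) : ℝ := ∑ q : ↥Q, (ε q : ℝ) * √((q:ℕ):ℝ)

lemma Wr_exp (σ φ : ℝ) (Q : Finset ℕ) (R : ℝ) :
    ((Wr σ φ Q R : ℝ) : ℂ) = ∑ ε ∈ PQ Q, ge σ φ ε * e (R * fe ε) := by
  unfold Wr
  rw [Complex.ofReal_prod, ← Finset.prod_coe_sort Q (fun q => ((1 + σ * Real.cos (2 * π * (R * √(q:ℝ)) - φ) : ℝ) : ℂ))]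
  simp only [fac_exp]
  rw [Finset.prod_univ_sum]
  unfold PQ
  apply Finset.sum_congr rfl
  intro ε _
  unfold ge fe
  rw [Finset.prod_mul_distrib, Finset.mul_sum, e_sum]

lemma sum_norm_ge {σ : ℝ} (hσ : |σ| = 1) (φ : ℝ) (Q : Finset ℕ) : ∑ ε ∈ PQ Q, ‖ge σ φ ε‖ = 2 ^ Q.card := by
  unfold PQ ge
  simp only [norm_prod]
  rw [← Finset.prod_univ_sum (fun _ : ↥Q => SG) (fun _ s => ‖gm σ φ s‖)]
  have h0 : ∑ s ∈ SG, ‖gm σ φ s‖ = 2 := by
    unfold SG
    rw [Finset.sum_insert (by decide), Finset.sum_insert (by decide), Finset.sum_singleton]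
    simp only [norm_gm hσ]
    norm_num
  rw [Finset.prod_congr rfl (fun _ _ => h0), Finset.prod_const, Finset.card_univ, Fintype.card_coe]

/-! ## Linear independence -/

lemma rel {Q : Finset ℕ} (hQ : ∀ q ∈ Q, Squarefree q) (n : ↥Q → ℤ) {s : ℕ} (hs : Squarefree s) (t : ℤ)
    (h : ∑ q : ↥Q, (n q : ℝ) * √((q:ℕ):ℝ) + (t:ℝ) * √(s:ℝ) = 0) :
    (∀ q : ↥Q, (q:ℕ) ≠ s → n q = 0) ∧ (∀ q : ↥Q, (q:ℕ) = s → n q + t = 0) ∧ (s ∉ Q → t = 0) := by
  classical
  set l : {s : ℕ // Squarefree s} →₀ ℚ :=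
    ∑ q : ↥Q, Finsupp.single ⟨(q:ℕ), hQ q q.2⟩ (n q : ℚ) + Finsupp.single ⟨s, hs⟩ (t : ℚ) with hl
  have h1 : Finsupp.linearCombination ℚ (fun s : {s : ℕ // Squarefree s} => √((s:ℕ):ℝ)) l = 0 := by
    rw [hl, map_add, map_sum, ← h]
    simp only [Finsupp.linearCombination_single, Rat.smul_def, Rat.cast_intCast]
  have h2 : l = 0 := linearIndependent_iff.1 sf_indep l h1
  have h3 : ∀ x : {s : ℕ // Squarefree s}, ∑ q : ↥Q, (if (q:ℕ) = x.1 then (n q : ℚ) else 0) +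
      (if s = x.1 then (t:ℚ) else 0) = 0 := by
    intro x
    have h4 : l x = 0 := by rw [h2]; rfl
    rw [hl, Finsupp.add_apply, Finsupp.finsetSum_apply] at h4
    have k1 : ∀ q : ↥Q, (Finsupp.single (⟨(q:ℕ), hQ q q.2⟩ : {s : ℕ // Squarefree s}) (n q : ℚ)) x =
        if (q:ℕ) = x.1 then (n q : ℚ) else 0 := by
      intro q
      rw [Finsupp.single_apply]
      exact if_congr Subtype.ext_iff rfl rfl
    have k2 : (Finsupp.single (⟨s, hs⟩ : {s : ℕ // Squarefree s}) (t : ℚ)) x = if s = x.1 then (t:ℚ) else 0 := by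
      rw [Finsupp.single_apply]
      exact if_congr Subtype.ext_iff rfl rfl
    rw [k2, Finset.sum_congr rfl (fun q _ => k1 q)] at h4
    exact h4
  have h5 : ∀ q0 : ↥Q, ∑ q : ↥Q, (if (q:ℕ) = (q0:ℕ) then (n q : ℚ) else 0) = n q0 := by
    intro q0
    rw [Finset.sum_eq_single q0]
    · rw [if_pos rfl]
    · intro q _ hq
      rw [if_neg]
      intro h6
      exact hq (Subtype.ext h6)
    · intro h6; exact absurd (Finset.mem_univ _) h6
  refine ⟨?_, ?_, ?_⟩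
  · intro q0 hq0
    have h6 := h3 ⟨(q0:ℕ), hQ q0 q0.2⟩
    rw [h5, if_neg (Ne.symm hq0), add_zero] at h6
    exact_mod_cast h6
  · intro q0 hq0
    have h6 := h3 ⟨(q0:ℕ), hQ q0 q0.2⟩
    rw [h5, if_pos hq0.symm] at h6
    exact_mod_cast h6
  · intro hsQ
    have h6 := h3 ⟨s, hs⟩
    rw [if_pos rfl, Finset.sum_eq_zero, zero_add] at h6
    · exact_mod_cast h6
    · intro q _
      rw [if_neg]
      intro h7
      apply hsQ
      have h8 : (q:ℕ) = s := h7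
      rw [← h8]; exact q.2

lemma fe_zero {Q : Finset ℕ} (hQ : ∀ q ∈ Q, Squarefree q) {ε : ↥Q → ℤ} (h : fe ε = 0) : ε = 0 := by
  have h1 := rel hQ ε squarefree_one 0 (by unfold fe at h; rw [h]; simp)
  funext q
  by_cases hq : (q:ℕ) = 1
  · have := h1.2.1 q hq
    simpa using this
  · exact h1.1 q hq

/-- a relation with one more square root -/
lemma fe_one {Q : Finset ℕ} (hQ : ∀ q ∈ Q, Squarefree q) {ε : ↥Q → ℤ} (hε : ε ∈ PQ Q) {m : ℕ} (hm : 1 ≤ m) {t : ℤ}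
    (ht : t = 1 ∨ t = -1) (h : fe ε + (t:ℝ) * √(m:ℝ) = 0) :
    ∃ hmQ : m ∈ Q, ε ⟨m, hmQ⟩ = -t ∧ ∀ q : ↥Q, (q:ℕ) ≠ m → ε q = 0 := by
  obtain ⟨s, f, hfs, hs⟩ := Nat.sq_mul_squarefree m
  have hf : 1 ≤ f := by
    rcases Nat.eq_zero_or_pos f with h0 | h0
    · rw [h0] at hfs; simp at hfs; omega
    · exact h0
  have hsq : √(m:ℝ) = f * √(s:ℝ) := by
    rw [← hfs]
    push_cast
    rw [Real.sqrt_mul (by positivity), Real.sqrt_sq (Nat.cast_nonneg f)]
  have h1 := rel hQ ε hs (t * f) (by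
    unfold fe at h
    rw [hsq] at h
    push_cast
    rw [← h]; ring)
  have htf : t * (f:ℤ) ≠ 0 := by
    rcases ht with rfl | rfl <;> omega
  have hsQ : s ∈ Q := by
    by_contra hcon
    exact htf (h1.2.2 hcon)
  have h2 := h1.2.1 ⟨s, hsQ⟩ rfl
  have h3 : |ε ⟨s, hsQ⟩| ≤ 1 := by
    unfold PQ at hε
    rw [Fintype.mem_piFinset] at hε
    exact SG_abs (hε _)
  have hf1 : f = 1 := by
    have h4 : ε ⟨s, hsQ⟩ = -(t * f) := by omega
    rw [h4, abs_neg, abs_mul] at h3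
    have h5 : |t| = 1 := by rcases ht with rfl | rfl <;> norm_num
    rw [h5, one_mul, abs_of_nonneg (by positivity)] at h3
    omega
  have hms : m = s := by rw [← hfs, hf1]; ring
  subst hms
  refine ⟨hsQ, ?_, h1.1⟩
  rw [hf1] at h2
  push_cast at h2
  omega

/-! ## Gaps -/

/-- the gap constant -/
noncomputable def ta (K M : ℕ) : ℝ := ((((K + 1) * M + 1 : ℕ) : ℝ) ^ (2 ^ (K + 1)))⁻¹

lemma ta_pos (K M : ℕ) : 0 < ta K M := by unfold ta; positivity

lemma gap_gen {Q : Finset ℕ} {M : ℕ} (hQ1 : ∀ q ∈ Q, 1 ≤ q) (hQM : ∀ q ∈ Q, q ≤ M ^ 2) {ε : ↥Q → ℤ}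
    (hε : ∀ q, |ε q| ≤ 1) {m : ℕ} (hm1 : 1 ≤ m) (hm : m ≤ M ^ 2) {t : ℤ} (ht : |t| ≤ 1)
    (hne : fe ε + (t:ℝ) * √(m:ℝ) ≠ 0) : ta Q.card M ≤ |fe ε + (t:ℝ) * √(m:ℝ)| := by
  classical
  set g : Option ↥Q → ℕ := fun o => o.elim m (fun q => (q:ℕ)) with hg
  set n : Option ↥Q → ℤ := fun o => o.elim t ε with hn
  have hg1 : ∀ i, 1 ≤ g i := by
    intro i
    cases i with
    | none => exact hm1
    | some q => exact hQ1 q q.2
  have hgM : ∀ i, √(g i : ℝ) ≤ M := by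
    intro i
    rw [Real.sqrt_le_left (Nat.cast_nonneg _)]
    cases i with
    | none => simp only [hg, Option.elim_none]; exact_mod_cast hm
    | some q => simp only [hg, Option.elim_some]; exact_mod_cast hQM q q.2
  have hn1 : ∀ i, |n i| ≤ 1 := by
    intro i
    cases i with
    | none => exact ht
    | some q => exact hε q
  set cT : Finset (Option ↥Q) → ℤ := fun T => ∑ i, if ({i} : Finset (Option ↥Q)) = T then n i else 0 with hc
  have hv : ∀ i : Option ↥Q, vv g {i} = √(g i : ℝ) := by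
    intro i; unfold vv; rw [Finset.prod_singleton]
  have h1 : ∑ T, (cT T : ℝ) * vv g T = fe ε + (t:ℝ) * √(m:ℝ) := by
    simp only [hc]
    push_cast
    simp only [Finset.sum_mul]
    rw [Finset.sum_comm]
    have h2 : ∀ k : Option ↥Q, ∑ T, (if ({k} : Finset (Option ↥Q)) = T then ((n k : ℤ) : ℝ) else 0) * vv g T = (n k : ℝ) * √(g k : ℝ) := by
      intro k
      rw [Finset.sum_eq_single ({k} : Finset (Option ↥Q))]
      · rw [if_pos rfl, hv]
      · intro T _ hT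
        rw [if_neg (Ne.symm hT), zero_mul]
      · intro h; exact absurd (Finset.mem_univ _) h
    rw [Finset.sum_congr rfl (fun k _ => h2 k), Fintype.sum_option, add_comm]
    rfl
  have h2 : ∑ T, |(cT T : ℝ)| * vv g T ≤ ∑ i, √(g i : ℝ) := by
    have h3 : ∀ T, |(cT T : ℝ)| * vv g T ≤ ∑ k, (if ({k} : Finset (Option ↥Q)) = T then (1:ℝ) else 0) * vv g T := by
      intro T
      rw [← Finset.sum_mul]
      apply mul_le_mul_of_nonneg_right _ (vv_pos hg1 T).le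
      simp only [hc]
      push_cast
      refine (Finset.abs_sum_le_sum_abs _ _).trans ?_
      apply Finset.sum_le_sum
      intro k _
      split_ifs
      · have := hn1 k
        exact_mod_cast this
      · simp
    refine (Finset.sum_le_sum (fun T _ => h3 T)).trans (le_of_eq ?_)
    rw [Finset.sum_comm]
    apply Finset.sum_congr rfl
    intro k _
    rw [Finset.sum_eq_single ({k} : Finset (Option ↥Q))]
    · rw [if_pos rfl, hv, one_mul]
    · intro T _ hT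
      rw [if_neg (Ne.symm hT), zero_mul]
    · intro h; exact absurd (Finset.mem_univ _) h
  have hcard : Fintype.card (Option ↥Q) = Q.card + 1 := by rw [Fintype.card_option, Fintype.card_coe]
  have h3 : ∑ i, √(g i : ℝ) ≤ (((Q.card + 1) * M + 1 : ℕ) : ℝ) := by
    calc ∑ i, √(g i : ℝ) ≤ ∑ _i : Option ↥Q, (M:ℝ) := Finset.sum_le_sum fun i _ => hgM i
      _ = (Q.card + 1 : ℕ) * M := by rw [Finset.sum_const, Finset.card_univ, hcard, nsmul_eq_mul]
      _ ≤ _ := by push_cast; linarith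
  rw [← h1] at hne ⊢
  have h4 := liou hg1 cT (B := (((Q.card + 1) * M + 1 : ℕ) : ℝ)) (by
    push_cast
    have : (0:ℝ) ≤ ((Q.card:ℝ) + 1) * M := by positivity
    linarith) (h2.trans h3) hne
  rw [hcard] at h4
  unfold ta
  rw [inv_le_iff_one_le_mul₀ (by positivity)]
  exact h4

lemma fe_abs {Q : Finset ℕ} {M : ℕ} (hQM : ∀ q ∈ Q, q ≤ M ^ 2) {ε : ↥Q → ℤ} (hε : ∀ q, |ε q| ≤ 1) :
    |fe ε| ≤ Q.card * M := by
  unfold fe
  refine (Finset.abs_sum_le_sum_abs _ _).trans ?_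
  calc ∑ q : ↥Q, |(ε q : ℝ) * √((q:ℕ):ℝ)| ≤ ∑ _q : ↥Q, (M:ℝ) := by
        apply Finset.sum_le_sum
        intro q _
        rw [abs_mul, abs_of_nonneg (Real.sqrt_nonneg _)]
        have h1 : |(ε q : ℝ)| ≤ 1 := by exact_mod_cast hε q
        have h2 : √((q:ℕ):ℝ) ≤ M := by
          rw [Real.sqrt_le_left (Nat.cast_nonneg _)]
          exact_mod_cast hQM q q.2
        calc |(ε q : ℝ)| * √((q:ℕ):ℝ) ≤ 1 * M := mul_le_mul h1 h2 (Real.sqrt_nonneg _) (by norm_num)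
          _ = M := one_mul _
    _ = _ := by rw [Finset.sum_const, Finset.card_univ, Fintype.card_coe, nsmul_eq_mul]

lemma PQ_abs {Q : Finset ℕ} {ε : ↥Q → ℤ} (h : ε ∈ PQ Q) : ∀ q, |ε q| ≤ 1 := by
  unfold PQ at h
  rw [Fintype.mem_piFinset] at h
  exact fun q => SG_abs (h q)

/-! ## Real trigonometric polynomials -/

/-- `G` is a real trigonometric polynomial with constant term `z`, sum of the absolute values of the coefficients
at most `W`, nonzero frequencies of absolute value in `[τ, Θ]` -/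
def TP (G : ℝ → ℝ) (z W τ Θ : ℝ) : Prop := ∃ (ι : Type) (s : Finset ι) (cc : ι → ℂ) (θ : ι → ℝ),
  (∀ R, ((G R : ℝ) : ℂ) = ∑ i ∈ s, cc i * e (R * θ i)) ∧ ∑ i ∈ s, ‖cc i‖ ≤ W ∧
  (∀ i ∈ s, θ i ≠ 0 → τ ≤ |θ i|) ∧ (∀ i ∈ s, |θ i| ≤ Θ) ∧
  ∑ i ∈ s, (if θ i = 0 then cc i else 0) = (z : ℂ)

lemma TP.abs_le {G : ℝ → ℝ} {z W τ Θ : ℝ} (h : TP G z W τ Θ) (R : ℝ) : |G R| ≤ W := by
  obtain ⟨ι, s, cc, θ, h1, h2, -⟩ := h
  have h3 : |G R| = ‖((G R : ℝ) : ℂ)‖ := by rw [Complex.norm_real, Real.norm_eq_abs]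
  rw [h3, h1]
  refine (norm_sum_le _ _).trans ((Finset.sum_le_sum fun i _ => ?_).trans h2)
  rw [norm_mul, norm_e, mul_one]

lemma TP.cont {G : ℝ → ℝ} {z W τ Θ : ℝ} (h : TP G z W τ Θ) : Continuous G := by
  obtain ⟨ι, s, cc, θ, h1, -⟩ := h
  have h2 : G = fun R => (∑ i ∈ s, cc i * e (R * θ i)).re := by
    funext R
    rw [← h1]; simp
  rw [h2]
  refine Complex.continuous_re.comp (continuous_finsetSum _ fun i _ => continuous_const.mul ?_)
  exact Pool.Agent.R306.GP.e_continuous.comp (continuous_id.mul continuous_const)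

lemma TP.z_le {G : ℝ → ℝ} {z W τ Θ : ℝ} (h : TP G z W τ Θ) : |z| ≤ W := by
  obtain ⟨ι, s, cc, θ, h1, h2, h3, h4, h5⟩ := h
  have h6 : |z| = ‖(z : ℂ)‖ := by rw [Complex.norm_real, Real.norm_eq_abs]
  rw [h6, ← h5]
  refine (norm_sum_le _ _).trans ((Finset.sum_le_sum fun i _ => ?_).trans h2)
  split_ifs
  · exact le_rfl
  · rw [norm_zero]; exact norm_nonneg _

lemma TP_one {τ Θ : ℝ} (hΘ : 0 ≤ Θ) : TP (fun _ => 1) 1 1 τ Θ := by
  refine ⟨Unit, {()}, fun _ => 1, fun _ => 0, ?_, ?_, ?_, ?_, ?_⟩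
  · intro R; simp [e_zero]
  · simp
  · intro i _ h; exact absurd rfl h
  · intro i _; simpa using hΘ
  · simp

/-- the Riesz product -/
lemma TP_W {σ : ℝ} (hσ : |σ| = 1) (φ : ℝ) {Q : Finset ℕ} (hQ : ∀ q ∈ Q, Squarefree q) {M : ℕ} (hM : 1 ≤ M)
    (hQM : ∀ q ∈ Q, q ≤ M ^ 2) : TP (Wr σ φ Q) 1 (2 ^ Q.card) (ta Q.card M) ((Q.card + 1) * M) := by
  refine ⟨↥Q → ℤ, PQ Q, ge σ φ, fe, Wr_exp σ φ Q, (sum_norm_ge hσ φ Q).le, ?_, ?_, ?_⟩
  · intro ε hε hne
    have h1 := gap_gen (M := M) (fun q hq => Nat.one_le_iff_ne_zero.2 (hQ q hq).ne_zero) hQM (PQ_abs hε) (m := 1) le_rfl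
      (Nat.one_le_pow _ _ hM) (t := 0) (by simp) (by simpa using hne)
    simpa using h1
  · intro ε hε
    refine (fe_abs hQM (PQ_abs hε)).trans ?_
    have : (0:ℝ) ≤ M := Nat.cast_nonneg M
    nlinarith
  · rw [Finset.sum_eq_single (0 : ↥Q → ℤ)]
    · have h0 : fe (0 : ↥Q → ℤ) = 0 := by unfold fe; simp
      rw [if_pos h0]
      unfold ge gm
      simp
    · intro ε _ hne
      rw [if_neg]
      intro h0
      exact hne (fe_zero hQ h0)
    · intro h0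
      exfalso
      apply h0
      unfold PQ
      rw [Fintype.mem_piFinset]
      intro q
      simp [SG]

/-- the product of the Riesz product with the model polynomial -/
lemma TP_WU {σ : ℝ} (hσ : |σ| = 1) (φ : ℝ) (af : ℕ → ℝ) {Q : Finset ℕ} (hQ : ∀ q ∈ Q, Squarefree q) {M : ℕ}
    (hQM : ∀ q ∈ Q, q ≤ M ^ 2) : TP (fun R => Wr σ φ Q R * U af φ R M) (σ / 2 * ∑ q ∈ Q, af q)
      (2 ^ Q.card * AA af M) (ta Q.card M) ((Q.card + 1) * M) := by
  classical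
  refine ⟨(↥Q → ℤ) × (ℕ × Bool), PQ Q ×ˢ JS M, fun i => ge σ φ i.1 * cf af φ i.2, fun i => fe i.1 + fq i.2, ?_, ?_, ?_, ?_, ?_⟩
  · intro R
    rw [Complex.ofReal_mul, Wr_exp, U_exp, Finset.sum_mul_sum, Finset.sum_product]
    apply Finset.sum_congr rfl; intro ε _
    apply Finset.sum_congr rfl; intro u _
    rw [mul_add R, e_add]; ring
  · rw [Finset.sum_product]
    simp only [norm_mul]
    rw [← Finset.sum_mul_sum, sum_norm_ge hσ, sum_norm_cf]
    exact le_rfl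
  · intro i hi hne
    rw [Finset.mem_product] at hi
    have h2 := hi.2
    unfold JS at h2
    rw [Finset.mem_product, Finset.mem_Icc] at h2
    have h1 := gap_gen (M := M) (fun q hq => Nat.one_le_iff_ne_zero.2 (hQ q hq).ne_zero) hQM (PQ_abs hi.1) (m := i.2.1) h2.1.1
      h2.1.2 (t := sb i.2.2) (by unfold sb; split_ifs <;> simp) hne
    exact h1
  · intro i hi
    rw [Finset.mem_product] at hi
    refine (abs_add_le _ _).trans ?_
    have h1 := fe_abs hQM (PQ_abs hi.1)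
    have h2 := fq_le hi.2
    linarith
  · rw [Finset.sum_product, Finset.sum_comm]
    -- the inner sum
    have hin : ∀ u ∈ JS M, ∑ ε ∈ PQ Q, (if fe ε + fq u = 0 then ge σ φ ε * cf af φ u else 0) =
        if u.1 ∈ Q then ((σ / 4 * af u.1 : ℝ) : ℂ) else 0 := by
      intro u hu
      unfold JS at hu
      rw [Finset.mem_product, Finset.mem_Icc] at hu
      have hsb : sb u.2 = 1 ∨ sb u.2 = -1 := by unfold sb; split_ifs <;> simp
      split_ifs with hmQ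
      · set ε0 : ↥Q → ℤ := fun q => if (q:ℕ) = u.1 then -sb u.2 else 0 with hε0
        have hmem : ε0 ∈ PQ Q := by
          unfold PQ
          rw [Fintype.mem_piFinset]
          intro q
          simp only [hε0, SG]
          split_ifs
          · rcases hsb with h | h <;> rw [h] <;> simp
          · simp
        have hfe0 : fe ε0 = -(sb u.2 : ℝ) * √(u.1:ℝ) := by
          unfold fe
          rw [Finset.sum_eq_single (⟨u.1, hmQ⟩ : ↥Q)]
          · simp only [hε0, if_true]; push_cast; ring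
          · intro q _ hq
            have : (q:ℕ) ≠ u.1 := fun h => hq (Subtype.ext h)
            simp only [hε0, if_neg this]; simp
          · intro h; exact absurd (Finset.mem_univ _) h
        rw [Finset.sum_eq_single ε0]
        · rw [if_pos (by rw [hfe0]; unfold fq; ring)]
          have hge : ge σ φ ε0 = gm σ φ (-sb u.2) := by
            unfold ge
            rw [Finset.prod_eq_single (⟨u.1, hmQ⟩ : ↥Q)]
            · simp only [hε0, if_true]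
            · intro q _ hq
              have : (q:ℕ) ≠ u.1 := fun h => hq (Subtype.ext h)
              simp only [hε0, if_neg this, gm, if_true]
            · intro h; exact absurd (Finset.mem_univ _) h
          rw [hge]
          unfold gm cf
          have hne0 : -sb u.2 ≠ 0 := by rcases hsb with h | h <;> rw [h] <;> norm_num
          rw [if_neg hne0]
          have hexp : Complex.exp (((-(((-sb u.2 : ℤ)) : ℝ) * φ : ℝ) : ℂ) * Complex.I) *
              Complex.exp (((-(sb u.2 : ℝ) * φ : ℝ) : ℂ) * Complex.I) = 1 := by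
            rw [← Complex.exp_add, ← Complex.exp_zero]
            congr 1
            push_cast; ring
          calc ((σ / 2 : ℝ) : ℂ) * Complex.exp (((-(((-sb u.2 : ℤ)) : ℝ) * φ : ℝ) : ℂ) * Complex.I) *
              (((af u.1 / 2 : ℝ) : ℂ) * Complex.exp (((-(sb u.2 : ℝ) * φ : ℝ) : ℂ) * Complex.I))
              = ((σ / 2 : ℝ) : ℂ) * ((af u.1 / 2 : ℝ) : ℂ) * (Complex.exp (((-(((-sb u.2 : ℤ)) : ℝ) * φ : ℝ) : ℂ) * Complex.I) *
              Complex.exp (((-(sb u.2 : ℝ) * φ : ℝ) : ℂ) * Complex.I)) := by ring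
            _ = _ := by rw [hexp]; push_cast; ring
        · intro ε hε hne
          rw [if_neg]
          intro h0
          obtain ⟨hm', h1, h2⟩ := fe_one hQ hε hu.1.1 hsb h0
          apply hne
          funext q
          by_cases hq : (q:ℕ) = u.1
          · have : q = ⟨u.1, hm'⟩ := Subtype.ext hq
            rw [this, h1]
            simp only [hε0, if_true]
          · rw [h2 q hq]
            simp only [hε0, if_neg hq]
        · intro h; exact absurd hmem h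
      · apply Finset.sum_eq_zero
        intro ε hε
        rw [if_neg]
        intro h0
        obtain ⟨hm', -⟩ := fe_one hQ hε hu.1.1 hsb h0
        exact hmQ hm'
    rw [Finset.sum_congr rfl hin]
    unfold JS
    rw [Finset.sum_product]
    simp only [Finset.sum_const, Finset.card_univ, Fintype.card_bool, nsmul_eq_mul]
    have hsub : Q ⊆ Finset.Icc 1 (M ^ 2) := fun q hq => Finset.mem_Icc.2 ⟨Nat.one_le_iff_ne_zero.2 (hQ q hq).ne_zero, hQM q hq⟩
    calc ∑ x ∈ Finset.Icc 1 (M ^ 2), ((2:ℕ):ℂ) * (if x ∈ Q then ((σ / 4 * af x : ℝ) : ℂ) else 0)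
        = ∑ x ∈ Finset.Icc 1 (M ^ 2), (if x ∈ Q then ((2:ℕ):ℂ) * ((σ / 4 * af x : ℝ) : ℂ) else 0) := by
          apply Finset.sum_congr rfl; intro x _; split_ifs <;> simp
      _ = ∑ x ∈ (Finset.Icc 1 (M ^ 2)).filter (fun x => x ∈ Q), ((2:ℕ):ℂ) * ((σ / 4 * af x : ℝ) : ℂ) := by
          rw [Finset.sum_filter]
      _ = ∑ x ∈ Q, ((2:ℕ):ℂ) * ((σ / 4 * af x : ℝ) : ℂ) := by
          rw [Finset.filter_mem_eq_inter, Finset.inter_eq_right.2 hsub]
      _ = _ := by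
          push_cast
          rw [Finset.mul_sum]
          apply Finset.sum_congr rfl
          intro x _
          ring

lemma TP.mono {G : ℝ → ℝ} {z W W' τ τ' Θ Θ' : ℝ} (h : TP G z W τ Θ) (hW : W ≤ W') (hτ : τ' ≤ τ) (hΘ : Θ ≤ Θ') :
    TP G z W' τ' Θ' := by
  obtain ⟨ι, s, cc, f, h1, h2, h3, h4, h5⟩ := h
  exact ⟨ι, s, cc, f, h1, h2.trans hW, fun i hi hne => hτ.trans (h3 i hi hne), fun i hi => (h4 i hi).trans hΘ, h5⟩

lemma ta_anti {K K' : ℕ} (M : ℕ) (h : K ≤ K') : ta K' M ≤ ta K M := by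
  unfold ta
  apply inv_anti₀ (by positivity)
  have h1 : (K + 1) * M + 1 ≤ (K' + 1) * M + 1 := by
    have : (K + 1) * M ≤ (K' + 1) * M := Nat.mul_le_mul_right _ (by omega)
    omega
  have h2 : 2 ^ (K + 1) ≤ 2 ^ (K' + 1) := Nat.pow_le_pow_right (by norm_num) (by omega)
  have h3 : ((K + 1) * M + 1) ^ (2 ^ (K + 1)) ≤ ((K' + 1) * M + 1) ^ (2 ^ (K' + 1)) :=
    (Nat.pow_le_pow_left h1 _).trans (Nat.pow_le_pow_right (by omega) h2)
  exact_mod_cast h3

end Pool.Agent.W2helper40.MX
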