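import Mathlib
import Pool.Agent.W2helper40.MX.Riesz

/-!
# Second moments of sums of trigonometric polynomials along separated points
-/

set_option autoImplicit false

open MeasureTheory Filter Topology Set Real
open Pool.Agent.H469R2.NK (e norm_e e_add conj_e e_zero)
open Pool.Agent.R306.GP (pt pt_cont e_continuous)

namespace Pool.Agent.W2helper40.MX

variable {a b : ℕ → ℝ} {c d θ κ : ℝ}

lemma abs_ofReal (x : ℝ) : |x| = ‖((x : ℝ) : ℂ)‖ := by rw [Complex.norm_real, Real.norm_eq_abs]

/-- two factors -/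
lemma Lac.two (h : Lac a b c θ κ) (hcd : c ≤ d) {G H : ℝ → ℝ} {z z' W W' τ Θ : ℝ} (hτ : 0 < τ)
    (hG : TP G z W τ Θ) (hH : TP H z' W' τ Θ) {m n : ℕ} (hmn : m ≤ n)
    (hgap : ∀ y ∈ Icc c d, 4 * Θ * pt a b m y ≤ τ * pt a b n y) :
    |(∫ y in c..d, G (pt a b n y) * H (pt a b m y)) - (d - c) * (z * z')| ≤
      W * W' * ((3 + 3 * (d - c)) / (τ * pt a b m c)) := by
  obtain ⟨ι, s, cc, f, h1, h2, h3, h4, h5⟩ := hG
  obtain ⟨ι', s', cc', f', h1', h2', h3', h4', h5'⟩ := hH
  have hpm := h.ppos m c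
  have hpn := h.ppos n c
  have hpmn : pt a b m c ≤ pt a b n c := h.pmono hmn le_rfl
  have hdc : 0 ≤ d - c := by linarith
  set D := (3 + 3 * (d - c)) / (τ * pt a b m c) with hD
  have hD0 : 0 ≤ D := by positivity
  have hDn : (3 + 3 * (d - c)) / (τ * pt a b n c) ≤ D := by
    apply div_le_div_of_nonneg_left (by positivity) (by positivity)
    exact mul_le_mul_of_nonneg_left hpmn hτ.le
  have hexp : ∀ y, ((G (pt a b n y) * H (pt a b m y) : ℝ) : ℂ) = ∑ p ∈ s ×ˢ s', (cc p.1 * cc' p.2) *
      e (pt a b n y * f p.1 + pt a b m y * f' p.2) := by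
    intro y
    rw [Complex.ofReal_mul, h1, h1', Finset.sum_mul_sum, Finset.sum_product]
    apply Finset.sum_congr rfl; intro i _
    apply Finset.sum_congr rfl; intro j _
    rw [e_add]; ring
  have hI : ((∫ y in c..d, G (pt a b n y) * H (pt a b m y) : ℝ) : ℂ) =
      ∑ p ∈ s ×ˢ s', (cc p.1 * cc' p.2) * ∫ y in c..d, e (pt a b n y * f p.1 + pt a b m y * f' p.2) := by
    rw [← intervalIntegral.integral_ofReal]
    simp only [hexp]
    rw [intervalIntegral.integral_finsetSum]
    · simp only [intervalIntegral.integral_const_mul]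
    · intro p _
      exact (continuous_const.mul (e_continuous.comp (((pt_cont a b n).mul continuous_const).add
        ((pt_cont a b m).mul continuous_const)))).intervalIntegrable _ _
  have hz : (((d - c) * (z * z') : ℝ) : ℂ) = ∑ p ∈ s ×ˢ s', (cc p.1 * cc' p.2) *
      (if f p.1 = 0 ∧ f' p.2 = 0 then ((d - c : ℝ) : ℂ) else 0) := by
    rw [Complex.ofReal_mul, Complex.ofReal_mul, ← h5, ← h5', Finset.sum_mul_sum, Finset.mul_sum, Finset.sum_product]
    apply Finset.sum_congr rfl; intro i _
    rw [Finset.mul_sum]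
    apply Finset.sum_congr rfl; intro j _
    by_cases hi : f i = 0 <;> by_cases hj : f' j = 0 <;> simp [hi, hj]
    ring
  have hpt : ∀ p ∈ s ×ˢ s', ‖(∫ y in c..d, e (pt a b n y * f p.1 + pt a b m y * f' p.2)) -
      (if f p.1 = 0 ∧ f' p.2 = 0 then ((d - c : ℝ) : ℂ) else 0)‖ ≤ D := by
    intro p hp
    rw [Finset.mem_product] at hp
    by_cases hi : f p.1 = 0
    · by_cases hj : f' p.2 = 0
      · rw [if_pos ⟨hi, hj⟩]
        simp only [hi, hj, mul_zero, add_zero, e_zero]
        rw [intervalIntegral.integral_const]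
        simp
        exact hD0
      · rw [if_neg (fun hh => hj hh.2), sub_zero]
        simp only [hi, mul_zero, zero_add]
        exact h.osc1 hcd hτ (h3' _ hp.2 hj) m
    · rw [if_neg (fun hh => hi hh.1), sub_zero]
      exact (h.osc2 hcd hτ (h3 _ hp.1 hi) (h4' _ hp.2) hmn hgap).trans hDn
  rw [abs_ofReal, Complex.ofReal_sub, hI, hz, ← Finset.sum_sub_distrib]
  refine (norm_sum_le _ _).trans ?_
  calc ∑ p ∈ s ×ˢ s', ‖(cc p.1 * cc' p.2) * (∫ y in c..d, e (pt a b n y * f p.1 + pt a b m y * f' p.2)) -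
        (cc p.1 * cc' p.2) * (if f p.1 = 0 ∧ f' p.2 = 0 then ((d - c : ℝ) : ℂ) else 0)‖
      ≤ ∑ p ∈ s ×ˢ s', (‖cc p.1‖ * ‖cc' p.2‖) * D := by
        apply Finset.sum_le_sum
        intro p hp
        rw [← mul_sub, norm_mul, norm_mul]
        exact mul_le_mul_of_nonneg_left (hpt p hp) (by positivity)
    _ = (∑ i ∈ s, ‖cc i‖) * (∑ j ∈ s', ‖cc' j‖) * D := by
        rw [← Finset.sum_mul, Finset.sum_mul_sum, Finset.sum_product]
    _ ≤ W * W' * D := by
        apply mul_le_mul_of_nonneg_right _ hD0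
        have k1 : 0 ≤ ∑ j ∈ s', ‖cc' j‖ := Finset.sum_nonneg fun _ _ => norm_nonneg _
        have k2 : 0 ≤ ∑ j ∈ s, ‖cc j‖ := Finset.sum_nonneg fun _ _ => norm_nonneg _
        exact mul_le_mul h2 h2' k1 (k2.trans h2)

/-- one factor -/
lemma Lac.single (h : Lac a b c θ κ) (hcd : c ≤ d) {H : ℝ → ℝ} {z' W' τ Θ : ℝ} (hτ : 0 < τ)
    (hH : TP H z' W' τ Θ) (m : ℕ) :
    |(∫ y in c..d, H (pt a b m y)) - (d - c) * z'| ≤ W' * ((3 + 3 * (d - c)) / (τ * pt a b m c)) := by
  obtain ⟨ι', s', cc', f', h1', h2', h3', h4', h5'⟩ := hH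
  have hpm := h.ppos m c
  have hdc : 0 ≤ d - c := by linarith
  set D := (3 + 3 * (d - c)) / (τ * pt a b m c) with hD
  have hD0 : 0 ≤ D := by positivity
  have hI : ((∫ y in c..d, H (pt a b m y) : ℝ) : ℂ) =
      ∑ p ∈ s', cc' p * ∫ y in c..d, e (pt a b m y * f' p) := by
    rw [← intervalIntegral.integral_ofReal]
    simp only [h1']
    rw [intervalIntegral.integral_finsetSum]
    · simp only [intervalIntegral.integral_const_mul]
    · intro p _
      exact (continuous_const.mul (e_continuous.comp ((pt_cont a b m).mul continuous_const))).intervalIntegrable _ _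
  have hz : (((d - c) * z' : ℝ) : ℂ) = ∑ p ∈ s', cc' p * (if f' p = 0 then ((d - c : ℝ) : ℂ) else 0) := by
    rw [Complex.ofReal_mul, ← h5', Finset.mul_sum]
    apply Finset.sum_congr rfl; intro j _
    by_cases hj : f' j = 0 <;> simp [hj]
    ring
  have hpt : ∀ p ∈ s', ‖(∫ y in c..d, e (pt a b m y * f' p)) -
      (if f' p = 0 then ((d - c : ℝ) : ℂ) else 0)‖ ≤ D := by
    intro p hp
    by_cases hj : f' p = 0
    · rw [if_pos hj]
      simp only [hj, mul_zero, e_zero]
      rw [intervalIntegral.integral_const]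
      simp
      exact hD0
    · rw [if_neg hj, sub_zero]
      exact h.osc1 hcd hτ (h3' _ hp hj) m
  rw [abs_ofReal, Complex.ofReal_sub, hI, hz, ← Finset.sum_sub_distrib]
  refine (norm_sum_le _ _).trans ?_
  calc ∑ p ∈ s', ‖cc' p * (∫ y in c..d, e (pt a b m y * f' p)) -
        cc' p * (if f' p = 0 then ((d - c : ℝ) : ℂ) else 0)‖
      ≤ ∑ p ∈ s', ‖cc' p‖ * D := by
        apply Finset.sum_le_sum
        intro p hp
        rw [← mul_sub, norm_mul]
        exact mul_le_mul_of_nonneg_left (hpt p hp) (norm_nonneg _)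
    _ = (∑ j ∈ s', ‖cc' j‖) * D := by rw [← Finset.sum_mul]
    _ ≤ W' * D := mul_le_mul_of_nonneg_right h2' hD0

/-- the second moment of a sum -/
lemma Lac.var (h : Lac a b c θ κ) (hcd : c ≤ d) {G : ℝ → ℝ} {z W τ Θ p0 : ℝ} (hτ : 0 < τ) (hp0 : 0 < p0)
    (hG : TP G z W τ Θ) (J : ℕ) (nn : ℕ → ℕ) (hnn : ∀ j j', j ≤ j' → nn j ≤ nn j')
    (hgap : ∀ j' j, j' < j → j < J → ∀ y ∈ Icc c d, 4 * Θ * pt a b (nn j') y ≤ τ * pt a b (nn j) y)
    (hp : ∀ j < J, p0 ≤ pt a b (nn j) c) (hW : 1 ≤ W) :
    ∫ y in c..d, (∑ j ∈ Finset.range J, (G (pt a b (nn j) y) - z)) ^ 2 ≤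
      4 * J * W ^ 2 * (d - c) + 3 * (J:ℝ) ^ 2 * W ^ 2 * ((3 + 3 * (d - c)) / (τ * p0)) := by
  have hdc : 0 ≤ d - c := by linarith
  set D := (3 + 3 * (d - c)) / (τ * p0) with hD
  have hD0 : 0 ≤ D := by positivity
  have hzW : |z| ≤ W := hG.z_le
  have hz2 : z * z ≤ W ^ 2 := by
    rw [← sq, ← sq_abs]
    exact pow_le_pow_left₀ (abs_nonneg _) hzW 2
  have hGc : ∀ n, Continuous fun y => G (pt a b n y) := fun n => hG.cont.comp (pt_cont a b n)
  have hDj : ∀ j < J, (3 + 3 * (d - c)) / (τ * pt a b (nn j) c) ≤ D := by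
    intro j hj
    apply div_le_div_of_nonneg_left (by positivity) (by positivity)
    exact mul_le_mul_of_nonneg_left (hp j hj) hτ.le
  -- off diagonal, ordered
  have hoff : ∀ i j, i < J → j < J → j < i →
      ∫ y in c..d, (G (pt a b (nn i) y) - z) * (G (pt a b (nn j) y) - z) ≤ 3 * W ^ 2 * D := by
    intro i j hi hj hji
    have e1 : ∫ y in c..d, (G (pt a b (nn i) y) - z) * (G (pt a b (nn j) y) - z) =
        ((∫ y in c..d, G (pt a b (nn i) y) * G (pt a b (nn j) y)) - (d - c) * (z * z)) -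
          z * ((∫ y in c..d, G (pt a b (nn i) y)) - (d - c) * z) - z * ((∫ y in c..d, G (pt a b (nn j) y)) - (d - c) * z) := by
      have e2 : ∀ y, (G (pt a b (nn i) y) - z) * (G (pt a b (nn j) y) - z) =
          G (pt a b (nn i) y) * G (pt a b (nn j) y) - z * G (pt a b (nn i) y) - z * G (pt a b (nn j) y) + z * z := by
        intro y; ring
      simp only [e2]
      have i1 : IntervalIntegrable (fun y => G (pt a b (nn i) y) * G (pt a b (nn j) y)) volume c d :=
        ((hGc _).mul (hGc _)).intervalIntegrable _ _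
      have i2 : IntervalIntegrable (fun y => z * G (pt a b (nn i) y)) volume c d :=
        (continuous_const.mul (hGc _)).intervalIntegrable _ _
      have i3 : IntervalIntegrable (fun y => z * G (pt a b (nn j) y)) volume c d :=
        (continuous_const.mul (hGc _)).intervalIntegrable _ _
      rw [intervalIntegral.integral_add ((i1.sub i2).sub i3) intervalIntegrable_const,
        intervalIntegral.integral_sub (i1.sub i2) i3, intervalIntegral.integral_sub i1 i2,
        intervalIntegral.integral_const_mul, intervalIntegral.integral_const_mul,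
        intervalIntegral.integral_const, smul_eq_mul]
      ring
    rw [e1]
    have k1 := h.two hcd hτ hG hG (hnn j i hji.le) (hgap j i hji hi)
    have k2 := h.single hcd hτ hG (nn i)
    have k3 := h.single hcd hτ hG (nn j)
    have hDi := hDj i hi
    have hDj' := hDj j hj
    have l1 := (abs_le.1 k1).2
    have hW0 : 0 ≤ W := by linarith
    have l2 : |z * ((∫ y in c..d, G (pt a b (nn i) y)) - (d - c) * z)| ≤ W * (W * D) := by
      rw [abs_mul]
      exact mul_le_mul hzW (k2.trans (mul_le_mul_of_nonneg_left hDi hW0)) (abs_nonneg _) hW0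
    have l3 : |z * ((∫ y in c..d, G (pt a b (nn j) y)) - (d - c) * z)| ≤ W * (W * D) := by
      rw [abs_mul]
      exact mul_le_mul hzW (k3.trans (mul_le_mul_of_nonneg_left hDj' hW0)) (abs_nonneg _) hW0
    have l4 := mul_le_mul_of_nonneg_left hDj' (mul_nonneg hW0 hW0)
    have l5 := (abs_le.1 l2).1
    have l6 := (abs_le.1 l3).1
    nlinarith
  -- the diagonal
  have hdiag : ∀ i, ∫ y in c..d, (G (pt a b (nn i) y) - z) * (G (pt a b (nn i) y) - z) ≤ 4 * W ^ 2 * (d - c) := by
    intro i
    calc ∫ y in c..d, (G (pt a b (nn i) y) - z) * (G (pt a b (nn i) y) - z)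
        ≤ ∫ _y in c..d, 4 * W ^ 2 := by
          apply intervalIntegral.integral_mono_on hcd
          · exact (((hGc _).sub continuous_const).mul ((hGc _).sub continuous_const)).intervalIntegrable _ _
          · exact intervalIntegrable_const
          · intro y _
            have k1 := abs_le.1 (hG.abs_le (pt a b (nn i) y))
            have k2 := abs_le.1 hzW
            have k3 : |G (pt a b (nn i) y) - z| ≤ 2 * W := abs_le.2 ⟨by linarith, by linarith⟩
            calc (G (pt a b (nn i) y) - z) * (G (pt a b (nn i) y) - z) = |G (pt a b (nn i) y) - z| ^ 2 := by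
                  rw [sq_abs]; ring
              _ ≤ (2 * W) ^ 2 := pow_le_pow_left₀ (abs_nonneg _) k3 2
              _ = _ := by ring
      _ = _ := by rw [intervalIntegral.integral_const, smul_eq_mul]; ring
  have hall : ∀ i ∈ Finset.range J, ∀ j ∈ Finset.range J,
      ∫ y in c..d, (G (pt a b (nn i) y) - z) * (G (pt a b (nn j) y) - z) ≤
        (if i = j then 4 * W ^ 2 * (d - c) else 0) + 3 * W ^ 2 * D := by
    intro i hi j hj
    rw [Finset.mem_range] at hi hj
    rcases lt_trichotomy i j with hij | hij | hij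
    · rw [if_neg hij.ne, zero_add]
      refine le_trans (le_of_eq ?_) (hoff j i hj hi hij)
      congr 1
      funext y
      ring
    · subst hij
      rw [if_pos rfl]
      have := hdiag i
      have h0 : 0 ≤ 3 * W ^ 2 * D := by positivity
      linarith
    · rw [if_neg hij.ne', zero_add]
      exact hoff i j hi hj hij
  have e0 : ∫ y in c..d, (∑ j ∈ Finset.range J, (G (pt a b (nn j) y) - z)) ^ 2 =
      ∑ i ∈ Finset.range J, ∑ j ∈ Finset.range J,
        ∫ y in c..d, (G (pt a b (nn i) y) - z) * (G (pt a b (nn j) y) - z) := by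
    have e1 : ∀ y, (∑ j ∈ Finset.range J, (G (pt a b (nn j) y) - z)) ^ 2 =
        ∑ i ∈ Finset.range J, ∑ j ∈ Finset.range J, (G (pt a b (nn i) y) - z) * (G (pt a b (nn j) y) - z) := by
      intro y
      rw [sq, Finset.sum_mul_sum]
    simp only [e1]
    rw [intervalIntegral.integral_finsetSum]
    · apply Finset.sum_congr rfl
      intro i _
      rw [intervalIntegral.integral_finsetSum]
      intro j _
      exact (((hGc _).sub continuous_const).mul ((hGc _).sub continuous_const)).intervalIntegrable _ _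
    · intro i _
      exact (continuous_finsetSum _ fun j _ => ((hGc _).sub continuous_const).mul
        ((hGc _).sub continuous_const)).intervalIntegrable _ _
  rw [e0]
  calc ∑ i ∈ Finset.range J, ∑ j ∈ Finset.range J,
        ∫ y in c..d, (G (pt a b (nn i) y) - z) * (G (pt a b (nn j) y) - z)
      ≤ ∑ i ∈ Finset.range J, ∑ j ∈ Finset.range J, ((if i = j then 4 * W ^ 2 * (d - c) else 0) + 3 * W ^ 2 * D) :=
        Finset.sum_le_sum fun i hi => Finset.sum_le_sum fun j hj => hall i hi j hj
    _ = ∑ i ∈ Finset.range J, (4 * W ^ 2 * (d - c) + J * (3 * W ^ 2 * D)) := by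
        apply Finset.sum_congr rfl
        intro i hi
        rw [Finset.sum_add_distrib, Finset.sum_ite_eq, if_pos hi, Finset.sum_const, Finset.card_range, nsmul_eq_mul]
    _ = _ := by
        rw [Finset.sum_const, Finset.card_range, nsmul_eq_mul]
        ring

end Pool.Agent.W2helper40.MX
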