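import Mathlib
import Pool.Agent.W2helper40.MX.Var
import Pool.Agent.W2helper40.MX.Up

/-!
# The lower bound for the records
-/

set_option autoImplicit false

open MeasureTheory Filter Topology Set Real
open scoped ENNReal
open Pool.Agent.H469R2.NK (e norm_e e_add conj_e e_zero)
open Pool.Agent.H383.Gen (U Bd)
open Pool.Agent.Y969.TM
open Pool.Agent.R306.GP (pt AA AA_nonneg AA_le pt_cont e_continuous Ctx ae_zero ae_zero' Upt_cont pt_meas)

namespace Pool.Agent.W2helper40.MX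

variable {a b : ℕ → ℝ} {c d θ κ : ℝ}

/-! ## Parameters -/

/-- number of points -/
def Jf (r i : ℕ) : ℕ := 2 ^ (2000 * (i / r))
/-- spacing -/
def Lf (r i : ℕ) : ℕ := 2 ^ (i - 2000 * (i / r))
/-- length of the model -/
def Mf (r i : ℕ) : ℕ := 2 ^ (400 * (i / r))
/-- the points -/
def nf (r i j : ℕ) : ℕ := 2 ^ i + j * Lf r i
/-- the basic large quantity -/
noncomputable def xx (κ : ℝ) (i : ℕ) : ℝ := (2:ℝ) ^ ((i:ℝ) * ((1 - κ) / 4))

lemma KI_le {r : ℕ} (hr : 2000 ≤ r) (i : ℕ) : 2000 * (i / r) ≤ i :=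
  (Nat.mul_le_mul_right _ hr).trans (Nat.mul_div_le i r)

lemma JL {r : ℕ} (hr : 2000 ≤ r) (i : ℕ) : Jf r i * Lf r i = 2 ^ i := by
  unfold Jf Lf
  rw [← pow_add]
  congr 1
  have := KI_le hr i
  omega

lemma nf_lt {r : ℕ} (hr : 2000 ≤ r) {i j : ℕ} (hj : j < Jf r i) : nf r i j < 2 ^ (i + 1) := by
  unfold nf
  have h1 := JL hr i
  have h2 : (j + 1) * Lf r i ≤ Jf r i * Lf r i := Nat.mul_le_mul_right _ hj
  have h3 : 0 < Lf r i := by unfold Lf; positivity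
  rw [pow_succ]
  rw [h1] at h2
  have h4 : (j + 1) * Lf r i = j * Lf r i + Lf r i := by ring
  omega

lemma nf_mono {r i : ℕ} {j j' : ℕ} (h : j ≤ j') : nf r i j ≤ nf r i j' := by
  unfold nf
  exact Nat.add_le_add_left (Nat.mul_le_mul_right _ h) _

lemma xx_one {κ : ℝ} (hk : κ < 1) (i : ℕ) : 1 ≤ xx κ i := by
  unfold xx
  apply Real.one_le_rpow (by norm_num)
  have : 0 < 1 - κ := by linarith
  positivity

lemma xx_tendsto {κ : ℝ} (hk : κ < 1) : Tendsto (xx κ) atTop atTop := by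
  unfold xx
  have h1 : Tendsto (fun t : ℝ => (2:ℝ) ^ t) atTop atTop := tendsto_rpow_atTop_of_base_gt_one 2 (by norm_num)
  refine h1.comp ?_
  exact tendsto_natCast_atTop_atTop.atTop_mul_const (by linarith)

lemma KI_real {r : ℕ} (i : ℕ) : (((i / r : ℕ)) : ℝ) ≤ (i:ℝ) / r := Nat.cast_div_le

lemma four_le {κ : ℝ} (hk : κ < 1) {r : ℕ} (hr : 8 / (1 - κ) ≤ r) (i : ℕ) : (4:ℝ) ^ (i / r) ≤ xx κ i := by
  have hδ : 0 < 1 - κ := by linarith
  have hr0 : (0:ℝ) < r := lt_of_lt_of_le (by positivity) hr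
  have h1 : (4:ℝ) ^ (i / r) = (2:ℝ) ^ (2 * ((i / r : ℕ) : ℝ)) := by
    rw [show (4:ℝ) = 2 ^ (2:ℝ) by norm_num, ← Real.rpow_natCast, ← Real.rpow_mul (by norm_num)]
  rw [h1]
  unfold xx
  apply Real.rpow_le_rpow_of_exponent_le (by norm_num)
  have h2 : (((i / r : ℕ)) : ℝ) ≤ (i:ℝ) / r := Nat.cast_div_le
  have h3 : (i:ℝ) / r ≤ i * ((1 - κ) / 8) := by
    rw [div_le_iff₀ hδ] at hr
    rw [div_le_iff₀ hr0]
    have hi : (0:ℝ) ≤ i := Nat.cast_nonneg i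
    nlinarith
  linarith

lemma Lf_low {κ : ℝ} (hk : κ < 1) {r : ℕ} (hr2 : 2000 ≤ r) (hr : 2000 * (8 / (1 - κ)) ≤ r) (i : ℕ) :
    xx κ i ^ 2 / 2 ≤ (Lf r i : ℝ) * (((2 * 2 ^ i : ℕ) : ℝ)) ^ (-κ) := by
  have hδ : 0 < 1 - κ := by linarith
  have hr0 : (0:ℝ) < r := lt_of_lt_of_le (by positivity) hr
  have hi : (0:ℝ) ≤ i := Nat.cast_nonneg i
  have h1 : (Lf r i : ℝ) = (2:ℝ) ^ ((i:ℝ) - 2000 * ((i / r : ℕ) : ℝ)) := by
    unfold Lf
    push_cast
    rw [← Real.rpow_natCast, Nat.cast_sub (KI_le hr2 i)]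
    push_cast
    rfl
  have h2 : (((2 * 2 ^ i : ℕ) : ℝ)) ^ (-κ) = (2:ℝ) ^ (((i:ℝ) + 1) * (-κ)) := by
    rw [Real.rpow_mul (by norm_num)]
    congr 1
    push_cast
    rw [Real.rpow_add (by norm_num), Real.rpow_natCast, Real.rpow_one]
    ring
  have h3 : xx κ i ^ 2 / 2 = (2:ℝ) ^ ((i:ℝ) * ((1 - κ) / 2) - 1) := by
    unfold xx
    rw [← Real.rpow_natCast, ← Real.rpow_mul (by norm_num), Real.rpow_sub (by norm_num), Real.rpow_one]
    congr 2
    push_cast; ring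
  rw [h1, h2, h3, ← Real.rpow_add (by norm_num)]
  apply Real.rpow_le_rpow_of_exponent_le (by norm_num)
  have h4 : (((i / r : ℕ)) : ℝ) ≤ (i:ℝ) / r := Nat.cast_div_le
  have h5 : 2000 * ((i:ℝ) / r) ≤ i * ((1 - κ) / 8) := by
    rw [← mul_div_assoc, div_le_iff₀ hr0]
    have h6 : 2000 * 8 ≤ (1 - κ) * r := by
      have := mul_le_mul_of_nonneg_left hr hδ.le
      calc (2000:ℝ) * 8 = (1 - κ) * (2000 * (8 / (1 - κ))) := by field_simp
        _ ≤ _ := this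
    nlinarith
  nlinarith

lemma two_exp (N : ℕ) : (2:ℝ) ^ N ≤ exp N := by
  have h1 : (2:ℝ) ≤ exp 1 := by
    have := Real.exp_one_gt_d9
    linarith
  calc (2:ℝ) ^ N ≤ (exp 1) ^ N := pow_le_pow_left₀ (by norm_num) h1 N
    _ = exp N := by rw [← Real.exp_nat_mul, mul_one]

lemma base_le (K : ℕ) : (K + 1) * 2 ^ (400 * K) + 1 ≤ 2 ^ (401 * K + 1) := by
  have h1 : K + 1 ≤ 2 ^ K := Nat.lt_two_pow_self (n := K)
  have h2 : (K + 1) * 2 ^ (400 * K) ≤ 2 ^ K * 2 ^ (400 * K) := Nat.mul_le_mul_right _ h1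
  have h3 : 2 ^ K * 2 ^ (400 * K) = 2 ^ (401 * K) := by rw [← pow_add]; congr 1; ring
  have h4 : 1 ≤ 2 ^ (401 * K) := Nat.one_le_two_pow
  rw [pow_succ]
  omega

lemma expo_le (K : ℕ) : (401 * K + 1) * 2 ^ (K + 1) ≤ 804 * 4 ^ K := by
  have h1 : K + 1 ≤ 2 ^ K := Nat.lt_two_pow_self (n := K)
  have h2 : (4:ℕ) ^ K = 2 ^ K * 2 ^ K := by rw [← mul_pow]; norm_num
  have h3 : (2:ℕ) ^ (K + 1) = 2 * 2 ^ K := by rw [pow_succ]; ring
  rw [h2, h3]
  have h4 : 401 * K + 1 ≤ 401 * 2 ^ K := by omega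
  calc (401 * K + 1) * (2 * 2 ^ K) ≤ (401 * 2 ^ K) * (2 * 2 ^ K) := Nat.mul_le_mul_right _ h4
    _ = 802 * (2 ^ K * 2 ^ K) := by ring
    _ ≤ _ := Nat.mul_le_mul_right _ (by norm_num)

lemma ta_inv_le (K : ℕ) : (ta K (2 ^ (400 * K)))⁻¹ ≤ (2:ℝ) ^ (804 * 4 ^ K) := by
  unfold ta
  rw [inv_inv]
  have h1 : ((K + 1) * 2 ^ (400 * K) + 1) ^ (2 ^ (K + 1)) ≤ 2 ^ (804 * 4 ^ K) := by
    calc ((K + 1) * 2 ^ (400 * K) + 1) ^ (2 ^ (K + 1)) ≤ (2 ^ (401 * K + 1)) ^ (2 ^ (K + 1)) :=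
          Nat.pow_le_pow_left (base_le K) _
      _ = 2 ^ ((401 * K + 1) * 2 ^ (K + 1)) := by rw [← pow_mul]
      _ ≤ _ := Nat.pow_le_pow_right (by norm_num) (expo_le K)
  exact_mod_cast h1

lemma k_le_four (K : ℕ) : K + 1 ≤ 4 ^ K := by
  have h1 : K + 1 ≤ 2 ^ K := Nat.lt_two_pow_self (n := K)
  exact h1.trans (Nat.pow_le_pow_left (by norm_num) K)

/-- a power of two with exponent linear in `K` -/
lemma lin_exp {κ : ℝ} (hk : κ < 1) {r : ℕ} (hr : 8 / (1 - κ) ≤ r) (i A : ℕ) {N : ℕ} (hN : N ≤ A * 4 ^ (i / r)) :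
    (2:ℝ) ^ N ≤ exp (A * xx κ i) := by
  refine (two_exp N).trans (Real.exp_le_exp.2 ?_)
  have h1 : (N:ℝ) ≤ A * (4:ℝ) ^ (i / r) := by exact_mod_cast hN
  exact h1.trans (mul_le_mul_of_nonneg_left (four_le hk hr i) (Nat.cast_nonneg A))

lemma Lac.bigI (h : Lac a b c θ κ) {C1 C2 : ℝ} (h1 : 0 ≤ C1) (h2 : 0 ≤ C2) : ∀ᶠ i : ℕ in atTop,
    C2 * exp (C1 * xx κ i) ≤ pt a b (2 ^ i) c := by
  have ht : Tendsto (fun i : ℕ => 2 ^ i) atTop atTop := tendsto_pow_atTop_atTop_of_one_lt (by norm_num)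
  filter_upwards [ht.eventually (h.big C1 C2)] with i hi
  refine le_trans ?_ hi
  apply mul_le_mul_of_nonneg_left _ h2
  apply Real.exp_le_exp.2
  apply mul_le_mul_of_nonneg_left _ h1
  have hδ : 0 < 1 - κ := by linarith [h.k1]
  have h3 := xx_one h.k1 i
  have h4 : xx κ i ^ 2 = ((2:ℝ) ^ i) ^ ((1 - κ) / 2) := by
    unfold xx
    rw [← Real.rpow_natCast, ← Real.rpow_natCast, ← Real.rpow_mul (by norm_num), ← Real.rpow_mul (by norm_num)]
    congr 1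
    push_cast; ring
  calc xx κ i ≤ xx κ i ^ 2 := by nlinarith
    _ = ((2:ℝ) ^ i) ^ ((1 - κ) / 2) := h4
    _ ≤ _ := by
        apply Real.rpow_le_rpow (by positivity) _ (by linarith)
        push_cast
        linarith

/-- gaps between the points -/
lemma Lac.gapI (h : Lac a b c θ κ) {r : ℕ} (hr2 : 2000 ≤ r) (hr : 2000 * (8 / (1 - κ)) ≤ r) {i : ℕ}
    {j' j : ℕ} (hj' : j' < j) (hj : j < Jf r i) {y : ℝ} (hy : c ≤ y) :
    pt a b (nf r i j') y * exp (θ / 4 * xx κ i ^ 2) ≤ pt a b (nf r i j) y := by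
  have h1 := h.ratio hy (nf r i j') (nf r i j) (nf_mono hj'.le) (2 * 2 ^ i) (by
    have := nf_lt hr2 hj
    rw [pow_succ] at this
    omega) (by
    have : 1 ≤ 2 ^ i := Nat.one_le_two_pow
    omega)
  refine le_trans ?_ h1
  apply mul_le_mul_of_nonneg_left _ (h.ppos _ y).le
  apply Real.exp_le_exp.2
  have h2 := Lf_low h.k1 hr2 hr i
  have h3 : (Lf r i : ℝ) ≤ ((nf r i j : ℕ) : ℝ) - (nf r i j' : ℕ) := by
    unfold nf
    push_cast
    have h4 : (j':ℝ) + 1 ≤ j := by exact_mod_cast hj'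
    have h5 : (0:ℝ) ≤ Lf r i := Nat.cast_nonneg _
    nlinarith
  have h6 : 0 ≤ (((2 * 2 ^ i : ℕ) : ℝ)) ^ (-κ) := by positivity
  have h7 := mul_le_mul_of_nonneg_right h3 h6
  have h8 := h.th0
  calc θ / 4 * xx κ i ^ 2 = θ / 2 * (xx κ i ^ 2 / 2) := by ring
    _ ≤ θ / 2 * ((Lf r i : ℝ) * (((2 * 2 ^ i : ℕ) : ℝ)) ^ (-κ)) := mul_le_mul_of_nonneg_left h2 (by linarith)
    _ ≤ θ / 2 * ((((nf r i j : ℕ) : ℝ) - (nf r i j' : ℕ)) * (((2 * 2 ^ i : ℕ) : ℝ)) ^ (-κ)) :=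
        mul_le_mul_of_nonneg_left h7 (by linarith)
    _ = _ := by ring

lemma Lac.gapJ (h : Lac a b c θ κ) {r : ℕ} (hr2 : 2000 ≤ r) (hr : 2000 * (8 / (1 - κ)) ≤ r) : ∀ᶠ i : ℕ in atTop,
    ∀ j' j : ℕ, j' < j → j < Jf r i → ∀ y ∈ Icc c d,
      4 * ((((i / r : ℕ) : ℝ) + 1) * (Mf r i : ℝ)) * pt a b (nf r i j') y ≤
        ta (i / r) (Mf r i) * pt a b (nf r i j) y := by
  have hδ : 0 < 1 - κ := by linarith [h.k1]
  have hr' : 8 / (1 - κ) ≤ r := by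
    have : 0 < 8 / (1 - κ) := by positivity
    linarith
  have hth := h.th0
  filter_upwards [(xx_tendsto h.k1).eventually_ge_atTop (4828 / θ)] with i hi
  intro j' j hj' hj y hy
  have h1 := h.gapI hr2 hr hj' hj hy.1
  have hta := ta_pos (i / r) (Mf r i)
  have hp := h.ppos (nf r i j') y
  set K := i / r with hK
  have h2 : 4 * ((((K : ℕ) : ℝ) + 1) * (Mf r i : ℝ)) * (ta K (Mf r i))⁻¹ ≤ exp (θ / 4 * xx κ i ^ 2) := by
    have e1 : 4 * (((K : ℝ) + 1) * (Mf r i : ℝ)) ≤ (2:ℝ) ^ (401 * K + 3) := by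
      have := base_le K
      have h3 : 4 * ((K + 1) * 2 ^ (400 * K)) ≤ 2 ^ (401 * K + 3) := by
        have h4 : (2:ℕ) ^ (401 * K + 3) = 4 * 2 ^ (401 * K + 1) := by
          rw [show 401 * K + 3 = (401 * K + 1) + 2 by ring, pow_add]; ring
        omega
      unfold Mf
      rw [← hK]
      exact_mod_cast h3
    have e2 : (ta K (Mf r i))⁻¹ ≤ (2:ℝ) ^ (804 * 4 ^ K) := by
      unfold Mf
      rw [← hK]
      exact ta_inv_le K
    have e3 : (2:ℝ) ^ (401 * K + 3 + 804 * 4 ^ K) ≤ exp ((1207:ℕ) * xx κ i) := by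
      apply lin_exp h.k1 hr'
      rw [← hK]
      have := k_le_four K
      omega
    calc 4 * (((K : ℝ) + 1) * (Mf r i : ℝ)) * (ta K (Mf r i))⁻¹
        ≤ (2:ℝ) ^ (401 * K + 3) * (2:ℝ) ^ (804 * 4 ^ K) :=
          mul_le_mul e1 e2 (inv_nonneg.2 hta.le) (by positivity)
      _ = (2:ℝ) ^ (401 * K + 3 + 804 * 4 ^ K) := by rw [pow_add (2:ℝ) (401 * K + 3)]
      _ ≤ _ := e3
      _ ≤ _ := by
          apply Real.exp_le_exp.2
          have hx := xx_one h.k1 i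
          rw [div_le_iff₀ hth] at hi
          push_cast
          nlinarith
  rw [mul_inv_le_iff₀ hta] at h2
  calc 4 * (((K : ℝ) + 1) * (Mf r i : ℝ)) * pt a b (nf r i j') y
      ≤ (exp (θ / 4 * xx κ i ^ 2) * ta K (Mf r i)) * pt a b (nf r i j') y := mul_le_mul_of_nonneg_right h2 hp.le
    _ = ta K (Mf r i) * (pt a b (nf r i j') y * exp (θ / 4 * xx κ i ^ 2)) := by ring
    _ ≤ _ := mul_le_mul_of_nonneg_left h1 hta.le

/-- the mean square of the normalised sums is small -/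
lemma Lac.msmall (h : Lac a b c θ κ) (hcd : c ≤ d) {r : ℕ} (hr2 : 2000 ≤ r) (hr : 2000 * (8 / (1 - κ)) ≤ r)
    {Cs : ℝ} (hCs : 1 ≤ Cs) : ∀ᶠ i : ℕ in atTop, ∀ (G : ℝ → ℝ) (z : ℝ),
      TP G z (Cs * 2 ^ (801 * (i / r))) (ta (i / r) (Mf r i)) ((((i / r : ℕ) : ℝ) + 1) * (Mf r i : ℝ)) →
      ∫ y in c..d, ((∑ j ∈ Finset.range (Jf r i), (G (pt a b (nf r i j) y) - z)) / (Jf r i : ℝ)) ^ 2 ≤
        (4 * Cs ^ 2 * (d - c) + 1) * (1/2) ^ (i / r) := by
  have hδ : 0 < 1 - κ := by linarith [h.k1]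
  have hdc : 0 ≤ d - c := by linarith
  have hr' : 8 / (1 - κ) ≤ r := by
    have : 0 < 8 / (1 - κ) := by positivity
    linarith
  filter_upwards [h.gapJ (d := d) hr2 hr, h.bigI (C1 := ((2407 : ℕ) : ℝ)) (C2 := 3 * Cs ^ 2 * (3 + 3 * (d - c)))
    (Nat.cast_nonneg _) (by positivity)] with i hi hbig
  intro G z hG
  set K := i / r with hK
  set W : ℝ := Cs * 2 ^ (801 * K) with hW
  have hta := ta_pos K (Mf r i)
  have hp0 := h.ppos (2 ^ i) c
  have hW1 : 1 ≤ W := by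
    rw [hW]
    have : (1:ℝ) ≤ 2 ^ (801 * K) := one_le_pow₀ (by norm_num)
    nlinarith
  have hJ : (0:ℝ) < Jf r i := by unfold Jf; positivity
  have h1 := h.var hcd hta hp0 hG (Jf r i) (nf r i) (fun j j' hjj => nf_mono hjj) hi (by
    intro j _
    apply h.pmono _ le_rfl
    unfold nf
    omega) hW1
  have e1 : ∫ y in c..d, ((∑ j ∈ Finset.range (Jf r i), (G (pt a b (nf r i j) y) - z)) / (Jf r i : ℝ)) ^ 2 =
      (((Jf r i : ℝ)) ^ 2)⁻¹ * ∫ y in c..d, (∑ j ∈ Finset.range (Jf r i), (G (pt a b (nf r i j) y) - z)) ^ 2 := by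
    rw [← intervalIntegral.integral_const_mul]
    congr 1
    funext y
    rw [div_pow]; field_simp
  rw [e1]
  have e2 : (((Jf r i : ℝ)) ^ 2)⁻¹ * (4 * (Jf r i : ℝ) * W ^ 2 * (d - c) + 3 * (Jf r i:ℝ) ^ 2 * W ^ 2 *
      ((3 + 3 * (d - c)) / (ta K (Mf r i) * pt a b (2 ^ i) c))) =
      4 * (d - c) * (W ^ 2 / (Jf r i : ℝ)) + 3 * W ^ 2 * (3 + 3 * (d - c)) * (ta K (Mf r i))⁻¹ / pt a b (2 ^ i) c := by
    field_simp
  refine (mul_le_mul_of_nonneg_left h1 (by positivity)).trans ?_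
  rw [e2]
  have hhalf : (1/2:ℝ) ^ K = ((2:ℝ) ^ K)⁻¹ := by rw [one_div, inv_pow]
  have e3 : W ^ 2 / (Jf r i : ℝ) ≤ Cs ^ 2 * (1/2) ^ K := by
    rw [div_le_iff₀ hJ, hhalf]
    have f1 : W ^ 2 = Cs ^ 2 * 2 ^ (1602 * K) := by
      rw [hW, mul_pow, ← pow_mul]; congr 2; ring
    have f2 : (Jf r i : ℝ) = 2 ^ (2000 * K) := by unfold Jf; push_cast; rfl
    rw [f1, f2, mul_assoc]
    apply mul_le_mul_of_nonneg_left _ (by positivity)
    rw [← div_eq_inv_mul, le_div_iff₀ (by positivity), ← pow_add]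
    exact pow_le_pow_right₀ (by norm_num) (by omega)
  have e4 : 3 * W ^ 2 * (3 + 3 * (d - c)) * (ta K (Mf r i))⁻¹ / pt a b (2 ^ i) c ≤ (1/2) ^ K := by
    rw [div_le_iff₀ hp0, hhalf]
    have f0 : (0:ℝ) < 2 ^ K := by positivity
    rw [← div_eq_inv_mul, le_div_iff₀ f0]
    refine le_trans ?_ hbig
    have f1 : W ^ 2 = Cs ^ 2 * 2 ^ (1602 * K) := by
      rw [hW, mul_pow, ← pow_mul]; congr 2; ring
    have f2 : (ta K (Mf r i))⁻¹ ≤ (2:ℝ) ^ (804 * 4 ^ K) := by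
      unfold Mf
      rw [← hK]
      exact ta_inv_le K
    have f3 : (2:ℝ) ^ (1602 * K + 804 * 4 ^ K + K) ≤ exp ((2407:ℕ) * xx κ i) := by
      apply lin_exp h.k1 hr'
      rw [← hK]
      have := k_le_four K
      omega
    rw [f1]
    calc 3 * (Cs ^ 2 * 2 ^ (1602 * K)) * (3 + 3 * (d - c)) * (ta K (Mf r i))⁻¹ * 2 ^ K
        ≤ 3 * (Cs ^ 2 * 2 ^ (1602 * K)) * (3 + 3 * (d - c)) * (2:ℝ) ^ (804 * 4 ^ K) * 2 ^ K := by
          gcongr
      _ = 3 * Cs ^ 2 * (3 + 3 * (d - c)) * (2:ℝ) ^ (1602 * K + 804 * 4 ^ K + K) := by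
          rw [pow_add (2:ℝ), pow_add (2:ℝ)]; ring
      _ ≤ _ := mul_le_mul_of_nonneg_left f3 (by positivity)
  nlinarith [mul_le_mul_of_nonneg_left e3 (show 0 ≤ 4 * (d - c) by linarith)]

lemma summ_half {r : ℕ} (hr : 0 < r) (C : ℝ) : Summable fun i : ℕ => C * (1/2:ℝ) ^ (i / r) := by
  apply Summable.mul_left
  set ρ : ℝ := (1/2:ℝ) ^ ((r:ℝ)⁻¹) with hρ
  have hr0 : (0:ℝ) < r := by exact_mod_cast hr
  have hρ0 : 0 < ρ := by positivity
  have hρ1 : ρ < 1 := Real.rpow_lt_one (by norm_num) (by norm_num) (by positivity)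
  refine Summable.of_nonneg_of_le (fun i => by positivity) (fun i => ?_) ((summable_geometric_of_lt_one hρ0.le hρ1).mul_left 2)
  have h1 : ρ ^ i = (1/2:ℝ) ^ ((i:ℝ) / r) := by
    rw [hρ, ← Real.rpow_natCast, ← Real.rpow_mul (by norm_num)]
    congr 1
    rw [div_eq_inv_mul]
  rw [h1, ← Real.rpow_natCast]
  have h2 : (i:ℝ) / r ≤ ((i / r : ℕ) : ℝ) + 1 := by
    rw [div_le_iff₀ hr0]
    have h3 := Nat.div_add_mod i r
    have h4 := Nat.mod_lt i hr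
    have h5 : i ≤ (i / r + 1) * r := by
      have : (i / r + 1) * r = r * (i / r) + r := by ring
      omega
    exact_mod_cast h5
  calc (1/2:ℝ) ^ (((i / r : ℕ) : ℝ)) = 2 * (1/2:ℝ) ^ (((i / r : ℕ) : ℝ) + 1) := by
        rw [Real.rpow_add (by norm_num), Real.rpow_one]; ring
    _ ≤ _ := by
        apply mul_le_mul_of_nonneg_left _ (by norm_num)
        exact Real.rpow_le_rpow_of_exponent_ge (by norm_num) (by norm_num) h2

/-- the final extraction -/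
lemma extract {σ μ : ℝ} (hσ : |σ| = 1) (hμ : 4 < μ) {J : ℕ} (hJ : 0 < J) (w u E : ℕ → ℝ) {z W : ℝ} (hz : σ * z = μ)
    (hw0 : ∀ j, 0 ≤ w j) (hwW : ∀ j, w j ≤ W)
    (hA : ((∑ j ∈ Finset.range J, (w j - 1)) / (J:ℝ)) ^ 2 < 1)
    (hB : ((∑ j ∈ Finset.range J, (w j * u j - z)) / (J:ℝ)) ^ 2 < 1)
    (hX : (∑ j ∈ Finset.range J, W * (E j - u j) ^ 2) / (J:ℝ) < 1) :
    ∃ j < J, (μ - 4) / 4 ≤ σ * E j := by
  have hJ0 : (0:ℝ) < J := by exact_mod_cast hJ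
  by_contra hcon
  push Not at hcon
  have hA1 := abs_le.1 (abs_le_of_sq_le_sq' (a := (∑ j ∈ Finset.range J, (w j - 1)) / (J:ℝ)) (b := 1) (by linarith) (by norm_num) |> abs_le.2)
  have hB1 := abs_le.1 (abs_le_of_sq_le_sq' (a := (∑ j ∈ Finset.range J, (w j * u j - z)) / (J:ℝ)) (b := 1) (by linarith) (by norm_num) |> abs_le.2)
  have hA2 : ∑ j ∈ Finset.range J, w j ≤ 2 * J := by
    have h1 := hA1.2
    rw [div_le_iff₀ hJ0, Finset.sum_sub_distrib, Finset.sum_const, Finset.card_range, nsmul_eq_mul] at h1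
    linarith
  have hBabs : |∑ j ∈ Finset.range J, (w j * u j - z)| ≤ J := by
    have h1 : |(∑ j ∈ Finset.range J, (w j * u j - z)) / (J:ℝ)| ≤ 1 := abs_le.2 hB1
    rw [abs_div, abs_of_pos hJ0, div_le_iff₀ hJ0, one_mul] at h1
    exact h1
  have hB2 : (J:ℝ) * μ - J ≤ ∑ j ∈ Finset.range J, w j * (σ * u j) := by
    have h1 : ∑ j ∈ Finset.range J, w j * (σ * u j) = J * μ + σ * ∑ j ∈ Finset.range J, (w j * u j - z) := by
      rw [Finset.sum_sub_distrib, Finset.sum_const, Finset.card_range, nsmul_eq_mul, mul_sub, ← hz, Finset.mul_sum]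
      have : ∀ j, w j * (σ * u j) = σ * (w j * u j) := fun j => by ring
      simp only [this]
      ring
    rw [h1]
    have h2 : |σ * ∑ j ∈ Finset.range J, (w j * u j - z)| ≤ J := by rw [abs_mul, hσ, one_mul]; exact hBabs
    have := (abs_le.1 h2).1
    linarith
  have hX2 : ∑ j ∈ Finset.range J, W * (E j - u j) ^ 2 ≤ J := by
    rw [div_lt_iff₀ hJ0, one_mul] at hX
    exact hX.le
  have hC : ∑ j ∈ Finset.range J, w j * (σ * u j) - (∑ j ∈ Finset.range J, w j + ∑ j ∈ Finset.range J, W * (E j - u j) ^ 2) ≤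
      ∑ j ∈ Finset.range J, w j * (σ * E j) := by
    rw [← Finset.sum_add_distrib, ← Finset.sum_sub_distrib]
    apply Finset.sum_le_sum
    intro j _
    have h1 : |σ * (E j - u j)| ≤ 1 + (E j - u j) ^ 2 := by
      rw [abs_mul, hσ, one_mul]
      have h2 := sq_nonneg (|E j - u j| - 1)
      have h3 : |E j - u j| ^ 2 = (E j - u j) ^ 2 := sq_abs _
      have h4 := abs_nonneg (E j - u j)
      nlinarith
    have h2 := (abs_le.1 h1).1
    have h3 := mul_le_mul_of_nonneg_left h2 (hw0 j)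
    have h4 := mul_le_mul_of_nonneg_right (hwW j) (sq_nonneg (E j - u j))
    nlinarith
  have hD : ∑ j ∈ Finset.range J, w j * (σ * E j) ≤ (μ - 4) / 4 * ∑ j ∈ Finset.range J, w j := by
    rw [Finset.mul_sum]
    apply Finset.sum_le_sum
    intro j hj
    have h1 := hcon j (Finset.mem_range.1 hj)
    nlinarith [hw0 j]
  have hv : 0 < (μ - 4) / 4 := by linarith
  have h1 := mul_le_mul_of_nonneg_left hA2 hv.le
  have h2 : (J:ℝ) * (μ - 4) ≤ (μ - 4) / 4 * (2 * J) := by nlinarith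
  have h3 : 0 < (J:ℝ) * (μ - 4) := mul_pos hJ0 (by linarith)
  nlinarith

/-- **lower bound**: dyadic form -/
theorem Lac.lower (h : Lac a b c θ κ) (hcd : c ≤ d) {E : ℝ → ℝ} {af : ℕ → ℝ} {φ : ℝ} (hX : Ctx E af φ)
    {r : ℕ} (hr2 : 2000 ≤ r) (hr : 2000 * (8 / (1 - κ)) ≤ r) (Q : ℕ → Finset ℕ) {K0 : ℕ}
    (hQc : ∀ K, K0 ≤ K → (Q K).card ≤ K) (hQp : ∀ K, K0 ≤ K → ∀ q ∈ Q K, Squarefree q)
    (hQM : ∀ K, K0 ≤ K → ∀ q ∈ Q K, q ≤ (2 ^ (400 * K)) ^ 2)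
    (hQ4 : ∀ᶠ K : ℕ in atTop, 4 < 1/2 * ∑ q ∈ Q K, af q) {σ : ℝ} (hσ : |σ| = 1) :
    ∀ᵐ y ∂(volume.restrict (Icc c d)), ∀ᶠ i : ℕ in atTop, ∃ n < 2 ^ (i + 1),
      (1/2 * ∑ q ∈ Q (i / r), af q - 4) / 4 ≤ σ * E (pt a b n y) := by
  have hδ : 0 < 1 - κ := by linarith [h.k1]
  have hdc : 0 ≤ d - c := by linarith
  have hr' : 8 / (1 - κ) ≤ r := by
    have : 0 < 8 / (1 - κ) := by positivity
    linarith
  have hr0 : 0 < r := by omega
  obtain ⟨Cs, hCs, hAA⟩ := AA_le hX.bd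
  have hKt : Tendsto (fun i : ℕ => i / r) atTop atTop := Nat.tendsto_div_const_atTop hr0.ne'
  set wj : ℕ → ℕ → ℝ → ℝ := fun i j y => Wr σ φ (Q (i / r)) (pt a b (nf r i j) y) with hwj
  set uj : ℕ → ℕ → ℝ → ℝ := fun i j y => U af φ (pt a b (nf r i j) y) (Mf r i) with huj
  set zf : ℕ → ℝ := fun i => σ / 2 * ∑ q ∈ Q (i / r), af q with hzf
  set g1 : ℕ → ℝ → ℝ := fun i y => ((∑ j ∈ Finset.range (Jf r i), (wj i j y - 1)) / (Jf r i : ℝ)) ^ 2 with hg1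
  set g2 : ℕ → ℝ → ℝ := fun i y => ((∑ j ∈ Finset.range (Jf r i), (wj i j y * uj i j y - zf i)) / (Jf r i : ℝ)) ^ 2 with hg2
  set g3 : ℕ → ℝ → ℝ := fun i y => (∑ j ∈ Finset.range (Jf r i), (2:ℝ) ^ (i / r) *
    (E (pt a b (nf r i j) y) - uj i j y) ^ 2) / (Jf r i : ℝ) with hg3
  have hwc : ∀ i j, Continuous (wj i j) := fun i j => (Wr_cont σ φ _).comp (pt_cont a b _)
  have huc : ∀ i j, Continuous (uj i j) := fun i j => Upt_cont af φ a b _ _
  have hg1c : ∀ i, Continuous (g1 i) := fun i =>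
    ((continuous_finsetSum _ fun j _ => (hwc i j).sub continuous_const).div_const _).pow 2
  have hg2c : ∀ i, Continuous (g2 i) := fun i =>
    ((continuous_finsetSum _ fun j _ => ((hwc i j).mul (huc i j)).sub continuous_const).div_const _).pow 2
  have hg3m : ∀ i, Measurable (g3 i) := fun i =>
    (Finset.measurable_sum _ fun j _ => ((((pt_meas hX.meas _).sub (huc i j).measurable).pow_const 2).const_mul _)).div_const _
  -- the small mean squares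
  have hms := h.msmall hcd hr2 hr (Cs := Cs) hCs
  have hKe : ∀ᶠ i : ℕ in atTop, K0 ≤ i / r := hKt.eventually_ge_atTop K0
  have hΘ : ∀ i : ℕ, (Q (i / r)).card ≤ i / r → (((Q (i / r)).card : ℝ) + 1) * (Mf r i : ℝ) ≤
      (((i / r : ℕ) : ℝ) + 1) * (Mf r i : ℝ) := by
    intro i hc
    apply mul_le_mul_of_nonneg_right _ (Nat.cast_nonneg _)
    have : ((Q (i / r)).card : ℝ) ≤ ((i / r : ℕ) : ℝ) := by exact_mod_cast hc
    linarith
  have hev1 : ∀ᶠ i : ℕ in atTop, ∫ y in c..d, g1 i y ≤ (4 * Cs ^ 2 * (d - c) + 1) * (1/2) ^ (i / r) := by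
    filter_upwards [hms, hKe] with i h1 hK
    have hM1 : 1 ≤ Mf r i := Nat.one_le_two_pow
    have h2 := TP_W hσ φ (hQp _ hK) hM1 (by unfold Mf; exact hQM _ hK)
    have hc := hQc _ hK
    have h3 : (2:ℝ) ^ (Q (i / r)).card ≤ Cs * 2 ^ (801 * (i / r)) := by
      calc (2:ℝ) ^ (Q (i / r)).card ≤ 2 ^ (801 * (i / r)) := pow_le_pow_right₀ (by norm_num) (by omega)
        _ ≤ Cs * 2 ^ (801 * (i / r)) := le_mul_of_one_le_left (by positivity) hCs
    exact h1 (Wr σ φ (Q (i / r))) 1 (h2.mono h3 (ta_anti _ hc) (hΘ i hc))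
  have hev2 : ∀ᶠ i : ℕ in atTop, ∫ y in c..d, g2 i y ≤ (4 * Cs ^ 2 * (d - c) + 1) * (1/2) ^ (i / r) := by
    filter_upwards [hms, hKe] with i h1 hK
    have hM1 : 1 ≤ Mf r i := Nat.one_le_two_pow
    have h2 := TP_WU hσ φ af (hQp _ hK) (M := Mf r i) (by unfold Mf; exact hQM _ hK)
    have hc := hQc _ hK
    have h3 : (2:ℝ) ^ (Q (i / r)).card * AA af (Mf r i) ≤ Cs * 2 ^ (801 * (i / r)) := by
      calc (2:ℝ) ^ (Q (i / r)).card * AA af (Mf r i) ≤ 2 ^ (i / r) * (Cs * (Mf r i : ℝ) ^ 2) :=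
            mul_le_mul (pow_le_pow_right₀ (by norm_num) hc) (hAA _) (AA_nonneg _ _) (by positivity)
        _ = Cs * 2 ^ (801 * (i / r)) := by
            unfold Mf
            push_cast
            rw [← pow_mul, show 801 * (i / r) = i / r + 400 * (i / r) * 2 by ring, pow_add]
            ring
    exact h1 (fun R => Wr σ φ (Q (i / r)) R * U af φ R (Mf r i)) (zf i) (h2.mono h3 (ta_anti _ hc) (hΘ i hc))
  obtain ⟨C, hC, ρ, hρ, hl⟩ := hX.l2 c d hcd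
  have hev3 : ∀ᶠ i : ℕ in atTop, ∫⁻ y in Icc c d, ENNReal.ofReal (g3 i y) ≤ ENNReal.ofReal (C * (1/2) ^ (i / r)) := by
    filter_upwards [h.bigI (C1 := 0) (C2 := ρ) le_rfl hρ.le, h.bigI (C1 := ((40000 : ℕ) : ℝ)) (C2 := 2)
      (Nat.cast_nonneg _) (by norm_num)] with i hb1 hb2
    rw [zero_mul, Real.exp_zero, mul_one] at hb1
    set K := i / r with hK
    have hJ : (0:ℝ) < Jf r i := by unfold Jf; positivity
    have hM1 : 1 ≤ Mf r i := Nat.one_le_two_pow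
    have hM100 : ((Mf r i : ℕ) : ℝ) ^ 100 ≤ pt a b (2 ^ i) c / 2 := by
      rw [le_div_iff₀ (by norm_num)]
      refine le_trans ?_ hb2
      rw [mul_comm]
      apply mul_le_mul_of_nonneg_left _ (by norm_num)
      have e1 : ((Mf r i : ℕ) : ℝ) ^ 100 = (2:ℝ) ^ (40000 * K) := by
        unfold Mf; push_cast; rw [← pow_mul]; congr 1; ring
      rw [e1]
      apply lin_exp h.k1 hr'
      rw [← hK]
      have := k_le_four K
      omega
    have hM200 : ((Mf r i : ℕ) : ℝ) ^ (-(1/200):ℝ) = ((2:ℝ) ^ (2 * K))⁻¹ := by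
      unfold Mf
      push_cast
      rw [← hK, ← Real.rpow_natCast, ← Real.rpow_mul (by norm_num), ← Real.rpow_natCast, ← Real.rpow_neg (by norm_num)]
      congr 1
      push_cast; ring
    have hpt : ∀ j, ∫⁻ y in Icc c d, ENNReal.ofReal ((E (pt a b (nf r i j) y) - uj i j y) ^ 2) ≤
        ENNReal.ofReal (C * ((2:ℝ) ^ (2 * K))⁻¹) := by
      intro j
      have hle : pt a b (2 ^ i) c ≤ pt a b (nf r i j) c := by
        apply h.pmono _ le_rfl
        unfold nf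
        omega
      have h1 := hl (a (nf r i j)) (b (nf r i j)) (h.one _) (h.pos _) (hb1.trans hle) (Mf r i) hM1
        (hM100.trans (div_le_div_of_nonneg_right hle (by norm_num)))
      rw [hM200] at h1
      exact h1
    calc ∫⁻ y in Icc c d, ENNReal.ofReal (g3 i y)
        = ∫⁻ y in Icc c d, ENNReal.ofReal ((2:ℝ) ^ K / (Jf r i : ℝ)) * ∑ j ∈ Finset.range (Jf r i),
            ENNReal.ofReal ((E (pt a b (nf r i j) y) - uj i j y) ^ 2) := by
          apply lintegral_congr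
          intro y
          rw [← ENNReal.ofReal_sum_of_nonneg (fun _ _ => sq_nonneg _), ← ENNReal.ofReal_mul (by positivity)]
          congr 1
          simp only [hg3]
          rw [← Finset.mul_sum]
          ring
      _ = ENNReal.ofReal ((2:ℝ) ^ K / (Jf r i : ℝ)) * ∑ j ∈ Finset.range (Jf r i),
            ∫⁻ y in Icc c d, ENNReal.ofReal ((E (pt a b (nf r i j) y) - uj i j y) ^ 2) := by
          rw [lintegral_const_mul' _ _ ENNReal.ofReal_ne_top, lintegral_finsetSum]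
          intro j _
          exact (((pt_meas hX.meas _).sub (huc i j).measurable).pow_const 2).ennreal_ofReal
      _ ≤ ENNReal.ofReal ((2:ℝ) ^ K / (Jf r i : ℝ)) * ∑ _j ∈ Finset.range (Jf r i), ENNReal.ofReal (C * ((2:ℝ) ^ (2 * K))⁻¹) := by
          gcongr with j _
          exact hpt j
      _ = ENNReal.ofReal (C * (1/2) ^ K) := by
          rw [Finset.sum_const, Finset.card_range, nsmul_eq_mul, ← ENNReal.ofReal_natCast, ← ENNReal.ofReal_mul (by positivity),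
            ← ENNReal.ofReal_mul (by positivity)]
          congr 1
          have e1 : (1/2:ℝ) ^ K = ((2:ℝ) ^ K)⁻¹ := by rw [one_div, inv_pow]
          rw [e1, show 2 * K = K + K by ring, pow_add]
          field_simp
  obtain ⟨i1, hi1⟩ := eventually_atTop.1 hev1
  obtain ⟨i2, hi2⟩ := eventually_atTop.1 hev2
  obtain ⟨i3, hi3⟩ := eventually_atTop.1 hev3
  have ae1 := ae_zero' hcd hg1c (summ_half hr0 _) (j0 := i1) (fun i hi => hi1 i hi) (fun _ _ => sq_nonneg _)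
  have ae2 := ae_zero' hcd hg2c (summ_half hr0 _) (j0 := i2) (fun i hi => hi2 i hi) (fun _ _ => sq_nonneg _)
  have ae3 := ae_zero (μ := volume.restrict (Icc c d)) hg3m (summ_half hr0 C) (j0 := i3) (fun i hi => hi3 i hi)
    (fun i y => div_nonneg (Finset.sum_nonneg fun _ _ => mul_nonneg (by positivity) (sq_nonneg _)) (Nat.cast_nonneg _))
  filter_upwards [ae1, ae2, ae3] with y hy1 hy2 hy3
  filter_upwards [hy1.eventually (gt_mem_nhds (show (0:ℝ) < 1 by norm_num)),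
    hy2.eventually (gt_mem_nhds (show (0:ℝ) < 1 by norm_num)),
    hy3.eventually (gt_mem_nhds (show (0:ℝ) < 1 by norm_num)), hKt.eventually hQ4, hKe] with i k1 k2 k3 k4 hK
  have hJ : 0 < Jf r i := by unfold Jf; positivity
  have hσ2 : σ * σ = 1 := by
    have : |σ| * |σ| = 1 := by rw [hσ, one_mul]
    rwa [abs_mul_abs_self] at this
  obtain ⟨j, hj, hj2⟩ := extract hσ k4 hJ (fun j => wj i j y) (fun j => uj i j y) (fun j => E (pt a b (nf r i j) y))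
    (z := zf i) (W := 2 ^ (i / r)) (by
      simp only [hzf]
      calc σ * (σ / 2 * ∑ q ∈ Q (i / r), af q) = (σ * σ) * (1 / 2 * ∑ q ∈ Q (i / r), af q) := by ring
        _ = _ := by rw [hσ2, one_mul]) (fun j => Wr_nonneg hσ φ _ _) (fun j => by
      have := Wr_le hσ φ (Q (i / r)) (pt a b (nf r i j) y)
      exact this.trans (pow_le_pow_right₀ (by norm_num) (hQc _ hK))) k1 k2 k3
  exact ⟨nf r i j, nf_lt hr2 hj, hj2⟩

end Pool.Agent.W2helper40.MX
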