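import Mathlib
import Pool.Agent.H452R2.Om.Mert
import Pool.Agent.H452R2.Om.RepsLow
import Pool.Agent.H452R2.Om.Extract
import Pool.Agent.H452R2.Om.Count
import Pool.Agent.H383.GaussW

/-!
# Sets of squarefree integers on which the coefficients of the circle problem are large
-/

set_option autoImplicit false

open Filter Topology Real
open Pool.Agent.H452R2.Om (zz extract count_sets mert_one rA_prod_ge)

namespace Pool.Agent.W2helper40.MX

lemma sf_prod {S : Finset ℕ} (hS : ∀ p ∈ S, p.Prime) : Squarefree (∏ p ∈ S, p) := by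
  refine Finset.squarefree_prod_of_pairwise_isCoprime (fun p hp q hq hpq ↦ ?_) (fun p hp => (hS p hp).prime.squarefree)
  exact Nat.coprime_iff_isRelPrime.1 ((Nat.coprime_primes (hS p hp) (hS q hq)).2 hpq)

lemma zz_half_ge : 1 ≤ zz / 2 := by
  unfold zz
  have : (2:ℝ) ≤ 2 ^ (4/3:ℝ) := by
    calc (2:ℝ) = 2 ^ (1:ℝ) := (Real.rpow_one 2).symm
      _ ≤ 2 ^ (4/3:ℝ) := Real.rpow_le_rpow_of_exponent_le (by norm_num) (by norm_num)
  linarith

open Pool.Agent.H383.Gauss Pool.Agent.H383.Circ Pool.Agent.H383.AP in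
theorem sf_sets : ∃ c K0 : ℝ, 0 < c ∧ ∀ K : ℝ, K0 ≤ K → ∃ Q : Finset ℕ, (Q.card : ℝ) ≤ K ∧
    (∀ m ∈ Q, Squarefree m) ∧ (∀ m ∈ Q, (m:ℝ) ≤ K ^ 3) ∧
      c * K ^ (1/4:ℝ) * (Real.log K) ^ ((3/4) * (zz / 2 - 1)) ≤ ∑ m ∈ Q, ag m := by
  classical
  have hpi := Real.pi_pos
  have hz : 0 < zz / 2 := by linarith [zz_half_ge]
  obtain ⟨c, K0, hc, h⟩ := extract (a := fun m => if Squarefree m then ag m else 0) (fun m => by
    split_ifs
    · exact ag_nonneg m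
    · exact le_rfl) (b := 1 / Real.pi) (by positivity) (fun p => p % 4 = 1) (β := zz / 2) zz_half_ge
    (count_sets (fun p => p % 4 = 1) hz mert_one) (by
      intro S hS
      rw [if_pos (sf_prod fun p hp => (hS p hp).1)]
      unfold ag
      have h1 := rA_prod_ge S (fun p hp => ⟨(hS p hp).1, by rcases (hS p hp).2.2 with h | h <;> exact h⟩)
      have h2 : 0 ≤ ((∏ p ∈ S, p : ℕ) : ℝ) ^ (-(3/4):ℝ) := by positivity
      have h4 : (√((∏ p ∈ S, p : ℕ) : ℝ)) ^ (-(3/2):ℝ) = ((∏ p ∈ S, p : ℕ) : ℝ) ^ (-(3/4):ℝ) := by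
        rw [Real.sqrt_eq_rpow, ← Real.rpow_mul (Nat.cast_nonneg _)]; norm_num
      rw [h4]
      calc 1 / Real.pi * 2 ^ S.card * ((∏ p ∈ S, p : ℕ) : ℝ) ^ (-(3/4):ℝ)
          = 2 ^ S.card / Real.pi * ((∏ p ∈ S, p : ℕ) : ℝ) ^ (-(3/4):ℝ) := by ring
        _ ≤ _ := by gcongr)
  refine ⟨c, K0, hc, fun K hK => ?_⟩
  obtain ⟨M, hM1, hM2, hM3⟩ := h K hK
  refine ⟨M.filter Squarefree, ?_, fun m hm => (Finset.mem_filter.1 hm).2, fun m hm =>
    (hM2 m (Finset.mem_filter.1 hm).1).2, ?_⟩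
  · refine le_trans ?_ hM1
    exact_mod_cast Finset.card_filter_le _ _
  · rw [Finset.sum_filter]
    exact hM3

end Pool.Agent.W2helper40.MX
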