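import Mathlib
import Pool.Agent.Helper256.KM.Mertens

/-!
# The Hardy–Ramanujan inequality for integers without prime factors congruent to 3 modulo 4
-/

set_option autoImplicit false

open Real

namespace Pool.Agent.W2helper40.MX

/-- squarefree, without prime factors congruent to `3` modulo `4` -/
def Ad (s : ℕ) : Prop := Squarefree s ∧ ∀ p ∈ s.primeFactors, p % 4 ≠ 3

open Classical in
/-- the admissible integers up to `x` with `k` prime factors -/
noncomputable def NK (k : ℕ) (x : ℝ) : Finset ℕ :=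
  (Finset.Icc 1 ⌊x⌋₊).filter (fun s => Ad s ∧ s.primeFactors.card = k)

/-- the primes up to `x` not congruent to `3` modulo `4` -/
noncomputable def PP (x : ℝ) : Finset ℕ := (Finset.Icc 1 ⌊x⌋₊).filter (fun p => p.Prime ∧ p % 4 ≠ 3)

/-- the sum of the reciprocals of these primes -/
noncomputable def EX (x : ℝ) : ℝ := ∑ p ∈ PP x, (1:ℝ) / p

lemma EX_nonneg (x : ℝ) : 0 ≤ EX x := Finset.sum_nonneg fun _ _ => by positivity

lemma mem_NK {k : ℕ} {x : ℝ} {s : ℕ} : s ∈ NK k x ↔ (1 ≤ s ∧ s ≤ ⌊x⌋₊) ∧ Ad s ∧ s.primeFactors.card = k := by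
  classical
  unfold NK
  rw [Finset.mem_filter, Finset.mem_Icc]

lemma mem_PP {x : ℝ} {p : ℕ} : p ∈ PP x ↔ (1 ≤ p ∧ p ≤ ⌊x⌋₊) ∧ p.Prime ∧ p % 4 ≠ 3 := by
  unfold PP
  rw [Finset.mem_filter, Finset.mem_Icc]

lemma PP_mono {x y : ℝ} (h : x ≤ y) : PP x ⊆ PP y := by
  intro p hp
  rw [mem_PP] at hp ⊢
  exact ⟨⟨hp.1.1, hp.1.2.trans (Nat.floor_le_floor h)⟩, hp.2⟩

/-- Chebyshev's bound -/
lemma PP_card : ∃ B : ℝ, 0 < B ∧ ∀ x : ℝ, 1 ≤ x → ((PP x).card : ℝ) ≤ B * (x / Real.log (2 * x)) := by
  refine ⟨4 * Real.log 4 + 3, by have := Real.log_pos (show (1:ℝ) < 4 by norm_num); linarith, ?_⟩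
  intro x hx
  have hx0 : 0 < x := by linarith
  have hlog2x : 0 < Real.log (2 * x) := Real.log_pos (by linarith)
  rcases lt_or_ge x 2 with h2 | h2
  · have : PP x = ∅ := by
      rw [Finset.eq_empty_iff_forall_notMem]
      intro p hp
      rw [mem_PP] at hp
      have h3 : ⌊x⌋₊ < 2 := (Nat.floor_lt (by linarith)).2 (by exact_mod_cast h2)
      have := hp.2.1.two_le
      omega
    rw [this, Finset.card_empty, Nat.cast_zero]
    have := Real.log_pos (show (1:ℝ) < 4 by norm_num)
    positivity
  · have h1 := Chebyshev.pi_le_log4_mul_div (x := x) (by linarith)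
    have hc : (PP x).card ≤ Nat.primeCounting ⌊x⌋₊ := by
      unfold Nat.primeCounting Nat.primeCounting'
      rw [Nat.count_eq_card_filter_range]
      apply Finset.card_le_card
      intro p hp
      rw [mem_PP] at hp
      rw [Finset.mem_filter, Finset.mem_range]
      exact ⟨by omega, hp.2.1⟩
    have hc' : ((PP x).card : ℝ) ≤ (Nat.primeCounting ⌊x⌋₊ : ℝ) := by exact_mod_cast hc
    have hlogx : 0 < Real.log x := Real.log_pos (by linarith)
    have h3 : Real.log (2 * x) ≤ 2 * Real.log x := by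
      rw [Real.log_mul (by norm_num) hx0.ne']
      have : Real.log 2 ≤ Real.log x := Real.log_le_log (by norm_num) h2
      linarith
    have h4 : Real.log (√x) = Real.log x / 2 := Real.log_sqrt hx0.le
    have h5 : Real.log 4 * x / Real.log (√x) ≤ 4 * Real.log 4 * (x / Real.log (2 * x)) := by
      rw [h4]
      have h6 : x / Real.log x ≤ 2 * (x / Real.log (2 * x)) := by
        rw [← mul_div_assoc, div_le_div_iff₀ hlogx hlog2x]
        nlinarith
      have h7 : 0 < Real.log 4 := Real.log_pos (by norm_num)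
      calc Real.log 4 * x / (Real.log x / 2) = 2 * Real.log 4 * (x / Real.log x) := by field_simp
        _ ≤ 2 * Real.log 4 * (2 * (x / Real.log (2 * x))) := mul_le_mul_of_nonneg_left h6 (by positivity)
        _ = _ := by ring
    have h8 : √x ≤ 3 * (x / Real.log (2 * x)) := by
      rw [← mul_div_assoc, le_div_iff₀ hlog2x]
      have h9 : Real.log (2 * x) ≤ 3 * √x := by
        have h10 : Real.log (2 * x) = 2 * Real.log (√(2 * x)) := by rw [Real.log_sqrt (by linarith)]; ring
        have h11 : Real.log (√(2 * x)) ≤ √(2 * x) := by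
          have := Real.log_le_sub_one_of_pos (Real.sqrt_pos.2 (by linarith : 0 < 2 * x))
          linarith
        have h12 : √(2 * x) = √2 * √x := Real.sqrt_mul (by norm_num) x
        have h13 : √2 ≤ 1.5 := by rw [Real.sqrt_le_left (by norm_num)]; norm_num
        have h14 := Real.sqrt_nonneg x
        have h15 : √(2 * x) ≤ 1.5 * √x := by
          rw [h12]; exact mul_le_mul_of_nonneg_right h13 h14
        rw [h10]
        linarith
      have h14 := Real.sqrt_nonneg x
      have h15 : √x * √x = x := Real.mul_self_sqrt hx0.le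
      nlinarith
    calc ((PP x).card : ℝ) ≤ (Nat.primeCounting ⌊x⌋₊ : ℝ) := hc'
      _ ≤ Real.log 4 * x / Real.log (√x) + √x := h1
      _ ≤ _ := by rw [add_mul]; exact add_le_add h5 h8

/-- the counting step -/
lemma hr_step {x : ℝ} (hx : 1 ≤ x) (k : ℕ) :
    (k:ℝ) * ((NK (k + 1) x).card : ℝ) ≤ ∑ p ∈ PP (√x), ((NK k (x / p)).card : ℝ) := by
  classical
  have hx0 : 0 < x := by linarith
  -- many small prime factors
  have h1 : ∀ s ∈ NK (k + 1) x, k ≤ ((PP (√x)).filter (fun p => p ∣ s)).card := by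
    intro s hs
    rw [mem_NK] at hs
    obtain ⟨⟨hs1, hsx⟩, hA, hc⟩ := hs
    have h2 : ((s.primeFactors).filter (fun p => ¬ p ^ 2 ≤ ⌊x⌋₊)).card ≤ 1 := by
      rw [Finset.card_le_one]
      intro a ha b hb
      rw [Finset.mem_filter, Nat.mem_primeFactors] at ha hb
      by_contra hne
      have h3 : a * b ∣ s := Nat.Coprime.mul_dvd_of_dvd_of_dvd
        ((Nat.coprime_primes ha.1.1 hb.1.1).2 hne) ha.1.2.1 hb.1.2.1
      have h4 : a * b ≤ ⌊x⌋₊ := (Nat.le_of_dvd hs1 h3).trans hsx
      have h5 : a * b < a ^ 2 := lt_of_le_of_lt h4 (not_le.1 ha.2)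
      have h6 : a * b < b ^ 2 := lt_of_le_of_lt h4 (not_le.1 hb.2)
      have h7 : b < a := by
        by_contra h
        have : a * a ≤ a * b := Nat.mul_le_mul_left a (not_lt.1 h)
        nlinarith
      have h8 : a < b := by
        by_contra h
        have : b * b ≤ a * b := Nat.mul_le_mul_right b (not_lt.1 h)
        nlinarith
      omega
    have h3 : ((s.primeFactors).filter (fun p => p ^ 2 ≤ ⌊x⌋₊)).card +
        ((s.primeFactors).filter (fun p => ¬ p ^ 2 ≤ ⌊x⌋₊)).card = k + 1 := by
      rw [Finset.card_filter_add_card_filter_not, hc]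
    have h4 : (s.primeFactors).filter (fun p => p ^ 2 ≤ ⌊x⌋₊) ⊆ (PP (√x)).filter (fun p => p ∣ s) := by
      intro p hp
      rw [Finset.mem_filter] at hp
      have hpp := Nat.mem_primeFactors.1 hp.1
      rw [Finset.mem_filter, mem_PP]
      refine ⟨⟨⟨hpp.1.one_le, ?_⟩, hpp.1, hA.2 p hp.1⟩, hpp.2.1⟩
      apply Nat.le_floor
      apply Real.le_sqrt_of_sq_le
      have h5 : ((p ^ 2 : ℕ) : ℝ) ≤ x := (Nat.le_floor_iff hx0.le).1 hp.2
      exact_mod_cast h5
    have h5 := Finset.card_le_card h4
    omega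
  -- double counting
  have h2 : ∀ p ∈ PP (√x), (((NK (k + 1) x).filter (fun s => p ∣ s)).card) ≤ (NK k (x / p)).card := by
    intro p hp
    rw [mem_PP] at hp
    have hpp := hp.2.1
    have hp0 : (0:ℝ) < p := by exact_mod_cast hpp.pos
    apply Finset.card_le_card_of_injOn (fun s => s / p)
    · intro s hs
      rw [Finset.mem_coe, Finset.mem_filter, mem_NK] at hs
      obtain ⟨⟨⟨hs1, hsx⟩, hA, hc⟩, hps⟩ := hs
      obtain ⟨m, rfl⟩ := hps
      have hm : p * m / p = m := Nat.mul_div_cancel_left m hpp.pos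
      have hm0 : m ≠ 0 := by
        rintro rfl
        simp at hs1
      have hsq : Squarefree m := hA.1.squarefree_of_dvd (Dvd.intro_left p rfl)
      have hco : Nat.Coprime p m := Nat.coprime_of_squarefree_mul hA.1
      have hpf : (p * m).primeFactors = insert p m.primeFactors := by
        rw [hco.primeFactors_mul, hpp.primeFactors]
        rfl
      have hnot : p ∉ m.primeFactors := by
        intro h
        have := Nat.dvd_of_mem_primeFactors h
        have h3 := Nat.Coprime.eq_one_of_dvd hco this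
        exact hpp.one_lt.ne' h3
      simp only [Finset.mem_coe]
      rw [mem_NK]
      simp only [hm]
      refine ⟨⟨Nat.one_le_iff_ne_zero.2 hm0, ?_⟩, ⟨hsq, fun q hq => hA.2 q (by rw [hpf]; exact Finset.mem_insert_of_mem hq)⟩, ?_⟩
      · apply Nat.le_floor
        rw [le_div_iff₀ hp0]
        have h5 : ((p * m : ℕ) : ℝ) ≤ x := (Nat.le_floor_iff hx0.le).1 hsx
        push_cast at h5
        linarith
      · rw [hpf, Finset.card_insert_of_notMem hnot] at hc
        omega
    · intro s hs s' hs' h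
      rw [Finset.mem_coe, Finset.mem_filter] at hs hs'
      simp only at h
      rw [← Nat.mul_div_cancel' hs.2, ← Nat.mul_div_cancel' hs'.2, h]
  have h3 : k * (NK (k + 1) x).card ≤ ∑ p ∈ PP (√x), (NK k (x / p)).card := by
    calc k * (NK (k + 1) x).card = ∑ _s ∈ NK (k + 1) x, k := by rw [Finset.sum_const, smul_eq_mul, mul_comm]
      _ ≤ ∑ s ∈ NK (k + 1) x, ((PP (√x)).filter (fun p => p ∣ s)).card := Finset.sum_le_sum h1
      _ = ∑ s ∈ NK (k + 1) x, ∑ p ∈ PP (√x), (if p ∣ s then 1 else 0) := by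
          apply Finset.sum_congr rfl
          intro s _
          rw [Finset.card_filter]
      _ = ∑ p ∈ PP (√x), ∑ s ∈ NK (k + 1) x, (if p ∣ s then 1 else 0) := Finset.sum_comm
      _ = ∑ p ∈ PP (√x), ((NK (k + 1) x).filter (fun s => p ∣ s)).card := by
          apply Finset.sum_congr rfl
          intro p _
          rw [Finset.card_filter]
      _ ≤ _ := Finset.sum_le_sum h2
  exact_mod_cast h3

/-- the Hardy–Ramanujan inequality -/
theorem hardy_ramanujan : ∃ B D : ℝ, 0 < B ∧ 0 ≤ D ∧ ∀ X : ℝ, ∀ (k : ℕ) (x : ℝ), 1 ≤ x → x ≤ X →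
    ((NK (k + 1) x).card : ℝ) ≤ B * (x / Real.log (2 * x)) * ((EX X + D) ^ k / (k.factorial : ℝ)) := by
  classical
  obtain ⟨B, hB, hPP⟩ := PP_card
  obtain ⟨C, hC⟩ := Pool.Agent.Helper256.KM.mertens_log
  have hC0 : 0 ≤ C := (abs_nonneg _).trans (hC 1 le_rfl)
  have hlog2 : 0 < Real.log 2 := Real.log_pos (by norm_num)
  refine ⟨B, 1 + 2 * C / Real.log 2, hB, by positivity, ?_⟩
  intro X k
  set D := 1 + 2 * C / Real.log 2 with hD
  have hD0 : 0 ≤ D := by positivity
  have hE0 := EX_nonneg X
  induction k with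
  | zero =>
    intro x hx _
    rw [pow_zero, Nat.factorial_zero, Nat.cast_one, div_one, mul_one]
    refine le_trans ?_ (hPP x hx)
    have : (NK (0 + 1) x) ⊆ PP x := by
      intro s hs
      rw [mem_NK] at hs
      obtain ⟨hs1, hA, hc⟩ := hs
      obtain ⟨p, hp⟩ := Finset.card_eq_one.1 hc
      have hs2 : s = p := by
        have h1 := Nat.prod_primeFactors_of_squarefree hA.1
        rw [hp, Finset.prod_singleton] at h1
        exact h1.symm
      have hpm : p ∈ s.primeFactors := by rw [hp]; exact Finset.mem_singleton_self p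
      rw [mem_PP]
      refine ⟨hs1, ?_, ?_⟩
      · rw [hs2]; exact Nat.prime_of_mem_primeFactors hpm
      · rw [hs2]; exact hA.2 p hpm
    exact_mod_cast Finset.card_le_card this
  | succ k ih =>
    intro x hx hxX
    have hx0 : 0 < x := by linarith
    set L := Real.log (2 * x) with hL
    have hL2 : Real.log 2 ≤ L := Real.log_le_log (by norm_num) (by linarith)
    have hL0 : 0 < L := by linarith
    set F : ℝ := (EX X + D) ^ k / (k.factorial : ℝ) with hF
    have hF0 : 0 ≤ F := by positivity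
    have h1 := hr_step hx (k + 1)
    have hsx : 1 ≤ √x := by rw [Real.one_le_sqrt]; exact hx
    have hss : √x * √x = x := Real.mul_self_sqrt hx0.le
    have hlogsx : Real.log (√x) ≤ L / 2 := by
      rw [Real.log_sqrt hx0.le]
      have : Real.log x ≤ L := Real.log_le_log hx0 (by linarith)
      linarith
    have h2 : ∀ p ∈ PP (√x), ((NK (k + 1) (x / p)).card : ℝ) ≤
        B * F * x / L * (1 / p + 2 / L * (Real.log p / p)) := by
      intro p hp
      rw [mem_PP] at hp
      have hp1 : (1:ℝ) ≤ p := by exact_mod_cast hp.1.1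
      have hp0 : (0:ℝ) < p := by linarith
      have hpx : (p:ℝ) ≤ √x := (Nat.le_floor_iff (by linarith)).1 hp.1.2
      have hxp1 : 1 ≤ x / p := by
        rw [le_div_iff₀ hp0, one_mul]
        nlinarith
      have hxpx : x / p ≤ X := (div_le_self hx0.le hp1).trans hxX
      have h3 := ih (x / p) hxp1 hxpx
      have hlogp : Real.log p ≤ L / 2 := (Real.log_le_log hp0 hpx).trans hlogsx
      have hlogp0 : 0 ≤ Real.log p := Real.log_nonneg hp1
      have h4 : Real.log (2 * (x / p)) = L - Real.log p := by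
        rw [← mul_div_assoc, Real.log_div (by positivity) hp0.ne']
      rw [h4] at h3
      have h5 : 1 / (L - Real.log p) ≤ 1 / L * (1 + 2 / L * Real.log p) := by
        rw [div_le_iff₀ (by linarith)]
        have h6 : 1 / L * (1 + 2 / L * Real.log p) * (L - Real.log p) =
            1 + Real.log p * (L - 2 * Real.log p) / L ^ 2 := by
          field_simp
          ring
        rw [h6]
        have : 0 ≤ Real.log p * (L - 2 * Real.log p) / L ^ 2 :=
          div_nonneg (mul_nonneg hlogp0 (by linarith)) (by positivity)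
        linarith
      calc ((NK (k + 1) (x / p)).card : ℝ) ≤ B * (x / p / (L - Real.log p)) * F := h3
        _ = B * F * (x / p) * (1 / (L - Real.log p)) := by ring
        _ ≤ B * F * (x / p) * (1 / L * (1 + 2 / L * Real.log p)) :=
            mul_le_mul_of_nonneg_left h5 (by positivity)
        _ = _ := by ring
    have h3 : ∑ p ∈ PP (√x), (1 / (p:ℝ) + 2 / L * (Real.log p / p)) ≤ EX X + D := by
      rw [Finset.sum_add_distrib, ← Finset.mul_sum]
      have e1 : ∑ p ∈ PP (√x), 1 / (p:ℝ) ≤ EX X := by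
        unfold EX
        apply Finset.sum_le_sum_of_subset_of_nonneg
        · apply PP_mono
          have : √x ≤ x := by nlinarith
          linarith
        · intro p _ _
          positivity
      have e2 : ∑ p ∈ PP (√x), Real.log p / (p:ℝ) ≤ L / 2 + C := by
        have hfl : 1 ≤ ⌊√x⌋₊ := Nat.le_floor (by exact_mod_cast hsx)
        have e3 := (abs_le.1 (hC ⌊√x⌋₊ hfl)).2
        have e4 : ∑ p ∈ PP (√x), Real.log p / (p:ℝ) ≤ ∑ p ∈ (Finset.Icc 1 ⌊√x⌋₊).filter Nat.Prime, Real.log p / (p:ℝ) := by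
          apply Finset.sum_le_sum_of_subset_of_nonneg
          · intro p hp
            rw [mem_PP] at hp
            rw [Finset.mem_filter, Finset.mem_Icc]
            exact ⟨hp.1, hp.2.1⟩
          · intro p hp _
            rw [Finset.mem_filter, Finset.mem_Icc] at hp
            have : (1:ℝ) ≤ p := by exact_mod_cast hp.1.1
            exact div_nonneg (Real.log_nonneg this) (by linarith)
        have e5 : Real.log ⌊√x⌋₊ ≤ Real.log (√x) := by
          apply Real.log_le_log
          · exact_mod_cast hfl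
          · exact Nat.floor_le (by linarith)
        linarith
      have e6 : 2 / L * ∑ p ∈ PP (√x), Real.log p / (p:ℝ) ≤ D := by
        calc 2 / L * ∑ p ∈ PP (√x), Real.log p / (p:ℝ) ≤ 2 / L * (L / 2 + C) :=
              mul_le_mul_of_nonneg_left e2 (by positivity)
          _ = 1 + 2 * C / L := by field_simp
          _ ≤ 1 + 2 * C / Real.log 2 := by
              have := div_le_div_of_nonneg_left (show 0 ≤ 2 * C by positivity) hlog2 hL2
              linarith
      linarith
    have h4 : ((k:ℝ) + 1) * ((NK (k + 1 + 1) x).card : ℝ) ≤ B * F * x / L * (EX X + D) := by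
      calc ((k:ℝ) + 1) * ((NK (k + 1 + 1) x).card : ℝ) = ((k + 1 : ℕ) : ℝ) * ((NK (k + 1 + 1) x).card : ℝ) := by push_cast; ring
        _ ≤ ∑ p ∈ PP (√x), ((NK (k + 1) (x / p)).card : ℝ) := h1
        _ ≤ ∑ p ∈ PP (√x), B * F * x / L * (1 / (p:ℝ) + 2 / L * (Real.log p / p)) := Finset.sum_le_sum h2
        _ = B * F * x / L * ∑ p ∈ PP (√x), (1 / (p:ℝ) + 2 / L * (Real.log p / p)) := by rw [Finset.mul_sum]
        _ ≤ _ := mul_le_mul_of_nonneg_left h3 (by positivity)
    have hk0 : (0:ℝ) < (k:ℝ) + 1 := by positivity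
    have h5 : ((NK (k + 1 + 1) x).card : ℝ) ≤ B * F * x / L * (EX X + D) / ((k:ℝ) + 1) := by
      rw [le_div_iff₀ hk0]; linarith
    refine h5.trans (le_of_eq ?_)
    rw [hF, Nat.factorial_succ]
    push_cast
    rw [pow_succ]
    field_simp

end Pool.Agent.W2helper40.MX
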