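import Mathlib
import Pool.Agent.H474R2.GE.FA
import Pool.Agent.W2helper40.MX.HR

/-!
# Mertens' bound for the primes not congruent to 3 modulo 4
-/

set_option autoImplicit false

open Real Polynomial

namespace Pool.Agent.W2helper40.MX

lemma irr_X2 : Irreducible (X ^ 2 + 1 : ℤ[X]) := by
  have h1 : Polynomial.cyclotomic 4 ℤ = X ^ 2 + 1 := by
    have h2 := Polynomial.cyclotomic_prime_pow_eq_geom_sum (R := ℤ) (p := 2) (n := 1) Nat.prime_two
    have h3 : (2:ℕ) ^ (1 + 1) = 4 := by norm_num
    rw [h3] at h2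
    rw [h2]
    simp [Finset.sum_range_succ]
    ring
  rw [← h1]
  exact Polynomial.cyclotomic.irreducible (by norm_num)

open Pool.Agent.H474R2.PG (rho PR Sg) in
theorem EX_le : ∃ C : ℝ, 0 ≤ C ∧ ∀ x : ℝ, 3 ≤ x → EX x ≤ 1/2 * Real.log (Real.log x) + C := by
  classical
  obtain ⟨C, hC0, hC⟩ := Pool.Agent.H474R2.GE.mertens_rho (X ^ 2 + 1) irr_X2 (by
    have : (X ^ 2 + 1 : ℤ[X]).natDegree = 2 := by compute_degree!
    rw [this]; norm_num)
  refine ⟨C / 2 + 1/2, by positivity, fun x hx => ?_⟩
  have h1 := (abs_le.1 (hC x hx)).2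
  -- two roots modulo primes congruent to one
  have hr : ∀ p : ℕ, p.Prime → p % 4 = 1 → 2 ≤ rho (X ^ 2 + 1) p := by
    intro p hp h4
    have : Fact p.Prime := ⟨hp⟩
    obtain ⟨r, hr⟩ := (ZMod.exists_sq_eq_neg_one_iff (p := p)).2 (by omega)
    have hr2 : r ^ 2 + 1 = 0 := by rw [sq, ← hr]; ring
    have hr0 : r ≠ 0 := by
      rintro rfl
      simp at hr2
    have hne : r ≠ -r := by
      intro h
      have h5 : (2 : ZMod p) * r = 0 := by linear_combination h
      rcases mul_eq_zero.1 h5 with h6 | h6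
      · have h7 : ((2:ℕ) : ZMod p) = 0 := by exact_mod_cast h6
        rw [ZMod.natCast_eq_zero_iff] at h7
        have := Nat.le_of_dvd (by norm_num) h7
        have := hp.two_le
        have : p = 2 := by omega
        omega
      · exact hr0 h6
    unfold rho
    have hsub : ({r.val, (-r).val} : Finset ℕ) ⊆ (Finset.range p).filter (fun a : ℕ => (p : ℤ) ∣ (X ^ 2 + 1 : ℤ[X]).eval (a : ℤ)) := by
      intro a ha
      rw [Finset.mem_insert, Finset.mem_singleton] at ha
      have key : ∀ t : ZMod p, t ^ 2 + 1 = 0 → t.val ∈ (Finset.range p).filter (fun a : ℕ => (p : ℤ) ∣ (X ^ 2 + 1 : ℤ[X]).eval (a : ℤ)) := by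
        intro t ht
        rw [Finset.mem_filter, Finset.mem_range]
        refine ⟨ZMod.val_lt t, ?_⟩
        rw [← ZMod.intCast_zmod_eq_zero_iff_dvd]
        simp only [eval_add, eval_pow, eval_X, eval_one]
        push_cast
        rw [ZMod.natCast_zmod_val]
        exact ht
      rcases ha with rfl | rfl
      · exact key r hr2
      · exact key (-r) (by rw [neg_sq]; exact hr2)
    have h5 := Finset.card_le_card hsub
    rwa [Finset.card_pair (fun h => hne (ZMod.val_injective p h))] at h5
  have h2 : EX x ≤ 1/2 + 1/2 * Sg (rho (X ^ 2 + 1)) x := by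
    unfold EX Sg
    have h3 : PP x ⊆ insert 2 ((PR x).filter (fun p => p % 4 = 1)) := by
      intro p hp
      rw [mem_PP] at hp
      rw [Finset.mem_insert, Finset.mem_filter, PR, Finset.mem_filter, Finset.mem_Icc]
      rcases hp.2.1.eq_two_or_odd with h | h
      · left; exact h
      · right
        exact ⟨⟨hp.1, hp.2.1⟩, by have := hp.2.2; omega⟩
    have h4 : ∑ p ∈ PP x, (1:ℝ) / p ≤ ∑ p ∈ insert 2 ((PR x).filter (fun p => p % 4 = 1)), (1:ℝ) / p :=
      Finset.sum_le_sum_of_subset_of_nonneg h3 fun _ _ _ => by positivity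
    refine h4.trans ?_
    rw [Finset.sum_insert (by
      rw [Finset.mem_filter]
      intro h
      omega)]
    have h5 : ∑ p ∈ (PR x).filter (fun p => p % 4 = 1), (1:ℝ) / p ≤ 1/2 * ∑ p ∈ PR x, (rho (X ^ 2 + 1) p : ℝ) / p := by
      rw [Finset.mul_sum]
      calc ∑ p ∈ (PR x).filter (fun p => p % 4 = 1), (1:ℝ) / p
          ≤ ∑ p ∈ (PR x).filter (fun p => p % 4 = 1), 1/2 * ((rho (X ^ 2 + 1) p : ℝ) / p) := by
            apply Finset.sum_le_sum
            intro p hp
            rw [Finset.mem_filter, PR, Finset.mem_filter] at hp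
            have h6 : (2:ℝ) ≤ rho (X ^ 2 + 1) p := by exact_mod_cast hr p hp.1.2 hp.2
            have hp0 : (0:ℝ) < p := by exact_mod_cast hp.1.2.pos
            rw [← mul_div_assoc]
            apply div_le_div_of_nonneg_right _ hp0.le
            linarith
        _ ≤ _ := Finset.sum_le_sum_of_subset_of_nonneg (Finset.filter_subset _ _) fun _ _ _ => by positivity
    push_cast
    linarith
  linarith

end Pool.Agent.W2helper40.MX
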