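import Mathlib
import Pool.Agent.H452R2.Om.Defs
import Pool.Agent.Helper112.Arith
import Pool.Agent.W2helper40.MX.HR
import Pool.Agent.W2helper40.MX.MU

/-!
# The sum of `min (t, t²)`, `t = l 2^ω(s) s^(-3/4)`, over admissible `s`
-/

set_option autoImplicit false

open Real
open Pool.Agent.H452R2.Om (zz)

namespace Pool.Agent.W2helper40.MX

/-! ## Geometric sums -/

lemma tele {ρ : ℝ} (h0 : 0 < ρ) (h1 : ρ < 1) (y : ℝ) (I : ℕ) :
    ∑ i ∈ Finset.range I, ρ ^ |(i:ℝ) - y| ≤ 4 / (1 - ρ) := by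
  set g : ℕ → ℝ := fun i => 1 / (1 + ρ ^ ((i:ℝ) - y)) with hg
  have hgpos : ∀ i, 0 < g i := fun i => by simp only [hg]; positivity
  have hg1 : ∀ i, g i ≤ 1 := by
    intro i
    simp only [hg]
    rw [div_le_one (by positivity)]
    have : 0 < ρ ^ ((i:ℝ) - y) := by positivity
    linarith
  have hρ : 0 < 1 - ρ := by linarith
  have hstep : ∀ i : ℕ, ρ ^ |(i:ℝ) - y| ≤ 4 / (1 - ρ) * (g (i + 1) - g i) := by
    intro i
    set v : ℝ := (i:ℝ) - y with hv
    set w : ℝ := ρ ^ v with hw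
    have hw0 : 0 < w := by positivity
    have e1 : ρ ^ (((i + 1 : ℕ) : ℝ) - y) = w * ρ := by
      rw [hw, hv]
      push_cast
      rw [show (i:ℝ) + 1 - y = ((i:ℝ) - y) + 1 by ring, Real.rpow_add h0, Real.rpow_one]
    have e2 : g (i + 1) - g i = w * (1 - ρ) / ((1 + w) * (1 + w * ρ)) := by
      simp only [hg]
      rw [e1, ← hv, ← hw]
      field_simp
      ring
    rw [e2]
    have e3 : 4 / (1 - ρ) * (w * (1 - ρ) / ((1 + w) * (1 + w * ρ))) = 4 * w / ((1 + w) * (1 + w * ρ)) := by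
      field_simp
    rw [e3, le_div_iff₀ (by positivity)]
    have hwρ : w * ρ ≤ w := by nlinarith
    rcases le_total 0 v with h | h
    · rw [abs_of_nonneg h, ← hw]
      have hw1 : w ≤ 1 := Real.rpow_le_one h0.le h1.le h
      have : (1 + w) * (1 + w * ρ) ≤ 2 * 2 := mul_le_mul (by linarith) (by linarith) (by positivity) (by norm_num)
      nlinarith
    · rw [abs_of_nonpos h, Real.rpow_neg h0.le, ← hw]
      have hw1 : 1 ≤ w := Real.one_le_rpow_of_pos_of_le_one_of_nonpos h0 h1.le h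
      have : (1 + w) * (1 + w * ρ) ≤ (2 * w) * (2 * w) :=
        mul_le_mul (by linarith) (by linarith) (by positivity) (by positivity)
      rw [inv_mul_le_iff₀ hw0]
      nlinarith
  calc ∑ i ∈ Finset.range I, ρ ^ |(i:ℝ) - y| ≤ ∑ i ∈ Finset.range I, 4 / (1 - ρ) * (g (i + 1) - g i) :=
        Finset.sum_le_sum fun i _ => hstep i
    _ = 4 / (1 - ρ) * (g I - g 0) := by rw [← Finset.mul_sum, Finset.sum_range_sub]
    _ ≤ 4 / (1 - ρ) * 1 := by
        apply mul_le_mul_of_nonneg_left _ (by positivity)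
        have h2 := hgpos 0
        have h3 := hg1 I
        linarith
    _ = _ := mul_one _

/-- the weight on a dyadic block -/
noncomputable def ph (v : ℝ) : ℝ := min (v ^ (-(3/4):ℝ)) (v ^ (-(3/2):ℝ))

lemma ph_nonneg {v : ℝ} (hv : 0 ≤ v) : 0 ≤ ph v := le_min (by positivity) (by positivity)

lemma ph_anti {v w : ℝ} (hv : 0 < v) (h : v ≤ w) : ph w ≤ ph v := by
  unfold ph
  exact min_le_min (Real.rpow_le_rpow_of_nonpos hv h (by norm_num)) (Real.rpow_le_rpow_of_nonpos hv h (by norm_num))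

lemma ph_bound {v : ℝ} (hv : 0 < v) : v * ph v ≤ (2:ℝ) ^ (-(1/4) * |Real.logb 2 v|) := by
  set u := Real.logb 2 v with hu
  have h1 : v = (2:ℝ) ^ u := (Real.rpow_logb (by norm_num) (by norm_num) hv).symm
  unfold ph
  rcases le_total 0 u with h | h
  · rw [abs_of_nonneg h]
    calc v * min (v ^ (-(3/4):ℝ)) (v ^ (-(3/2):ℝ)) ≤ v * v ^ (-(3/2):ℝ) :=
          mul_le_mul_of_nonneg_left (min_le_right _ _) hv.le
      _ = (2:ℝ) ^ (-(1/2) * u) := by
          rw [h1, ← Real.rpow_mul (by norm_num), ← Real.rpow_add (by norm_num)]; congr 1; ring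
      _ ≤ _ := Real.rpow_le_rpow_of_exponent_le (by norm_num) (by linarith)
  · rw [abs_of_nonpos h]
    calc v * min (v ^ (-(3/4):ℝ)) (v ^ (-(3/2):ℝ)) ≤ v * v ^ (-(3/4):ℝ) :=
          mul_le_mul_of_nonneg_left (min_le_left _ _) hv.le
      _ = (2:ℝ) ^ ((1/4) * u) := by
          rw [h1, ← Real.rpow_mul (by norm_num), ← Real.rpow_add (by norm_num)]; congr 1; ring
      _ = _ := by congr 1; ring

theorem geo : ∃ C : ℝ, 0 < C ∧ ∀ Y : ℝ, 1 ≤ Y → ∀ I : ℕ,
    ∑ i ∈ Finset.range I, (2:ℝ) ^ i / Y * ph ((2:ℝ) ^ i / Y) / ((i:ℝ) + 2) ≤ C / (Real.logb 2 Y + 2) := by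
  set ρ : ℝ := (2:ℝ) ^ (-(1/8):ℝ) with hρ
  have hρ0 : 0 < ρ := by positivity
  have hρ1 : ρ < 1 := Real.rpow_lt_one_of_one_lt_of_neg (by norm_num) (by norm_num)
  have hlog2 : 0 < Real.log 2 := Real.log_pos (by norm_num)
  have hlog2' : Real.log 2 < 1 := by
    have := Real.log_two_lt_d9
    linarith
  refine ⟨8 / Real.log 2 * (4 / (1 - ρ)), by
    have : 0 < 1 - ρ := by linarith
    positivity, ?_⟩
  intro Y hY I
  have hY0 : 0 < Y := by linarith
  set y := Real.logb 2 Y with hy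
  have hy0 : 0 ≤ y := Real.logb_nonneg (by norm_num) hY
  have hterm : ∀ i : ℕ, (2:ℝ) ^ i / Y * ph ((2:ℝ) ^ i / Y) / ((i:ℝ) + 2) ≤
      8 / Real.log 2 / (y + 2) * ρ ^ |(i:ℝ) - y| := by
    intro i
    have hv : 0 < (2:ℝ) ^ i / Y := by positivity
    have h1 := ph_bound hv
    have h2 : Real.logb 2 ((2:ℝ) ^ i / Y) = (i:ℝ) - y := by
      rw [Real.logb_div (by positivity) hY0.ne', Real.logb_pow, Real.logb_self_eq_one (by norm_num), mul_one]
    rw [h2] at h1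
    set u := |(i:ℝ) - y| with hu
    have hu0 : 0 ≤ u := abs_nonneg _
    have hi : (0:ℝ) ≤ i := Nat.cast_nonneg i
    have h3 : 1 / ((i:ℝ) + 2) ≤ (1 + u) / (y + 2) := by
      rw [div_le_div_iff₀ (by linarith) (by linarith)]
      have h4 : y - i ≤ u := by
        rw [hu, abs_sub_comm]; exact le_abs_self _
      nlinarith
    have h5 : (1 + u) * (2:ℝ) ^ (-(1/4) * u) ≤ 8 / Real.log 2 * ρ ^ u := by
      have h6 : ρ ^ u = (2:ℝ) ^ (-(1/8) * u) := by rw [hρ, ← Real.rpow_mul (by norm_num)]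
      have h7 : (2:ℝ) ^ (-(1/4) * u) = (2:ℝ) ^ (-(1/8) * u) * (2:ℝ) ^ (-(1/8) * u) := by
        rw [← Real.rpow_add (by norm_num)]; congr 1; ring
      rw [h6, h7, ← mul_assoc]
      apply mul_le_mul_of_nonneg_right _ (by positivity)
      have h8 : Real.log 2 / 8 * (1 + u) ≤ (2:ℝ) ^ ((1/8) * u) := by
        rw [Real.rpow_def_of_pos (by norm_num)]
        have := Real.add_one_le_exp (Real.log 2 * (1 / 8 * u))
        nlinarith
      have h9 : (2:ℝ) ^ ((1/8) * u) * (2:ℝ) ^ (-(1/8) * u) = 1 := by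
        rw [← Real.rpow_add (by norm_num)]
        rw [show (1/8) * u + -(1/8) * u = 0 by ring, Real.rpow_zero]
      have h10 : 0 < (2:ℝ) ^ (-(1/8) * u) := by positivity
      rw [le_div_iff₀ hlog2]
      have h11 := mul_le_mul_of_nonneg_right h8 h10.le
      rw [h9] at h11
      nlinarith
    calc (2:ℝ) ^ i / Y * ph ((2:ℝ) ^ i / Y) / ((i:ℝ) + 2)
        = (2:ℝ) ^ i / Y * ph ((2:ℝ) ^ i / Y) * (1 / ((i:ℝ) + 2)) := by ring
      _ ≤ (2:ℝ) ^ (-(1/4) * u) * ((1 + u) / (y + 2)) :=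
          mul_le_mul h1 h3 (by positivity) (by positivity)
      _ = (1 + u) * (2:ℝ) ^ (-(1/4) * u) / (y + 2) := by ring
      _ ≤ 8 / Real.log 2 * ρ ^ u / (y + 2) := div_le_div_of_nonneg_right h5 (by linarith)
      _ = _ := by ring
  calc ∑ i ∈ Finset.range I, (2:ℝ) ^ i / Y * ph ((2:ℝ) ^ i / Y) / ((i:ℝ) + 2)
      ≤ ∑ i ∈ Finset.range I, 8 / Real.log 2 / (y + 2) * ρ ^ |(i:ℝ) - y| := Finset.sum_le_sum fun i _ => hterm i
    _ = 8 / Real.log 2 / (y + 2) * ∑ i ∈ Finset.range I, ρ ^ |(i:ℝ) - y| := by rw [Finset.mul_sum]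
    _ ≤ 8 / Real.log 2 / (y + 2) * (4 / (1 - ρ)) :=
        mul_le_mul_of_nonneg_left (tele hρ0 hρ1 y I) (by positivity)
    _ = _ := by ring

/-! ## The sum over the integers with `k + 1` prime factors -/

theorem inner_sum : ∃ C D : ℝ, 0 < C ∧ 0 ≤ D ∧ ∀ X Y : ℝ, 1 ≤ X → 1 ≤ Y → ∀ k : ℕ,
    ∑ s ∈ NK (k + 1) X, ph ((s:ℝ) / Y) ≤
      C * (Y / (Real.logb 2 Y + 2)) * ((EX (2 * X) + D) ^ k / (k.factorial : ℝ)) := by
  classical
  obtain ⟨B, D, hB, hD, hHR⟩ := hardy_ramanujan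
  obtain ⟨C, hC, hgeo⟩ := geo
  have hlog2 : 0 < Real.log 2 := Real.log_pos (by norm_num)
  refine ⟨2 * B / Real.log 2 * C, D, by positivity, hD, ?_⟩
  intro X Y hX hY k
  have hY0 : 0 < Y := by linarith
  set F : ℝ := (EX (2 * X) + D) ^ k / (k.factorial : ℝ) with hF
  have hE := EX_nonneg (2 * X)
  have hF0 : 0 ≤ F := by positivity
  set I := Nat.log 2 ⌊X⌋₊ + 1 with hI
  have hmap : ∀ s ∈ NK (k + 1) X, Nat.log 2 s ∈ Finset.range I := by
    intro s hs
    rw [mem_NK] at hs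
    rw [Finset.mem_range, hI]
    have := Nat.log_mono_right (b := 2) hs.1.2
    omega
  rw [← Finset.sum_fiberwise_of_maps_to hmap]
  have hfib : ∀ i ∈ Finset.range I, ∑ s ∈ (NK (k + 1) X).filter (fun s => Nat.log 2 s = i), ph ((s:ℝ) / Y) ≤
      2 * B / Real.log 2 * F * Y * ((2:ℝ) ^ i / Y * ph ((2:ℝ) ^ i / Y) / ((i:ℝ) + 2)) := by
    intro i _
    rcases Finset.eq_empty_or_nonempty ((NK (k + 1) X).filter (fun s => Nat.log 2 s = i)) with he | ⟨s0, hs0⟩
    · rw [he, Finset.sum_empty]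
      have : 0 ≤ ph ((2:ℝ) ^ i / Y) := ph_nonneg (by positivity)
      positivity
    · rw [Finset.mem_filter, mem_NK] at hs0
      have h2iX : (2:ℝ) ^ i ≤ X := by
        have h1 : 2 ^ i ≤ s0 := by
          rw [← hs0.2]; exact Nat.pow_log_le_self 2 (by omega)
        have h2 : ((2 ^ i : ℕ) : ℝ) ≤ X := (Nat.le_floor_iff (by linarith)).1 (h1.trans hs0.1.1.2)
        exact_mod_cast h2
      have hcard : (((NK (k + 1) X).filter (fun s => Nat.log 2 s = i)).card : ℝ) ≤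
          B * ((2:ℝ) ^ (i + 1) / (((i:ℝ) + 2) * Real.log 2)) * F := by
        have h1 := hHR (2 * X) k ((2:ℝ) ^ (i + 1)) (one_le_pow₀ (by norm_num)) (by rw [pow_succ]; linarith)
        have h2 : Real.log (2 * (2:ℝ) ^ (i + 1)) = ((i:ℝ) + 2) * Real.log 2 := by
          rw [← pow_succ', Real.log_pow]; push_cast; ring
        rw [h2] at h1
        refine le_trans ?_ h1
        have h3 : (NK (k + 1) X).filter (fun s => Nat.log 2 s = i) ⊆ NK (k + 1) ((2:ℝ) ^ (i + 1)) := by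
          intro s hs
          rw [Finset.mem_filter, mem_NK] at hs
          rw [mem_NK]
          refine ⟨⟨hs.1.1.1, ?_⟩, hs.1.2⟩
          apply Nat.le_floor
          have h4 : s < 2 ^ (i + 1) := by rw [← hs.2]; exact Nat.lt_pow_succ_log_self (by norm_num) s
          exact_mod_cast h4.le
        exact_mod_cast Finset.card_le_card h3
      have hph : ∀ s ∈ (NK (k + 1) X).filter (fun s => Nat.log 2 s = i), ph ((s:ℝ) / Y) ≤ ph ((2:ℝ) ^ i / Y) := by
        intro s hs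
        rw [Finset.mem_filter, mem_NK] at hs
        apply ph_anti (by positivity)
        apply div_le_div_of_nonneg_right _ hY0.le
        have h1 : 2 ^ i ≤ s := by
          rw [← hs.2]; exact Nat.pow_log_le_self 2 (by omega)
        exact_mod_cast h1
      have hph0 : 0 ≤ ph ((2:ℝ) ^ i / Y) := ph_nonneg (by positivity)
      calc ∑ s ∈ (NK (k + 1) X).filter (fun s => Nat.log 2 s = i), ph ((s:ℝ) / Y)
          ≤ ∑ _s ∈ (NK (k + 1) X).filter (fun s => Nat.log 2 s = i), ph ((2:ℝ) ^ i / Y) := Finset.sum_le_sum hph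
        _ = (((NK (k + 1) X).filter (fun s => Nat.log 2 s = i)).card : ℝ) * ph ((2:ℝ) ^ i / Y) := by
            rw [Finset.sum_const, nsmul_eq_mul]
        _ ≤ B * ((2:ℝ) ^ (i + 1) / (((i:ℝ) + 2) * Real.log 2)) * F * ph ((2:ℝ) ^ i / Y) :=
            mul_le_mul_of_nonneg_right hcard hph0
        _ = _ := by
            rw [pow_succ]
            field_simp
  calc ∑ i ∈ Finset.range I, ∑ s ∈ (NK (k + 1) X).filter (fun s => Nat.log 2 s = i), ph ((s:ℝ) / Y)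
      ≤ ∑ i ∈ Finset.range I, 2 * B / Real.log 2 * F * Y * ((2:ℝ) ^ i / Y * ph ((2:ℝ) ^ i / Y) / ((i:ℝ) + 2)) :=
        Finset.sum_le_sum hfib
    _ = 2 * B / Real.log 2 * F * Y * ∑ i ∈ Finset.range I, ((2:ℝ) ^ i / Y * ph ((2:ℝ) ^ i / Y) / ((i:ℝ) + 2)) := by
        rw [Finset.mul_sum]
    _ ≤ 2 * B / Real.log 2 * F * Y * (C / (Real.logb 2 Y + 2)) :=
        mul_le_mul_of_nonneg_left (hgeo Y hY I) (by positivity)
    _ = _ := by ring

/-! ## The whole sum -/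

/-- the size of a coefficient times `l` -/
noncomputable def tt (l : ℝ) (s : ℕ) : ℝ := l * 2 ^ s.primeFactors.card * (s:ℝ) ^ (-(3/4):ℝ)

lemma zz_pos'' : 0 < zz := by unfold zz; positivity

lemma tt_eq {l : ℝ} (hl : 0 < l) {s k : ℕ} (hs : 1 ≤ s) (hk : s.primeFactors.card = k) :
    min (tt l s) ((tt l s) ^ 2) = ph ((s:ℝ) / (l ^ (4/3:ℝ) * zz ^ k)) := by
  have hs0 : (0:ℝ) < s := by exact_mod_cast hs
  have hz := zz_pos''
  have h1 : tt l s = ((s:ℝ) / (l ^ (4/3:ℝ) * zz ^ k)) ^ (-(3/4):ℝ) := by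
    unfold tt
    rw [hk, Real.div_rpow hs0.le (by positivity), Real.mul_rpow (by positivity) (by positivity),
      ← Real.rpow_mul hl.le]
    have h2 : (zz ^ k) ^ (-(3/4):ℝ) = ((2:ℝ) ^ k)⁻¹ := by
      have h0 : (0:ℝ) ≤ 2 := by norm_num
      unfold zz
      rw [← Real.rpow_natCast (2 ^ (4/3:ℝ)) k, ← Real.rpow_mul h0, ← Real.rpow_mul h0,
        ← Real.rpow_natCast 2 k, ← Real.rpow_neg h0]
      congr 1
      ring
    have h3 : l ^ ((4/3:ℝ) * (-(3/4))) = l⁻¹ := by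
      rw [show (4/3:ℝ) * (-(3/4)) = -1 by norm_num, Real.rpow_neg_one]
    rw [h2, h3]
    field_simp
  unfold ph
  rw [h1]
  congr 1
  rw [← Real.rpow_natCast, ← Real.rpow_mul (by positivity)]
  norm_num

lemma card_pf_le {s : ℕ} (hs : Squarefree s) : (2:ℝ) ^ s.primeFactors.card = (s.divisors.card : ℝ) := by
  have h1 : s.divisors.card = 2 ^ s.primeFactors.card := by
    rw [Nat.card_divisors hs.ne_zero]
    rw [Finset.prod_congr rfl (g := fun _ => 2) (fun p hp => by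
      have := (Nat.squarefree_iff_factorization_le_one hs.ne_zero).1 hs p
      have h2 := (Nat.prime_of_mem_primeFactors hp).factorization_pos_of_dvd hs.ne_zero (Nat.dvd_of_mem_primeFactors hp)
      omega)]
    rw [Finset.prod_const]
  rw [h1]; push_cast; rfl

theorem sum_min : ∃ C : ℝ, 0 < C ∧ ∀ l : ℝ, 3 ≤ l → ∀ T : Finset ℕ, (∀ s ∈ T, Ad s) →
    ∑ s ∈ T, min (tt l s) ((tt l s) ^ 2) ≤ C * (l ^ (4/3:ℝ) * (Real.log l) ^ (zz / 2 - 1)) := by
  classical
  obtain ⟨C1, D, hC1, hD, hin⟩ := inner_sum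
  obtain ⟨C2, hC2, hE⟩ := EX_le
  obtain ⟨C3, hC3, hdiv⟩ := Pool.Agent.Helper112.divisor_bound (1/16) (by norm_num)
  have hz := zz_pos''
  have hzz2 : 1 ≤ zz / 2 := by
    unfold zz
    have : (2:ℝ) ≤ 2 ^ (4/3:ℝ) := by
      calc (2:ℝ) = 2 ^ (1:ℝ) := (Real.rpow_one 2).symm
        _ ≤ 2 ^ (4/3:ℝ) := Real.rpow_le_rpow_of_exponent_le (by norm_num) (by norm_num)
    linarith
  set S9 : ℝ := ∑' s : ℕ, (s:ℝ) ^ (-(9/8):ℝ) with hS9
  have hsum9 : Summable fun s : ℕ => (s:ℝ) ^ (-(9/8):ℝ) := Real.summable_nat_rpow.mpr (by norm_num)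
  have hS90 : 0 ≤ S9 := tsum_nonneg fun s => by positivity
  -- the final constant
  set G : ℝ := C1 * zz * Real.exp (zz * (Real.log 9 / 2 + C2 + D)) with hG
  have hG0 : 0 < G := by positivity
  refine ⟨C3 ^ 2 * S9 + 1 + G, by positivity, ?_⟩
  intro l hl T hT
  have hl0 : 0 < l := by linarith
  have hl1 : 1 ≤ l := by linarith
  have hll : 1 ≤ Real.log l := by
    rw [Real.le_log_iff_exp_le hl0]
    have := Real.exp_one_lt_d9
    linarith
  set Λ : ℝ := l ^ (4/3:ℝ) * (Real.log l) ^ (zz / 2 - 1) with hΛ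
  have hpow1 : 1 ≤ (Real.log l) ^ (zz / 2 - 1) := Real.one_le_rpow hll (by linarith)
  have hl43 : l ≤ l ^ (4/3:ℝ) := by
    calc l = l ^ (1:ℝ) := (Real.rpow_one l).symm
      _ ≤ _ := Real.rpow_le_rpow_of_exponent_le hl1 (by norm_num)
  have hΛl : l ≤ Λ := by
    rw [hΛ]
    have : 0 < l ^ (4/3:ℝ) := by positivity
    nlinarith
  have hΛ1 : 1 ≤ Λ := hl1.trans hΛl
  set X : ℝ := l ^ 8 with hX
  have hX1 : 1 ≤ X := one_le_pow₀ hl1
  have hXl : l ≤ X := by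
    rw [hX]; exact le_self_pow₀ hl1 (by norm_num)
  set f : ℕ → ℝ := fun s => min (tt l s) ((tt l s) ^ 2) with hf
  have htt0 : ∀ s, 0 ≤ tt l s := fun s => by unfold tt; positivity
  have hf0 : ∀ s, 0 ≤ f s := fun s => le_min (htt0 s) (sq_nonneg _)
  rw [← Finset.sum_filter_add_sum_filter_not T (fun s : ℕ => (s:ℝ) ≤ X)]
  -- large `s`
  have hlarge : ∑ s ∈ T.filter (fun s : ℕ => ¬ (s:ℝ) ≤ X), f s ≤ C3 ^ 2 * S9 := by
    calc ∑ s ∈ T.filter (fun s : ℕ => ¬ (s:ℝ) ≤ X), f s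
        ≤ ∑ s ∈ T.filter (fun s : ℕ => ¬ (s:ℝ) ≤ X), C3 ^ 2 * (s:ℝ) ^ (-(9/8):ℝ) := by
          apply Finset.sum_le_sum
          intro s hs
          rw [Finset.mem_filter, not_le] at hs
          have hsf := (hT s hs.1).1
          have hs1 : 1 ≤ s := Nat.one_le_iff_ne_zero.2 hsf.ne_zero
          have hs0 : (0:ℝ) < s := by exact_mod_cast hs1
          have h1 : (2:ℝ) ^ s.primeFactors.card ≤ C3 * (s:ℝ) ^ (1/16:ℝ) := by
            rw [card_pf_le hsf]; exact hdiv s hs1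
          have h2 : tt l s ≤ l * (C3 * (s:ℝ) ^ (1/16:ℝ)) * (s:ℝ) ^ (-(3/4):ℝ) := by
            unfold tt
            gcongr
          have h3 : (tt l s) ^ 2 ≤ (l * (C3 * (s:ℝ) ^ (1/16:ℝ)) * (s:ℝ) ^ (-(3/4):ℝ)) ^ 2 :=
            pow_le_pow_left₀ (htt0 s) h2 2
          have h4 : (l * (C3 * (s:ℝ) ^ (1/16:ℝ)) * (s:ℝ) ^ (-(3/4):ℝ)) ^ 2 =
              C3 ^ 2 * (s:ℝ) ^ (-(9/8):ℝ) * (l ^ 2 * (s:ℝ) ^ (-(1/4):ℝ)) := by
            have e1 : ((s:ℝ) ^ (1/16:ℝ)) ^ 2 = (s:ℝ) ^ (1/8:ℝ) := by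
              rw [← Real.rpow_natCast, ← Real.rpow_mul hs0.le]; norm_num
            have e2 : ((s:ℝ) ^ (-(3/4):ℝ)) ^ 2 = (s:ℝ) ^ (-(3/2):ℝ) := by
              rw [← Real.rpow_natCast, ← Real.rpow_mul hs0.le]; norm_num
            have e3 : (s:ℝ) ^ (-(9/8):ℝ) * (s:ℝ) ^ (-(1/4):ℝ) = (s:ℝ) ^ (1/8:ℝ) * (s:ℝ) ^ (-(3/2):ℝ) := by
              rw [← Real.rpow_add hs0, ← Real.rpow_add hs0]; norm_num
            calc (l * (C3 * (s:ℝ) ^ (1/16:ℝ)) * (s:ℝ) ^ (-(3/4):ℝ)) ^ 2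
                = l ^ 2 * C3 ^ 2 * (((s:ℝ) ^ (1/16:ℝ)) ^ 2 * ((s:ℝ) ^ (-(3/4):ℝ)) ^ 2) := by ring
              _ = l ^ 2 * C3 ^ 2 * ((s:ℝ) ^ (-(9/8):ℝ) * (s:ℝ) ^ (-(1/4):ℝ)) := by rw [e1, e2, e3]
              _ = _ := by ring
          have h5 : l ^ 2 * (s:ℝ) ^ (-(1/4):ℝ) ≤ 1 := by
            have e1 : (s:ℝ) ^ (-(1/4):ℝ) ≤ X ^ (-(1/4):ℝ) :=
              Real.rpow_le_rpow_of_nonpos (by positivity) hs.2.le (by norm_num)
            have e2 : X ^ (-(1/4):ℝ) = (l ^ 2)⁻¹ := by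
              rw [hX, ← Real.rpow_natCast l 8, ← Real.rpow_mul hl0.le, ← Real.rpow_natCast l 2, ← Real.rpow_neg hl0.le]
              norm_num
            rw [e2] at e1
            calc l ^ 2 * (s:ℝ) ^ (-(1/4):ℝ) ≤ l ^ 2 * (l ^ 2)⁻¹ := mul_le_mul_of_nonneg_left e1 (by positivity)
              _ = 1 := mul_inv_cancel₀ (by positivity)
          calc f s ≤ (tt l s) ^ 2 := min_le_right _ _
            _ ≤ C3 ^ 2 * (s:ℝ) ^ (-(9/8):ℝ) * (l ^ 2 * (s:ℝ) ^ (-(1/4):ℝ)) := h3.trans h4.le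
            _ ≤ C3 ^ 2 * (s:ℝ) ^ (-(9/8):ℝ) * 1 := mul_le_mul_of_nonneg_left h5 (by positivity)
            _ = _ := mul_one _
      _ = C3 ^ 2 * ∑ s ∈ T.filter (fun s : ℕ => ¬ (s:ℝ) ≤ X), (s:ℝ) ^ (-(9/8):ℝ) := by rw [Finset.mul_sum]
      _ ≤ _ := by
          apply mul_le_mul_of_nonneg_left _ (by positivity)
          exact hsum9.sum_le_tsum _ fun s _ => by positivity
  -- small `s`
  set KK := ⌊X⌋₊ + 2 with hKK
  have hmap : ∀ s ∈ T.filter (fun s : ℕ => (s:ℝ) ≤ X), s.primeFactors.card ∈ Finset.range KK := by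
    intro s hs
    rw [Finset.mem_filter] at hs
    rw [Finset.mem_range, hKK]
    have h1 : s ≤ ⌊X⌋₊ := Nat.le_floor hs.2
    have h2 : s.primeFactors ⊆ Finset.Icc 1 s := by
      intro p hp
      rw [Nat.mem_primeFactors] at hp
      rw [Finset.mem_Icc]
      exact ⟨hp.1.one_le, Nat.le_of_dvd (Nat.pos_of_ne_zero hp.2.2) hp.2.1⟩
    have h3 := Finset.card_le_card h2
    rw [Nat.card_Icc] at h3
    omega
  have hsmall : ∑ s ∈ T.filter (fun s : ℕ => (s:ℝ) ≤ X), f s ≤ l + G * Λ := by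
    rw [← Finset.sum_fiberwise_of_maps_to hmap]
    have hsub : ∀ k, (T.filter (fun s : ℕ => (s:ℝ) ≤ X)).filter (fun s => s.primeFactors.card = k) ⊆ NK k X := by
      intro k s hs
      rw [Finset.mem_filter, Finset.mem_filter] at hs
      rw [mem_NK]
      exact ⟨⟨Nat.one_le_iff_ne_zero.2 (hT s hs.1.1).1.ne_zero, Nat.le_floor hs.1.2⟩, hT s hs.1.1, hs.2⟩
    have h1 : ∀ k, ∑ s ∈ (T.filter (fun s : ℕ => (s:ℝ) ≤ X)).filter (fun s => s.primeFactors.card = k), f s ≤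
        ∑ s ∈ NK k X, f s := fun k => Finset.sum_le_sum_of_subset_of_nonneg (hsub k) fun s _ _ => hf0 s
    have h0 : ∑ s ∈ NK 0 X, f s ≤ l := by
      have h2 : NK 0 X ⊆ {1} := by
        intro s hs
        rw [mem_NK] at hs
        rw [Finset.mem_singleton]
        have h3 := hs.2.2
        rw [Finset.card_eq_zero, Nat.primeFactors_eq_empty] at h3
        omega
      calc ∑ s ∈ NK 0 X, f s ≤ ∑ s ∈ ({1} : Finset ℕ), f s :=
            Finset.sum_le_sum_of_subset_of_nonneg h2 fun s _ _ => hf0 s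
        _ = f 1 := Finset.sum_singleton _ _
        _ ≤ tt l 1 := min_le_left _ _
        _ = l := by unfold tt; simp
    set y0 := Real.logb 2 (l ^ (4/3:ℝ)) + 2 with hy0
    have hl43' : 1 ≤ l ^ (4/3:ℝ) := hl1.trans hl43
    have hy02 : 0 < y0 := by
      have := Real.logb_nonneg (by norm_num : (1:ℝ) < 2) hl43'
      rw [hy0]; linarith
    set E := EX (2 * X) + D with hEd
    have hE0 : 0 ≤ E := by have := EX_nonneg (2 * X); rw [hEd]; linarith
    have hzz1 : 1 ≤ zz := by linarith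
    have hk : ∀ k, ∑ s ∈ NK (k + 1) X, f s ≤ C1 * (l ^ (4/3:ℝ) * zz / y0) * ((zz * E) ^ k / (k.factorial : ℝ)) := by
      intro k
      have h2 : ∑ s ∈ NK (k + 1) X, f s = ∑ s ∈ NK (k + 1) X, ph ((s:ℝ) / (l ^ (4/3:ℝ) * zz ^ (k + 1))) := by
        apply Finset.sum_congr rfl
        intro s hs
        rw [mem_NK] at hs
        exact tt_eq hl0 hs.1.1 hs.2.2
      rw [h2]
      have hzk : 1 ≤ zz ^ (k + 1) := one_le_pow₀ hzz1
      have hYY : 1 ≤ l ^ (4/3:ℝ) * zz ^ (k + 1) := by nlinarith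
      refine (hin X _ hX1 hYY k).trans ?_
      have h3 : y0 ≤ Real.logb 2 (l ^ (4/3:ℝ) * zz ^ (k + 1)) + 2 := by
        rw [hy0]
        have : Real.logb 2 (l ^ (4/3:ℝ)) ≤ Real.logb 2 (l ^ (4/3:ℝ) * zz ^ (k + 1)) := by
          apply Real.logb_le_logb_of_le (by norm_num) (by positivity)
          nlinarith
        linarith
      have h4 : l ^ (4/3:ℝ) * zz ^ (k + 1) / (Real.logb 2 (l ^ (4/3:ℝ) * zz ^ (k + 1)) + 2) ≤
          l ^ (4/3:ℝ) * zz ^ (k + 1) / y0 := div_le_div_of_nonneg_left (by positivity) hy02 h3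
      calc C1 * (l ^ (4/3:ℝ) * zz ^ (k + 1) / (Real.logb 2 (l ^ (4/3:ℝ) * zz ^ (k + 1)) + 2)) * (E ^ k / (k.factorial : ℝ))
          ≤ C1 * (l ^ (4/3:ℝ) * zz ^ (k + 1) / y0) * (E ^ k / (k.factorial : ℝ)) := by
            gcongr
        _ = _ := by rw [mul_pow, pow_succ]; ring
    have hEb : E ≤ 1/2 * Real.log (Real.log l) + (Real.log 9 / 2 + C2 + D) := by
      have h2 := hE (2 * X) (by linarith)
      have h3 : Real.log (2 * X) ≤ 9 * Real.log l := by
        rw [hX, Real.log_mul (by norm_num) (by positivity), Real.log_pow]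
        have : Real.log 2 ≤ Real.log l := Real.log_le_log (by norm_num) (by linarith)
        push_cast
        linarith
      have h4 : Real.log (Real.log (2 * X)) ≤ Real.log 9 + Real.log (Real.log l) := by
        rw [← Real.log_mul (by norm_num) (by linarith)]
        apply Real.log_le_log _ h3
        apply Real.log_pos
        linarith
      rw [hEd]
      linarith
    have hexp : Real.exp (zz * E) ≤ (Real.log l) ^ (zz / 2) * Real.exp (zz * (Real.log 9 / 2 + C2 + D)) := by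
      rw [Real.rpow_def_of_pos (by linarith), ← Real.exp_add]
      apply Real.exp_le_exp.2
      have := mul_le_mul_of_nonneg_left hEb hz.le
      calc zz * E ≤ zz * (1/2 * Real.log (Real.log l) + (Real.log 9 / 2 + C2 + D)) := this
        _ = _ := by ring
    have hy0l : Real.log l ≤ y0 := by
      rw [hy0]
      have h2 : Real.logb 2 (l ^ (4/3:ℝ)) = 4/3 * Real.log l / Real.log 2 := by
        rw [Real.logb, Real.log_rpow hl0]
      rw [h2]
      have hlog2 : 0 < Real.log 2 := Real.log_pos (by norm_num)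
      have hlog2' : Real.log 2 < 1 := by
        have := Real.log_two_lt_d9
        linarith
      have h3 : Real.log l ≤ 4/3 * Real.log l / Real.log 2 := by
        rw [le_div_iff₀ hlog2]; nlinarith
      linarith
    calc ∑ k ∈ Finset.range KK, ∑ s ∈ (T.filter (fun s : ℕ => (s:ℝ) ≤ X)).filter (fun s => s.primeFactors.card = k), f s
        ≤ ∑ k ∈ Finset.range KK, ∑ s ∈ NK k X, f s := Finset.sum_le_sum fun k _ => h1 k
      _ = ∑ k ∈ Finset.range (⌊X⌋₊ + 1), ∑ s ∈ NK (k + 1) X, f s + ∑ s ∈ NK 0 X, f s := by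
          rw [hKK, show ⌊X⌋₊ + 2 = (⌊X⌋₊ + 1) + 1 by ring, Finset.sum_range_succ']
      _ ≤ ∑ k ∈ Finset.range (⌊X⌋₊ + 1), C1 * (l ^ (4/3:ℝ) * zz / y0) * ((zz * E) ^ k / (k.factorial : ℝ)) + l :=
          add_le_add (Finset.sum_le_sum fun k _ => hk k) h0
      _ = C1 * (l ^ (4/3:ℝ) * zz / y0) * ∑ k ∈ Finset.range (⌊X⌋₊ + 1), (zz * E) ^ k / (k.factorial : ℝ) + l := by
          rw [Finset.mul_sum]
      _ ≤ C1 * (l ^ (4/3:ℝ) * zz / y0) * Real.exp (zz * E) + l := by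
          have := Real.sum_le_exp_of_nonneg (x := zz * E) (by positivity) (⌊X⌋₊ + 1)
          have h5 : 0 ≤ C1 * (l ^ (4/3:ℝ) * zz / y0) := by positivity
          have := mul_le_mul_of_nonneg_left this h5
          linarith
      _ ≤ C1 * (l ^ (4/3:ℝ) * zz / Real.log l) * ((Real.log l) ^ (zz / 2) * Real.exp (zz * (Real.log 9 / 2 + C2 + D))) + l := by
          have h6 : l ^ (4/3:ℝ) * zz / y0 ≤ l ^ (4/3:ℝ) * zz / Real.log l :=
            div_le_div_of_nonneg_left (by positivity) (by linarith) hy0l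
          have h7 : 0 < l ^ (4/3:ℝ) * zz / Real.log l := by positivity
          have h8 : C1 * (l ^ (4/3:ℝ) * zz / y0) * Real.exp (zz * E) ≤
              C1 * (l ^ (4/3:ℝ) * zz / Real.log l) * ((Real.log l) ^ (zz / 2) * Real.exp (zz * (Real.log 9 / 2 + C2 + D))) :=
            mul_le_mul (mul_le_mul_of_nonneg_left h6 hC1.le) hexp (Real.exp_pos _).le (by positivity)
          linarith
      _ = l + G * Λ := by
          rw [hG, hΛ, Real.rpow_sub (by linarith), Real.rpow_one]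
          ring
  have : C3 ^ 2 * S9 ≤ C3 ^ 2 * S9 * Λ := le_mul_of_one_le_right (by positivity) hΛ1
  calc _ ≤ (l + G * Λ) + C3 ^ 2 * S9 := add_le_add hsmall hlarge
    _ ≤ _ := by nlinarith

end Pool.Agent.W2helper40.MX
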