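import Mathlib
import Pool.Agent.H383.GaussW
import Pool.Agent.H383.Reg
import Pool.Agent.W2helper40.MX.Block

/-!
# The coefficients of the circle problem on a square class
-/

set_option autoImplicit false

open Real
open Pool.Agent.H383.Gauss Pool.Agent.H383.Circ Pool.Agent.H383.AP
open Pool.Agent.H383.Gen (bT bT_nonneg)

namespace Pool.Agent.W2helper40.MX

lemma rA_zero {s t : ℕ} (hs : Squarefree s) (ht : 1 ≤ t) {p : ℕ} (hp : p ∈ s.primeFactors) (h3 : p % 4 = 3) :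
    rA (s * t ^ 2) = 0 := by
  unfold rA
  by_contra hne
  have h1 : (A (s * t ^ 2)).ncard ≠ 0 := fun h => hne (by rw [h]; simp)
  obtain ⟨z, hz⟩ := Set.nonempty_of_ncard_ne_zero h1
  rw [mem_A, norm_eq] at hz
  have hpp := Nat.prime_of_mem_primeFactors hp
  have : Fact p.Prime := ⟨hpp⟩
  have h2 : ∃ x y : ℕ, s * t ^ 2 = x ^ 2 + y ^ 2 := by
    refine ⟨z.re.natAbs, z.im.natAbs, ?_⟩
    have h4 : ((s * t ^ 2 : ℕ) : ℤ) = ((z.re.natAbs ^ 2 + z.im.natAbs ^ 2 : ℕ) : ℤ) := by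
      rw [← hz]
      push_cast
      rw [sq_abs, sq_abs]
    exact_mod_cast h4
  rw [Nat.eq_sq_add_sq_iff] at h2
  have hps := Nat.dvd_of_mem_primeFactors hp
  have hs0 := hs.ne_zero
  have ht0 : t ≠ 0 := by omega
  have h5 := h2 p (by
    rw [Nat.mem_primeFactors]
    exact ⟨hpp, hps.mul_right _, by positivity⟩) h3
  rw [padicValNat.mul hs0 (by positivity), padicValNat.pow t 2] at h5
  have h6 : padicValNat p s = 1 := by
    rw [← Nat.factorization_def s hpp]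
    have h7 := (Nat.squarefree_iff_factorization_le_one hs0).1 hs p
    have h8 := hpp.factorization_pos_of_dvd hs0 hps
    omega
  rw [h6] at h5
  obtain ⟨r, hr⟩ := h5
  omega

open scoped Pointwise in
lemma rA_le {s t : ℕ} (hs : Squarefree s) (ht : 1 ≤ t) :
    rA (s * t ^ 2) ≤ 4 * (2 ^ s.primeFactors.card * ((t ^ 2).divisors.card : ℝ)) := by
  have hs1 : 1 ≤ s := Nat.one_le_iff_ne_zero.2 hs.ne_zero
  have h1 := card_A_le (s * t ^ 2) (Nat.mul_pos hs1 (by positivity))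
  have h2 : (s * t ^ 2).divisors.card ≤ s.divisors.card * (t ^ 2).divisors.card := by
    rw [Nat.divisors_mul]
    exact Finset.card_mul_le
  rw [card_pf_le hs]
  unfold rA
  have h3 : (A (s * t ^ 2)).ncard ≤ 4 * (s.divisors.card * (t ^ 2).divisors.card) := h1.trans (Nat.mul_le_mul_left 4 h2)
  exact_mod_cast h3

open Classical in
/-- the bound for the coefficients of a square class -/
noncomputable def be (C : ℝ) (s : ℕ) : ℝ := if Ad s then C * 2 ^ s.primeFactors.card * (s:ℝ) ^ (-(3/4):ℝ) else 0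

lemma be_nonneg {C : ℝ} (hC : 0 ≤ C) (s : ℕ) : 0 ≤ be C s := by
  unfold be
  split_ifs
  · positivity
  · exact le_rfl

theorem bT_ag : ∃ C : ℝ, 1 ≤ C ∧ ∀ s : ℕ, Squarefree s → ∀ T : Finset ℕ, (∀ m ∈ T, 1 ≤ m ∧ InC s m) →
    bT ag T ≤ be C s := by
  classical
  obtain ⟨C1, hC1, hdiv⟩ := Pool.Agent.Helper112.divisor_bound (1/8) (by norm_num)
  have hsum : Summable fun t : ℕ => (t:ℝ) ^ (-(5/4):ℝ) := Real.summable_nat_rpow.mpr (by norm_num)
  set S : ℝ := ∑' t : ℕ, (t:ℝ) ^ (-(5/4):ℝ) with hS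
  have hS0 : 0 ≤ S := tsum_nonneg fun t => by positivity
  have hpi := Real.pi_pos
  set C : ℝ := 4 / π * C1 * S with hC
  have hC0 : 0 ≤ C := by positivity
  refine ⟨max C 1, le_max_right _ _, ?_⟩
  intro s hs T hT
  have hs1 : 1 ≤ s := Nat.one_le_iff_ne_zero.2 hs.ne_zero
  have hs0 : (0:ℝ) < s := by exact_mod_cast hs1
  choose! f hf using fun m (hm : m ∈ T) => (hT m hm).2
  have hinj : Set.InjOn f T := by
    intro m hm m' hm' h
    rw [hf m hm, hf m' hm', h]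
  have hf0 : ∀ m ∈ T, 1 ≤ f m := by
    intro m hm
    by_contra h
    have h0 : f m = 0 := by omega
    have h1 := hf m hm
    have h2 := (hT m hm).1
    rw [h0] at h1
    simp at h1
    omega
  unfold bT be
  split_ifs with hA
  · have h1 : ∀ m ∈ T, |ag m| ≤ (4 / π * C1 * 2 ^ s.primeFactors.card * (s:ℝ) ^ (-(3/4):ℝ)) * ((f m : ℕ) : ℝ) ^ (-(5/4):ℝ) := by
      intro m hm
      have hm0 : (0:ℝ) < m := by exact_mod_cast (hT m hm).1
      have hfm : (0:ℝ) < f m := by exact_mod_cast hf0 m hm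
      rw [abs_of_nonneg (ag_nonneg m)]
      unfold ag
      have h3 : (√(m:ℝ)) ^ (-(3/2):ℝ) = (m:ℝ) ^ (-(3/4):ℝ) := by
        rw [Real.sqrt_eq_rpow, ← Real.rpow_mul hm0.le]; norm_num
      rw [h3]
      have h4 : (m:ℝ) = (s:ℝ) * ((f m : ℕ):ℝ) ^ 2 := by exact_mod_cast hf m hm
      have h5 : (m:ℝ) ^ (-(3/4):ℝ) = (s:ℝ) ^ (-(3/4):ℝ) * ((f m : ℕ) : ℝ) ^ (-(3/2):ℝ) := by
        rw [h4, Real.mul_rpow hs0.le (by positivity), ← Real.rpow_natCast, ← Real.rpow_mul hfm.le]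
        norm_num
      have h6 : rA m ≤ 4 * (2 ^ s.primeFactors.card * (C1 * ((f m : ℕ) : ℝ) ^ (1/4:ℝ))) := by
        have e : rA m = rA (s * f m ^ 2) := congrArg rA (hf m hm)
        rw [e]
        refine (rA_le hs (hf0 m hm)).trans ?_
        have h7 := hdiv (f m ^ 2) (Nat.one_le_pow _ _ (hf0 m hm))
        have h8 : (((f m) ^ 2 : ℕ) : ℝ) ^ (1/8:ℝ) = ((f m : ℕ) : ℝ) ^ (1/4:ℝ) := by
          push_cast
          rw [← Real.rpow_natCast, ← Real.rpow_mul hfm.le]; norm_num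
        rw [h8] at h7
        gcongr
      rw [h5]
      have h9 : ((f m : ℕ) : ℝ) ^ (1/4:ℝ) * ((f m : ℕ) : ℝ) ^ (-(3/2):ℝ) = ((f m : ℕ) : ℝ) ^ (-(5/4):ℝ) := by
        rw [← Real.rpow_add hfm]; norm_num
      calc rA m / π * ((s:ℝ) ^ (-(3/4):ℝ) * ((f m : ℕ) : ℝ) ^ (-(3/2):ℝ))
          ≤ 4 * (2 ^ s.primeFactors.card * (C1 * ((f m : ℕ) : ℝ) ^ (1/4:ℝ))) / π * ((s:ℝ) ^ (-(3/4):ℝ) * ((f m : ℕ) : ℝ) ^ (-(3/2):ℝ)) := by
            gcongr
        _ = (4 / π * C1 * 2 ^ s.primeFactors.card * (s:ℝ) ^ (-(3/4):ℝ)) * (((f m : ℕ) : ℝ) ^ (1/4:ℝ) * ((f m : ℕ) : ℝ) ^ (-(3/2):ℝ)) := by ring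
        _ = _ := by rw [h9]
    calc ∑ m ∈ T, |ag m| ≤ ∑ m ∈ T, (4 / π * C1 * 2 ^ s.primeFactors.card * (s:ℝ) ^ (-(3/4):ℝ)) * ((f m : ℕ) : ℝ) ^ (-(5/4):ℝ) :=
          Finset.sum_le_sum h1
      _ = (4 / π * C1 * 2 ^ s.primeFactors.card * (s:ℝ) ^ (-(3/4):ℝ)) * ∑ m ∈ T, ((f m : ℕ) : ℝ) ^ (-(5/4):ℝ) := by rw [Finset.mul_sum]
      _ = (4 / π * C1 * 2 ^ s.primeFactors.card * (s:ℝ) ^ (-(3/4):ℝ)) * ∑ t ∈ T.image f, ((t : ℕ) : ℝ) ^ (-(5/4):ℝ) := by
          rw [Finset.sum_image hinj]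
      _ ≤ (4 / π * C1 * 2 ^ s.primeFactors.card * (s:ℝ) ^ (-(3/4):ℝ)) * S := by
          apply mul_le_mul_of_nonneg_left _ (by positivity)
          exact hsum.sum_le_tsum _ (fun t _ => by positivity)
      _ = C * 2 ^ s.primeFactors.card * (s:ℝ) ^ (-(3/4):ℝ) := by rw [hC]; ring
      _ ≤ max C 1 * 2 ^ s.primeFactors.card * (s:ℝ) ^ (-(3/4):ℝ) := by
          have := le_max_left C 1
          gcongr
  · apply le_of_eq
    apply Finset.sum_eq_zero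
    intro m hm
    have h1 : ∃ p ∈ s.primeFactors, p % 4 = 3 := by
      by_contra h
      push Not at h
      exact hA ⟨hs, h⟩
    obtain ⟨p, hp, h3⟩ := h1
    rw [hf m hm]
    unfold ag
    rw [rA_zero hs (hf0 m hm) hp h3]
    simp

end Pool.Agent.W2helper40.MX
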