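import Mathlib
import Pool.Agent.W2helper40.MX.Coef
import Pool.Agent.W2helper40.MX.ZZb

/-!
# Sharp bounds for the exponential moments and the moments of growing order
-/

set_option autoImplicit false

open Filter Topology
open Pool.Agent.H383.AP Pool.Agent.H383.Gauss
open Pool.Agent.H383.Gen
open Pool.Agent.H469R2.NK (e norm_e e_add conj_e e_zero)
open Pool.Agent.Y969.TM
open Pool.Agent.H383.Circ (ag ag_nonneg)
open Pool.Agent.H452R2.Om (zz)

namespace Pool.Agent.W2helper40.MX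

lemma min_sq_mono {u v : ℝ} (hu : 0 ≤ u) (h : u ≤ v) : min u (u ^ 2) ≤ min v (v ^ 2) :=
  min_le_min h (pow_le_pow_left₀ hu h 2)

open Classical in
/-- exponential moments -/
theorem mgf_sharp {a : ℕ → ℝ} {φ α X : ℝ} {S0 : Finset ℕ} (hS : GoodS α S0) (β : ℕ → ℝ) (hβ0 : ∀ s, 0 ≤ β s)
    (hβ : ∀ s : ℕ, Squarefree s → ∀ T : Finset ℕ, (∀ m ∈ T, 1 ≤ m ∧ InC s m) → bT a T ≤ β s) (l : ℝ) (M : ℕ) :
    ‖mn (ex a φ α X (l:ℂ) (Finset.Icc 1 (M^2)))‖ ≤ Real.exp ((∑ s ∈ S0, β s) * |l| +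
      ∑ s ∈ (Finset.Icc 1 (M^2)).filter Squarefree, min (|l| * β s) ((|l| * β s) ^ 2)) := by
  set Q := (Finset.Icc 1 (M^2)).filter (fun s => Squarefree s ∧ s ∉ S0) with hQ
  have hQ' : ∀ s ∈ Q, Squarefree s ∧ s ∉ S0 := fun s hs => (Finset.mem_filter.mp hs).2
  rw [prod_formula (a := a) (φ := φ) (X := X) hS (l:ℂ) (T := Finset.Icc 1 (M^2))
    (fun m hm => (Finset.mem_Icc.mp hm).1) Q hQ', norm_mul, norm_prod]
  set Tr := (Finset.Icc 1 (M^2)).filter (fun m => ∀ s ∈ Q, ¬ InC s m) with hTr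
  have h1 : ‖mn (ex a φ α X (l:ℂ) Tr)‖ ≤ Real.exp ((∑ s ∈ S0, β s) * |l|) := by
    apply mn_norm_le (ex_UC_top _) (Real.exp_pos _).le
    intro n
    unfold ex
    rw [Complex.norm_exp]
    apply Real.exp_le_exp.mpr
    have e : ((l:ℂ) * ((ST a φ α X Tr n : ℝ) : ℂ)).re = l * ST a φ α X Tr n := by
      rw [← Complex.ofReal_mul, Complex.ofReal_re]
    rw [e]
    have hbTr : bT a Tr ≤ ∑ s ∈ S0, β s := by
      have hsub : ∀ m ∈ Tr, ∃ s ∈ S0.filter Squarefree, InC s m := by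
        intro m hm
        rw [hTr, Finset.mem_filter, Finset.mem_Icc] at hm
        obtain ⟨s, t, hst, hsf⟩ := Nat.sq_mul_squarefree m
        have hc : InC s m := ⟨t, by rw [← hst]; ring⟩
        refine ⟨s, ?_, hc⟩
        rw [Finset.mem_filter]
        refine ⟨?_, hsf⟩
        by_contra hs0
        apply hm.2 s _ hc
        rw [hQ, Finset.mem_filter, Finset.mem_Icc]
        refine ⟨⟨Nat.one_le_iff_ne_zero.mpr hsf.ne_zero, ?_⟩, hsf, hs0⟩
        have ht : 1 ≤ t := by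
          rcases Nat.eq_zero_or_pos t with h | h
          · rw [h] at hst; simp at hst; omega
          · exact h
        calc s = 1^2 * s := by ring
          _ ≤ t^2 * s := Nat.mul_le_mul_right _ (Nat.pow_le_pow_left ht 2)
          _ = m := hst
          _ ≤ M^2 := hm.1.2
      have h3 : bT a Tr ≤ ∑ s ∈ S0.filter Squarefree, bT a (Tr.filter (InC s)) := by
        unfold bT
        have h4 : ∀ m ∈ Tr, |a m| ≤ ∑ s ∈ S0.filter Squarefree, if InC s m then |a m| else 0 := by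
          intro m hm
          obtain ⟨s, hs, hc⟩ := hsub m hm
          have h5 := Finset.single_le_sum (s := S0.filter Squarefree) (f := fun s => if InC s m then |a m| else 0) (fun i _ => by
            split_ifs
            · exact abs_nonneg _
            · exact le_rfl) hs
          simp only [if_pos hc] at h5
          exact h5
        refine (Finset.sum_le_sum h4).trans ?_
        rw [Finset.sum_comm]
        apply Finset.sum_le_sum
        intro s _
        rw [← Finset.sum_filter]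
      refine h3.trans ?_
      refine le_trans ?_ (Finset.sum_le_sum_of_subset_of_nonneg (Finset.filter_subset Squarefree S0) (fun s _ _ => hβ0 s))
      apply Finset.sum_le_sum
      intro s hs
      rw [Finset.mem_filter] at hs
      apply hβ s hs.2
      intro m hm
      rw [Finset.mem_filter, hTr, Finset.mem_filter, Finset.mem_Icc] at hm
      exact ⟨hm.1.1.1, hm.2⟩
    calc l * ST a φ α X Tr n ≤ |l * ST a φ α X Tr n| := le_abs_self _
      _ = |l| * |ST a φ α X Tr n| := abs_mul _ _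
      _ ≤ |l| * bT a Tr := mul_le_mul_of_nonneg_left (abs_ST_le n) (abs_nonneg _)
      _ ≤ |l| * ∑ s ∈ S0, β s := mul_le_mul_of_nonneg_left hbTr (abs_nonneg _)
      _ = _ := mul_comm _ _
  have h2 : ∀ s ∈ Q, ‖mn (ex a φ α X (l:ℂ) ((Finset.Icc 1 (M^2)).filter (InC s)))‖ ≤
      Real.exp (min (|l| * β s) ((|l| * β s) ^ 2)) := by
    intro s hs
    obtain ⟨hsf, hs0⟩ := hQ' s hs
    have hT : ∀ m ∈ (Finset.Icc 1 (M^2)).filter (InC s), 1 ≤ m ∧ InC s m := by
      intro m hm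
      rw [Finset.mem_filter, Finset.mem_Icc] at hm
      exact ⟨hm.1.1, hm.2⟩
    refine (blk_mgf hS hsf hs0 hT l).trans ?_
    apply Real.exp_le_exp.mpr
    have hb := hβ s hsf _ hT
    exact min_sq_mono (mul_nonneg (abs_nonneg _) bT_nonneg) (mul_le_mul_of_nonneg_left hb (abs_nonneg _))
  calc (∏ s ∈ Q, ‖mn (ex a φ α X (l:ℂ) ((Finset.Icc 1 (M^2)).filter (InC s)))‖) * ‖mn (ex a φ α X (l:ℂ) Tr)‖
      ≤ (∏ s ∈ Q, Real.exp (min (|l| * β s) ((|l| * β s) ^ 2))) * Real.exp ((∑ s ∈ S0, β s) * |l|) := by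
        gcongr with s hs
        exact h2 s hs
    _ = Real.exp ((∑ s ∈ S0, β s) * |l| + ∑ s ∈ Q, min (|l| * β s) ((|l| * β s) ^ 2)) := by
        rw [← Real.exp_sum, ← Real.exp_add, add_comm]
    _ ≤ _ := by
        apply Real.exp_le_exp.mpr
        have h5 : ∑ s ∈ Q, min (|l| * β s) ((|l| * β s) ^ 2) ≤
            ∑ s ∈ (Finset.Icc 1 (M^2)).filter Squarefree, min (|l| * β s) ((|l| * β s) ^ 2) := by
          apply Finset.sum_le_sum_of_subset_of_nonneg
          · intro s hs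
            rw [hQ, Finset.mem_filter] at hs
            rw [Finset.mem_filter]
            exact ⟨hs.1, hs.2.1⟩
          · intro s _ _
            exact le_min (mul_nonneg (abs_nonneg _) (hβ0 s)) (sq_nonneg _)
        linarith

/-- exponential moments bound the zero-frequency part -/
theorem ZZ_fix {a : ℕ → ℝ} (φ : ℝ) {t : ℝ} (ht : Transcendental ℤ t) {l Φ : ℝ} (k M : ℕ)
    (hm1 : ‖mn (ex a φ t 0 (l:ℂ) (Finset.Icc 1 (M^2)))‖ ≤ Real.exp Φ)
    (hm2 : ‖mn (ex a φ t 0 ((-l:ℝ):ℂ) (Finset.Icc 1 (M^2)))‖ ≤ Real.exp Φ) :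
    l ^ (2 * k) * ‖ZZ a φ (2 * k) M‖ ≤ ((2 * k).factorial : ℝ) * (2 * Real.exp Φ) := by
  classical
  have h1 := pow_mean ht a φ (2 * k) M
  have e0 : ∀ l : ℝ, ex a φ t 0 (l:ℂ) (Finset.Icc 1 (M^2)) = fun n : ℕ => ((Real.exp (l * U a φ (n * t) M) : ℝ) : ℂ) := by
    intro l
    funext n
    unfold ex
    rw [ST_U, zero_add]
    push_cast
    rfl
  have h2 := fun l : ℝ => UC_hasMean (ex_UC_top (a := a) (φ := φ) (α := t) (X := 0) (T := Finset.Icc 1 (M^2)) (l:ℂ))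
  have h3 := (h2 l).add (h2 (-l))
  have hfac : (0:ℝ) < ((2 * k).factorial : ℝ) := by positivity
  have hA : Tendsto (rm (fun n : ℕ => (U a φ (n * t) M) ^ (2 * k))) atTop (𝓝 (ZZ a φ (2 * k) M).re) := by
    unfold HasMean at h1
    have : cm (fun n : ℕ => ((U a φ (n * t) M : ℝ) : ℂ) ^ (2 * k)) =
        fun N => ((rm (fun n : ℕ => (U a φ (n * t) M) ^ (2 * k)) N : ℝ) : ℂ) := by
      funext N
      rw [← cm_ofReal]
      push_cast
      rfl
    rw [this] at h1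
    exact (Complex.continuous_re.tendsto _).comp h1
  have hIm : (ZZ a φ (2 * k) M).im = 0 := by
    unfold HasMean at h1
    have : cm (fun n : ℕ => ((U a φ (n * t) M : ℝ) : ℂ) ^ (2 * k)) =
        fun N => ((rm (fun n : ℕ => (U a φ (n * t) M) ^ (2 * k)) N : ℝ) : ℂ) := by
      funext N
      rw [← cm_ofReal]
      push_cast
      rfl
    rw [this] at h1
    have h4 := (Complex.continuous_im.tendsto _).comp h1
    have h5 : Tendsto (fun _ : ℕ => (0:ℝ)) atTop (𝓝 (ZZ a φ (2 * k) M).im) := h4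
    exact tendsto_nhds_unique h5 tendsto_const_nhds |>.symm ▸ rfl
  have hB : Tendsto (rm (fun n : ℕ => Real.exp (l * U a φ (n * t) M) + Real.exp (-(l * U a φ (n * t) M)))) atTop
      (𝓝 (mn (ex a φ t 0 ((l:ℝ):ℂ) (Finset.Icc 1 (M^2))) + mn (ex a φ t 0 ((-l:ℝ):ℂ) (Finset.Icc 1 (M^2)))).re) := by
    unfold HasMean at h3
    have : cm (ex a φ t 0 ((l:ℝ):ℂ) (Finset.Icc 1 (M^2)) + ex a φ t 0 ((-l:ℝ):ℂ) (Finset.Icc 1 (M^2))) =
        fun N => ((rm (fun n : ℕ => Real.exp (l * U a φ (n * t) M) + Real.exp (-(l * U a φ (n * t) M))) N : ℝ) : ℂ) := by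
      funext N
      rw [← cm_ofReal, e0, e0]
      simp only [neg_mul]
      push_cast
      rfl
    rw [this] at h3
    exact (Complex.continuous_re.tendsto _).comp h3
  have hle : l ^ (2 * k) * (ZZ a φ (2 * k) M).re ≤ ((2 * k).factorial : ℝ) *
      (mn (ex a φ t 0 ((l:ℝ):ℂ) (Finset.Icc 1 (M^2))) + mn (ex a φ t 0 ((-l:ℝ):ℂ) (Finset.Icc 1 (M^2)))).re := by
    refine le_of_tendsto_of_tendsto (hA.const_mul _) (hB.const_mul _) (Eventually.of_forall fun N => ?_)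
    beta_reduce
    rw [← rm_mul, ← rm_mul]
    refine rm_mono (fun n => ?_) N
    rw [← mul_pow]
    exact pow_le_exp _ k
  have h0 : 0 ≤ (ZZ a φ (2 * k) M).re := by
    refine ge_of_tendsto hA (Eventually.of_forall fun N => rm_nonneg (fun n => ?_) N)
    exact Even.pow_nonneg (even_two_mul k) _
  have hnorm : ‖ZZ a φ (2 * k) M‖ = (ZZ a φ (2 * k) M).re := by
    have : ZZ a φ (2 * k) M = (((ZZ a φ (2 * k) M).re : ℝ) : ℂ) := by
      apply Complex.ext
      · simp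
      · simp [hIm]
    rw [this, Complex.norm_real, Real.norm_eq_abs, abs_of_nonneg h0, Complex.ofReal_re]
  rw [hnorm]
  refine hle.trans ?_
  apply mul_le_mul_of_nonneg_left _ hfac.le
  refine (Complex.re_le_norm _).trans ((norm_add_le _ _).trans ?_)
  linarith

/-- the exponent of the iterated logarithm -/
noncomputable def gam : ℝ := (3/4) * (zz / 2 - 1)

lemma zz2_ge : 1 ≤ zz / 2 := by
  unfold zz
  have : (2:ℝ) ≤ 2 ^ (4/3:ℝ) := by
    calc (2:ℝ) = 2 ^ (1:ℝ) := (Real.rpow_one 2).symm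
      _ ≤ 2 ^ (4/3:ℝ) := Real.rpow_le_rpow_of_exponent_le (by norm_num) (by norm_num)
  linarith

lemma gam_nonneg : 0 ≤ gam := by
  unfold gam
  have := zz2_ge
  linarith

/-- **the moments of order `2k` of the model polynomials of the circle problem** -/
theorem ZZ_sharp (φ : ℝ) : ∃ (K : ℝ) (k0 : ℕ), 1 ≤ K ∧ 3 ≤ k0 ∧ ∀ k M : ℕ, k0 ≤ k →
    ‖ZZ ag φ (2 * k) M‖ ≤ 2 * (K * ((k:ℝ) ^ (1/4:ℝ) * (Real.log k) ^ gam)) ^ (2 * k) := by
  classical
  obtain ⟨t, ht0, ht⟩ := exists_tr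
  obtain ⟨S0, hS⟩ := exists_S ht0
  obtain ⟨C3, hC3, hbT⟩ := bT_ag
  obtain ⟨C, hC, hsum⟩ := sum_min
  have hC30 : 0 < C3 := by linarith
  have hg0 := gam_nonneg
  have hzz := zz2_ge
  set B0 : ℝ := ∑ s ∈ S0, be C3 s with hB0
  have hB00 : 0 ≤ B0 := Finset.sum_nonneg fun s _ => be_nonneg hC30.le s
  -- the exponential moments
  have hpt : ∀ (l : ℝ), 0 < l → ∀ M : ℕ, ‖mn (ex ag φ t 0 (l:ℂ) (Finset.Icc 1 (M^2)))‖ ≤ Real.exp (B0 * |l| +
      ∑ s ∈ (Finset.Icc 1 (M^2)).filter Squarefree, min (|l| * be C3 s) ((|l| * be C3 s) ^ 2)) := by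
    intro l _ M
    exact mgf_sharp hS (be C3) (be_nonneg hC30.le) hbT l M
  have hbound : ∀ l : ℝ, 3 ≤ l → ∀ M : ℕ, ∑ s ∈ (Finset.Icc 1 (M^2)).filter Squarefree,
      min (l * be C3 s) ((l * be C3 s) ^ 2) ≤ C * ((l * C3) ^ (4/3:ℝ) * (Real.log (l * C3)) ^ (zz / 2 - 1)) := by
    intro l hl M
    have hl0 : 0 < l := by linarith
    have h1 := hsum (l * C3) (by nlinarith) (((Finset.Icc 1 (M^2)).filter Squarefree).filter Ad)
      (fun s hs => (Finset.mem_filter.1 hs).2)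
    refine le_trans (le_of_eq ?_) h1
    rw [Finset.sum_filter (s := (Finset.Icc 1 (M^2)).filter Squarefree) (p := Ad)]
    apply Finset.sum_congr rfl
    intro s _
    unfold be tt
    split_ifs with hA
    · rw [show l * (C3 * 2 ^ s.primeFactors.card * (s:ℝ) ^ (-(3/4):ℝ)) = l * C3 * 2 ^ s.primeFactors.card * (s:ℝ) ^ (-(3/4):ℝ) by ring]
    · simp
  -- conditions on `k`
  have e1 : ∀ᶠ k : ℕ in atTop, (Real.log k) ^ gam ≤ (k:ℝ) ^ (1/4:ℝ) := by
    have h := (isLittleO_log_rpow_rpow_atTop (s := (1/4:ℝ)) gam (by norm_num)).bound (c := 1) one_pos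
    filter_upwards [tendsto_natCast_atTop_atTop.eventually h, eventually_ge_atTop 3] with k hk hk3
    have hk3' : (3:ℝ) ≤ k := by exact_mod_cast hk3
    have hlog : 0 ≤ Real.log k := Real.log_nonneg (by linarith)
    rw [one_mul, Real.norm_of_nonneg (Real.rpow_nonneg hlog _),
      Real.norm_of_nonneg (Real.rpow_nonneg (by linarith) _)] at hk
    exact hk
  have e2 : ∀ᶠ k : ℕ in atTop, C3 ≤ (k:ℝ) ^ (1/4:ℝ) :=
    ((tendsto_rpow_atTop (by norm_num : (0:ℝ) < 1/4)).comp tendsto_natCast_atTop_atTop).eventually_ge_atTop C3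
  obtain ⟨k1, hk1⟩ := eventually_atTop.1 (e1.and e2)
  set C' : ℝ := B0 + C * C3 ^ (4/3:ℝ) with hC'
  have hC'0 : 0 ≤ C' := by positivity
  refine ⟨2 * Real.exp C', max k1 9, by
    have := Real.one_le_exp hC'0
    linarith, by omega, ?_⟩
  intro k M hk
  have hk9 : 9 ≤ k := (le_max_right _ _).trans hk
  obtain ⟨h1, h2⟩ := hk1 k ((le_max_left _ _).trans hk)
  have hk9r : (9:ℝ) ≤ k := by exact_mod_cast hk9
  have hk0 : (0:ℝ) < k := by linarith
  have hlogk : 1 ≤ Real.log k := by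
    rw [Real.le_log_iff_exp_le hk0]
    have := Real.exp_one_lt_d9
    linarith
  have hlogk0 : 0 < Real.log k := by linarith
  have hLg : 0 < (Real.log k) ^ gam := by positivity
  have hLg1 : 1 ≤ (Real.log k) ^ gam := Real.one_le_rpow hlogk hg0
  set l : ℝ := (k:ℝ) ^ (3/4:ℝ) / (Real.log k) ^ gam with hl
  have hl0 : 0 < l := by positivity
  have hl12 : (k:ℝ) ^ (1/2:ℝ) ≤ l := by
    rw [hl, le_div_iff₀ hLg]
    calc (k:ℝ) ^ (1/2:ℝ) * (Real.log k) ^ gam ≤ (k:ℝ) ^ (1/2:ℝ) * (k:ℝ) ^ (1/4:ℝ) :=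
          mul_le_mul_of_nonneg_left h1 (by positivity)
      _ = (k:ℝ) ^ (3/4:ℝ) := by rw [← Real.rpow_add hk0]; norm_num
  have hl3 : 3 ≤ l := by
    refine le_trans ?_ hl12
    rw [← Real.sqrt_eq_rpow]
    apply Real.le_sqrt_of_sq_le
    linarith
  have hl34 : l ≤ (k:ℝ) ^ (3/4:ℝ) := div_le_self (by positivity) hLg1
  have hlk : l * C3 ≤ k := by
    calc l * C3 ≤ (k:ℝ) ^ (3/4:ℝ) * (k:ℝ) ^ (1/4:ℝ) := mul_le_mul hl34 h2 hC30.le (by positivity)
      _ = k := by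
          rw [← Real.rpow_add hk0]
          norm_num
  have hlk' : l ≤ k := by
    calc l = l * 1 := (mul_one l).symm
      _ ≤ l * C3 := mul_le_mul_of_nonneg_left hC3 hl0.le
      _ ≤ k := hlk
  -- the bound of the exponent
  have hE : ∀ M : ℕ, B0 * l + ∑ s ∈ (Finset.Icc 1 (M^2)).filter Squarefree,
      min (l * be C3 s) ((l * be C3 s) ^ 2) ≤ C' * k := by
    intro M
    have h3 := hbound l hl3 M
    have h4 : (Real.log (l * C3)) ^ (zz / 2 - 1) ≤ (Real.log k) ^ (zz / 2 - 1) := by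
      apply Real.rpow_le_rpow _ _ (by linarith)
      · apply Real.log_nonneg; nlinarith
      · exact Real.log_le_log (by positivity) hlk
    have h5 : (l * C3) ^ (4/3:ℝ) = C3 ^ (4/3:ℝ) * (k / (Real.log k) ^ (zz / 2 - 1)) := by
      rw [Real.mul_rpow hl0.le hC30.le, mul_comm]
      congr 1
      rw [hl, Real.div_rpow (by positivity) hLg.le, ← Real.rpow_mul hk0.le, ← Real.rpow_mul hlogk0.le]
      unfold gam
      rw [show (3/4:ℝ) * (4/3) = 1 by norm_num, Real.rpow_one,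
        show (3/4:ℝ) * (zz / 2 - 1) * (4/3) = zz / 2 - 1 by ring]
    have hLz : 0 < (Real.log k) ^ (zz / 2 - 1) := by positivity
    have h6 : C * ((l * C3) ^ (4/3:ℝ) * (Real.log (l * C3)) ^ (zz / 2 - 1)) ≤ C * C3 ^ (4/3:ℝ) * k := by
      rw [h5]
      calc C * (C3 ^ (4/3:ℝ) * (k / (Real.log k) ^ (zz / 2 - 1)) * (Real.log (l * C3)) ^ (zz / 2 - 1))
          ≤ C * (C3 ^ (4/3:ℝ) * (k / (Real.log k) ^ (zz / 2 - 1)) * (Real.log k) ^ (zz / 2 - 1)) := by
            gcongr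
        _ = C * C3 ^ (4/3:ℝ) * k := by field_simp
    have h7 : B0 * l ≤ B0 * k := mul_le_mul_of_nonneg_left hlk' hB00
    calc _ ≤ B0 * k + C * C3 ^ (4/3:ℝ) * k := add_le_add h7 (h3.trans h6)
      _ = C' * k := by rw [hC']; ring
  -- the moments
  have hmain : l ^ (2 * k) * ‖ZZ ag φ (2 * k) M‖ ≤ ((2 * k).factorial : ℝ) * (2 * Real.exp (C' * k)) := by
    refine ZZ_fix φ ht (l := l) k M ?_ ?_
    · have := hpt l hl0 M
      rw [abs_of_pos hl0] at this
      exact this.trans (Real.exp_le_exp.2 (hE M))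
    · have := mgf_sharp (φ := φ) (X := 0) hS (be C3) (be_nonneg hC30.le) hbT (-l) M
      rw [abs_neg, abs_of_pos hl0] at this
      exact this.trans (Real.exp_le_exp.2 (hE M))
  have hfact : ((2 * k).factorial : ℝ) ≤ (2 * (k:ℝ)) ^ (2 * k) := by
    have := Nat.factorial_le_pow (2 * k)
    calc ((2 * k).factorial : ℝ) ≤ (((2 * k) ^ (2 * k) : ℕ) : ℝ) := by exact_mod_cast this
      _ = _ := by push_cast; ring
  have hexp : Real.exp (C' * k) ≤ (Real.exp C') ^ (2 * k) := by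
    rw [← Real.exp_nat_mul]
    apply Real.exp_le_exp.2
    push_cast
    nlinarith
  have hlp : 0 < l ^ (2 * k) := by positivity
  have hfin : l ^ (2 * k) * ‖ZZ ag φ (2 * k) M‖ ≤ l ^ (2 * k) * (2 * (2 * Real.exp C' * ((k:ℝ) ^ (1/4:ℝ) * (Real.log k) ^ gam)) ^ (2 * k)) := by
    refine hmain.trans ?_
    calc ((2 * k).factorial : ℝ) * (2 * Real.exp (C' * k)) ≤ (2 * (k:ℝ)) ^ (2 * k) * (2 * (Real.exp C') ^ (2 * k)) := by
          gcongr
      _ = 2 * (2 * (k:ℝ) * Real.exp C') ^ (2 * k) := by rw [mul_pow (2 * (k:ℝ)) (Real.exp C')]; ring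
      _ = 2 * (l * (2 * Real.exp C' * ((k:ℝ) ^ (1/4:ℝ) * (Real.log k) ^ gam))) ^ (2 * k) := by
          congr 2
          rw [hl]
          have h8 : (k:ℝ) = (k:ℝ) ^ (3/4:ℝ) * (k:ℝ) ^ (1/4:ℝ) := by
            rw [← Real.rpow_add hk0]; norm_num
          calc 2 * (k:ℝ) * Real.exp C' = 2 * ((k:ℝ) ^ (3/4:ℝ) * (k:ℝ) ^ (1/4:ℝ)) * Real.exp C' := by rw [← h8]
            _ = _ := by field_simp
      _ = _ := by rw [mul_pow l]; ring
  exact le_of_mul_le_mul_left hfin hlp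

end Pool.Agent.W2helper40.MX
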