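import Mathlib
import Pool.Agent.W2helper40.MX.Up
import Pool.Agent.W2helper40.MX.Mgf

/-!
# The sharp upper bound for the records of the circle problem
-/

set_option autoImplicit false

open MeasureTheory Filter Topology Set Real
open scoped ENNReal
open Pool.Agent.H469R2.NK (e norm_e e_add conj_e e_zero)
open Pool.Agent.H383.Gen (U Bd)
open Pool.Agent.Y969.TM
open Pool.Agent.H383.Circ (ag ag_nonneg ag_Bd)
open Pool.Agent.R306.GP (pt vdc AA AA_nonneg AA_le Ctx ae_zero ae_zero' Upt_cont pt_meas)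

namespace Pool.Agent.W2helper40.MX

variable {a b : ℕ → ℝ} {c d θ κ : ℝ}

/-- the size of the records, in terms of `L = log N` -/
noncomputable def RS (L : ℝ) : ℝ := L ^ (1/4:ℝ) * (Real.log L) ^ gam

lemma RS_tendsto : Tendsto RS atTop atTop := by
  have h1 : Tendsto (fun L : ℝ => L ^ (1/4:ℝ)) atTop atTop := tendsto_rpow_atTop (by norm_num)
  refine tendsto_atTop_mono' _ ?_ h1
  filter_upwards [eventually_ge_atTop (3:ℝ)] with L hL
  unfold RS
  have h2 : 1 ≤ Real.log L := by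
    rw [Real.le_log_iff_exp_le (by linarith)]
    have := Real.exp_one_lt_d9
    linarith
  have h3 : 1 ≤ (Real.log L) ^ gam := Real.one_le_rpow h2 gam_nonneg
  have h4 : 0 ≤ L ^ (1/4:ℝ) := by positivity
  nlinarith

/-- the model polynomials along the sequence -/
theorem Lac.model2 (h : Lac a b c θ κ) (hcd : c ≤ d) (φ : ℝ) : ∃ A : ℝ, 1 ≤ A ∧
    ∀ᵐ y ∂(volume.restrict (Icc c d)), ∀ᶠ n : ℕ in atTop,
      |U ag φ (pt a b n y) ((n + 1) ^ 400)| ≤ A * RS (Real.log ((n:ℝ) + 1)) := by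
  have hδ : 0 < 1 - κ := by linarith [h.k1]
  have hdc : 0 ≤ d - c := by linarith
  obtain ⟨q, hq⟩ := exists_nat_ge (8 / (1 - κ))
  have hq0 : (0:ℝ) < q := lt_of_lt_of_le (by positivity) hq
  have hq1 : 1 ≤ q := by exact_mod_cast hq0
  obtain ⟨K, k0, hK, hk03, hZ⟩ := ZZ_sharp φ
  have hgam := gam_nonneg
  set A : ℝ := 2 ^ (2 * q) * (K * (2 * 2 ^ gam)) with hA
  have hA1 : 1 ≤ A := by
    have h1 : (1:ℝ) ≤ 2 ^ (2 * q) := one_le_pow₀ (by norm_num)
    have h2 : (1:ℝ) ≤ 2 ^ gam := Real.one_le_rpow (by norm_num) hgam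
    have h3 : (1:ℝ) ≤ K * (2 * 2 ^ gam) := by nlinarith
    rw [hA]; nlinarith
  refine ⟨A, hA1, ?_⟩
  set Kn : ℕ → ℝ := fun n => A * RS (Real.log ((n:ℝ) + 1)) with hKn
  set g : ℕ → ℝ → ℝ := fun n y => (U ag φ (pt a b n y) ((n + 1) ^ 400) / Kn n) ^ (2 * kk q n) with hg
  have hlogt : Tendsto (fun n : ℕ => Real.log ((n:ℝ) + 1)) atTop atTop :=
    Real.tendsto_log_atTop.comp (tendsto_atTop_add_const_right _ _ tendsto_natCast_atTop_atTop)
  have hKt : Tendsto Kn atTop atTop := (RS_tendsto.comp hlogt).const_mul_atTop (by linarith)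
  have hev : ∀ᶠ n : ℕ in atTop, ∫ y in c..d, g n y ≤ (1 + 2 * (d - c)) * (2 ^ q) ^ 4 * ((n:ℝ) + 1) ^ (-2:ℝ) := by
    filter_upwards [h.err hcd ag_Bd hq, (kk_tendsto hq1).eventually_ge_atTop k0,
      hKt.eventually_ge_atTop (2 ^ (2 * q)), hlogt.eventually_ge_atTop 3] with n h1 h3 h4 h5
    set k := kk q n with hk
    set L := Real.log ((n:ℝ) + 1) with hL
    have hL0 : 0 < L := by linarith
    have hKn0 : 0 < Kn n := lt_of_lt_of_le (by positivity) h4
    have e1 : ∫ y in c..d, g n y = (Kn n ^ (2 * k))⁻¹ * ∫ y in c..d, (U ag φ (pt a b n y) ((n + 1) ^ 400)) ^ (2 * k) := by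
      rw [← intervalIntegral.integral_const_mul]
      congr 1
      funext y
      simp only [hg, ← hk]
      rw [div_pow]; field_simp
    have e2 := h.int_even hcd ag φ (2 * k) ((n + 1) ^ 400) n
    have e3 := hZ k ((n + 1) ^ 400) h3
    have e4 : ∫ y in c..d, (U ag φ (pt a b n y) ((n + 1) ^ 400)) ^ (2 * k) ≤
        1 + 2 * (d - c) * (K * ((k:ℝ) ^ (1/4:ℝ) * (Real.log k) ^ gam)) ^ (2 * k) := by
      refine e2.trans (add_le_add h1 ?_)
      calc (d - c) * ‖ZZ ag φ (2 * k) ((n + 1) ^ 400)‖ ≤ (d - c) * (2 * (K * ((k:ℝ) ^ (1/4:ℝ) * (Real.log k) ^ gam)) ^ (2 * k)) :=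
            mul_le_mul_of_nonneg_left e3 hdc
        _ = _ := by ring
    -- the base
    have hk3 : 3 ≤ k := hk03.trans h3
    have hk3r : (3:ℝ) ≤ k := by exact_mod_cast hk3
    have hk0r : (0:ℝ) < k := by linarith
    have e5 : K * ((k:ℝ) ^ (1/4:ℝ) * (Real.log k) ^ gam) ≤ (1/2) ^ (2 * q) * Kn n := by
      have f1 : (k:ℝ) ≤ 2 * L := by
        have := kk_log q n hq1
        rw [← hk, ← hL] at this
        push_cast at this
        linarith
      have f2 : (k:ℝ) ^ (1/4:ℝ) ≤ 2 * L ^ (1/4:ℝ) := by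
        calc (k:ℝ) ^ (1/4:ℝ) ≤ (2 * L) ^ (1/4:ℝ) := Real.rpow_le_rpow hk0r.le f1 (by norm_num)
          _ = 2 ^ (1/4:ℝ) * L ^ (1/4:ℝ) := Real.mul_rpow (by norm_num) hL0.le
          _ ≤ 2 * L ^ (1/4:ℝ) := by
              apply mul_le_mul_of_nonneg_right _ (by positivity)
              calc (2:ℝ) ^ (1/4:ℝ) ≤ 2 ^ (1:ℝ) := Real.rpow_le_rpow_of_exponent_le (by norm_num) (by norm_num)
                _ = 2 := Real.rpow_one _
      have hlogL : 0 ≤ Real.log L := Real.log_nonneg (by linarith)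
      have f3 : (Real.log k) ^ gam ≤ 2 ^ gam * (Real.log L) ^ gam := by
        rw [← Real.mul_rpow (by norm_num) hlogL]
        apply Real.rpow_le_rpow (Real.log_nonneg (by linarith)) _ hgam
        have f4 := Real.log_le_log hk0r f1
        rw [Real.log_mul (by norm_num) hL0.ne'] at f4
        have f5 : Real.log 2 ≤ Real.log L := Real.log_le_log (by norm_num) (by linarith)
        linarith
      have f6 : (1/2:ℝ) ^ (2 * q) * 2 ^ (2 * q) = 1 := by rw [← mul_pow]; norm_num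
      calc K * ((k:ℝ) ^ (1/4:ℝ) * (Real.log k) ^ gam) ≤ K * ((2 * L ^ (1/4:ℝ)) * (2 ^ gam * (Real.log L) ^ gam)) := by
            apply mul_le_mul_of_nonneg_left _ (by linarith)
            apply mul_le_mul f2 f3 _ (by positivity)
            exact Real.rpow_nonneg (Real.log_nonneg (by linarith)) _
        _ = ((1/2:ℝ) ^ (2 * q) * 2 ^ (2 * q)) * (K * (2 * 2 ^ gam)) * (L ^ (1/4:ℝ) * (Real.log L) ^ gam) := by
            rw [f6]; ring
        _ = _ := by
            simp only [hKn, hA, RS]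
            rw [← hL]
            ring
    have e6 : (1:ℝ) ≤ (1/2) ^ (2 * q) * Kn n := by
      have : (1/2:ℝ) ^ (2 * q) * 2 ^ (2 * q) = 1 := by rw [← mul_pow]; norm_num
      calc (1:ℝ) = (1/2:ℝ) ^ (2 * q) * 2 ^ (2 * q) := this.symm
        _ ≤ _ := mul_le_mul_of_nonneg_left h4 (by positivity)
    have e7 : ∫ y in c..d, (U ag φ (pt a b n y) ((n + 1) ^ 400)) ^ (2 * k) ≤
        (1 + 2 * (d - c)) * (((1/2) ^ (2 * q) * Kn n) ^ (2 * k)) := by
      have f1 : (1:ℝ) ≤ ((1/2) ^ (2 * q) * Kn n) ^ (2 * k) := one_le_pow₀ e6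
      have f2 : (K * ((k:ℝ) ^ (1/4:ℝ) * (Real.log k) ^ gam)) ^ (2 * k) ≤ ((1/2) ^ (2 * q) * Kn n) ^ (2 * k) := by
        apply pow_le_pow_left₀ _ e5
        have : 0 ≤ Real.log k := Real.log_nonneg (by linarith)
        positivity
      calc _ ≤ 1 + 2 * (d - c) * (K * ((k:ℝ) ^ (1/4:ℝ) * (Real.log k) ^ gam)) ^ (2 * k) := e4
        _ ≤ ((1/2) ^ (2 * q) * Kn n) ^ (2 * k) + 2 * (d - c) * ((1/2) ^ (2 * q) * Kn n) ^ (2 * k) := by
            apply add_le_add f1
            exact mul_le_mul_of_nonneg_left f2 (by positivity)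
        _ = _ := by ring
    rw [e1]
    have hKp : 0 < Kn n ^ (2 * k) := by positivity
    calc (Kn n ^ (2 * k))⁻¹ * ∫ y in c..d, (U ag φ (pt a b n y) ((n + 1) ^ 400)) ^ (2 * k)
        ≤ (Kn n ^ (2 * k))⁻¹ * ((1 + 2 * (d - c)) * (((1/2) ^ (2 * q) * Kn n) ^ (2 * k))) :=
          mul_le_mul_of_nonneg_left e7 (by positivity)
      _ = (1 + 2 * (d - c)) * ((1/2) ^ (2 * q)) ^ (2 * k) := by
          rw [mul_pow ((1/2:ℝ) ^ (2 * q))]; field_simp
      _ = (1 + 2 * (d - c)) * (((2:ℝ) ^ (q * k))⁻¹) ^ 4 := by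
          congr 1
          rw [one_div, ← pow_mul, inv_pow, inv_pow, ← pow_mul]
          congr 2; ring
      _ ≤ (1 + 2 * (d - c)) * ((2 ^ q) ^ 4 * ((n:ℝ) + 1) ^ (-2:ℝ)) := by
          apply mul_le_mul_of_nonneg_left _ (by positivity)
          have f1 : ((n:ℝ) + 1) ≤ 2 ^ q * 2 ^ (q * k) := by exact_mod_cast kk_low hq1 n
          have f2 : 0 < (n:ℝ) + 1 := by positivity
          have f3 : ((2:ℝ) ^ (q * k))⁻¹ ≤ 2 ^ q * ((n:ℝ) + 1)⁻¹ := by
            rw [← div_eq_mul_inv, inv_eq_one_div, div_le_div_iff₀ (by positivity) f2]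
            linarith
          calc (((2:ℝ) ^ (q * k))⁻¹) ^ 4 ≤ (2 ^ q * ((n:ℝ) + 1)⁻¹) ^ 4 := pow_le_pow_left₀ (by positivity) f3 4
            _ = (2 ^ q) ^ 4 * (((n:ℝ) + 1) ^ 4)⁻¹ := by rw [mul_pow, inv_pow]
            _ ≤ (2 ^ q) ^ 4 * ((n:ℝ) + 1) ^ (-2:ℝ) := by
                apply mul_le_mul_of_nonneg_left _ (by positivity)
                rw [show (-2:ℝ) = -((2:ℕ):ℝ) by norm_num, Real.rpow_neg f2.le, Real.rpow_natCast]
                apply inv_anti₀ (by positivity)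
                apply pow_le_pow_right₀ _ (by norm_num)
                have : (0:ℝ) ≤ n := Nat.cast_nonneg n
                linarith
      _ = _ := by ring
  rw [eventually_atTop] at hev
  obtain ⟨n0, hn0⟩ := hev
  have hgc : ∀ n, Continuous (g n) := fun n => ((Upt_cont ag φ a b n _).div_const _).pow _
  have hg0 : ∀ n y, 0 ≤ g n y := fun n y => Even.pow_nonneg (even_two_mul _) _
  have hae := ae_zero' hcd hgc (summ2 ((1 + 2 * (d - c)) * (2 ^ q) ^ 4)) (j0 := n0) (fun n hn => hn0 n hn) hg0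
  filter_upwards [hae] with y hy
  filter_upwards [hy.eventually (gt_mem_nhds (show (0:ℝ) < 1 by norm_num)), (kk_tendsto hq1).eventually_ge_atTop 1,
    hKt.eventually_ge_atTop 1] with n h1 h2 h3
  have hKn0 : 0 < Kn n := by linarith
  by_contra hcon
  rw [not_le] at hcon
  have h4 : 1 ≤ |U ag φ (pt a b n y) ((n + 1) ^ 400) / Kn n| := by
    rw [abs_div, abs_of_pos hKn0, le_div_iff₀ hKn0, one_mul]
    exact hcon.le
  have h5 : 1 ≤ g n y := by
    simp only [hg]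
    rw [← (even_two_mul (kk q n)).pow_abs]
    exact one_le_pow₀ h4
  linarith


/-- **sharp upper bound** -/
theorem Lac.upper2 (h : Lac a b c θ κ) (hcd : c ≤ d) {E : ℝ → ℝ} {φ : ℝ} (hX : Ctx E ag φ) : ∃ A : ℝ, 1 ≤ A ∧
    ∀ᵐ y ∂(volume.restrict (Icc c d)), ∀ᶠ n : ℕ in atTop, |E (pt a b n y)| ≤ A * RS (Real.log ((n:ℝ) + 1)) := by
  obtain ⟨A, hA, hm⟩ := h.model2 hcd φ
  refine ⟨A + 1, by linarith, ?_⟩
  have hlogt : Tendsto (fun n : ℕ => Real.log ((n:ℝ) + 1)) atTop atTop :=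
    Real.tendsto_log_atTop.comp (tendsto_atTop_add_const_right _ _ tendsto_natCast_atTop_atTop)
  have h1 := (RS_tendsto.comp hlogt).eventually_ge_atTop 1
  filter_upwards [hm, h.approx hcd hX] with y h2 h3
  filter_upwards [h1, h2, h3] with n h4 h5 h6
  simp only [Function.comp_apply] at h4
  have h7 : E (pt a b n y) = U ag φ (pt a b n y) ((n + 1) ^ 400) +
      (E (pt a b n y) - U ag φ (pt a b n y) ((n + 1) ^ 400)) := by ring
  rw [h7]
  refine (abs_add_le _ _).trans ?_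
  linarith

end Pool.Agent.W2helper40.MX
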