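import Mathlib
import Pool.Agent.W2helper40.MX.Low
import Pool.Agent.W2helper40.MX.Up2
import Pool.Agent.W2helper40.MX.Sets

/-!
# The order of the records
-/

set_option autoImplicit false

open MeasureTheory Filter Topology Set Real
open Pool.Agent.H383.Gen (U Bd)
open Pool.Agent.Y969.TM
open Pool.Agent.H383.Circ (ag ag_nonneg ag_Bd)
open Pool.Agent.R306.GP (pt Ctx)

namespace Pool.Agent.W2helper40.MX

variable {a b : ℕ → ℝ} {c d θ κ : ℝ}

lemma RS_mono {L L' : ℝ} (h1 : 1 ≤ L) (h : L ≤ L') : RS L ≤ RS L' := by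
  unfold RS
  have h2 : 0 ≤ Real.log L := Real.log_nonneg h1
  apply mul_le_mul
  · exact Real.rpow_le_rpow (by linarith) h (by norm_num)
  · exact Real.rpow_le_rpow h2 (Real.log_le_log (by linarith) h) gam_nonneg
  · exact Real.rpow_nonneg h2 _
  · exact Real.rpow_nonneg (by linarith) _

lemma RS_nonneg {L : ℝ} (h1 : 1 ≤ L) : 0 ≤ RS L := by
  unfold RS
  have h2 : 0 ≤ Real.log L := Real.log_nonneg h1
  exact mul_nonneg (Real.rpow_nonneg (by linarith) _) (Real.rpow_nonneg h2 _)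

lemma RS_scale {s L : ℝ} (hs : 1 ≤ s) (hL : s ≤ L) (hL1 : 1 ≤ L) : RS (s * L) ≤ s ^ (1/4:ℝ) * 2 ^ gam * RS L := by
  unfold RS
  have h2 : 0 ≤ Real.log L := Real.log_nonneg hL1
  have hL0 : 0 < L := by linarith
  have hs0 : 0 < s := by linarith
  have h3 : Real.log (s * L) ≤ 2 * Real.log L := by
    rw [Real.log_mul hs0.ne' hL0.ne']
    have := Real.log_le_log hs0 hL
    linarith
  have h4 : (Real.log (s * L)) ^ gam ≤ 2 ^ gam * (Real.log L) ^ gam := by
    rw [← Real.mul_rpow (by norm_num) h2]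
    apply Real.rpow_le_rpow _ h3 gam_nonneg
    apply Real.log_nonneg; nlinarith
  rw [Real.mul_rpow hs0.le hL0.le]
  calc s ^ (1/4:ℝ) * L ^ (1/4:ℝ) * (Real.log (s * L)) ^ gam
      ≤ s ^ (1/4:ℝ) * L ^ (1/4:ℝ) * (2 ^ gam * (Real.log L) ^ gam) :=
        mul_le_mul_of_nonneg_left h4 (by positivity)
    _ = _ := by ring

/-- **the order of the records** -/
theorem Lac.records (h : Lac a b c θ κ) (hcd : c ≤ d) {E : ℝ → ℝ} {φ : ℝ} (hX : Ctx E ag φ) :
    ∃ c1 C1 : ℝ, 0 < c1 ∧ 0 < C1 ∧ ∀ᵐ y ∂(volume.restrict (Icc c d)), ∀ᶠ N : ℕ in atTop,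
      (∃ n < N, c1 * RS (Real.log N) ≤ E (pt a b n y)) ∧ (∃ n < N, E (pt a b n y) ≤ -(c1 * RS (Real.log N))) ∧
      ∀ n < N, |E (pt a b n y)| ≤ C1 * RS (Real.log N) := by
  classical
  have hδ : 0 < 1 - κ := by linarith [h.k1]
  obtain ⟨r, hr⟩ := exists_nat_ge (max 2000 (2000 * (8 / (1 - κ))))
  have hr2 : 2000 ≤ r := by exact_mod_cast (le_max_left _ _).trans hr
  have hr3 : 2000 * (8 / (1 - κ)) ≤ r := (le_max_right _ _).trans hr
  obtain ⟨c0, K0, hc0, hsets⟩ := sf_sets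
  have hex : ∀ K : ℕ, ∃ Q : Finset ℕ, K0 ≤ K → (Q.card : ℝ) ≤ K ∧ (∀ m ∈ Q, Squarefree m) ∧
      (∀ m ∈ Q, (m:ℝ) ≤ (K:ℝ) ^ 3) ∧ c0 * RS K ≤ ∑ m ∈ Q, ag m := by
    intro K
    by_cases hK : K0 ≤ K
    · obtain ⟨Q, h1, h2, h3, h4⟩ := hsets K hK
      refine ⟨Q, fun _ => ⟨h1, h2, h3, ?_⟩⟩
      refine le_trans (le_of_eq ?_) h4
      unfold RS gam
      ring
    · exact ⟨∅, fun h => absurd h hK⟩
  choose Q hQ using hex
  have hKr : ∀ K : ℕ, ⌈K0⌉₊ ≤ K → K0 ≤ K := fun K hK => (Nat.le_ceil K0).trans (by exact_mod_cast hK)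
  have hRSt : Tendsto (fun K : ℕ => RS (K:ℝ)) atTop atTop := RS_tendsto.comp tendsto_natCast_atTop_atTop
  have hμ8 : ∀ᶠ K : ℕ in atTop, 8 ≤ 1/2 * ∑ q ∈ Q K, ag q := by
    filter_upwards [hRSt.eventually_ge_atTop (16 / c0), eventually_ge_atTop ⌈K0⌉₊] with K h1 h2
    have h3 := (hQ K (hKr K h2)).2.2.2
    rw [div_le_iff₀ hc0] at h1
    linarith
  have hlow := fun (σ : ℝ) (hσ : |σ| = 1) => h.lower hcd hX hr2 hr3 Q (K0 := ⌈K0⌉₊)
    (fun K hK => by exact_mod_cast (hQ K (hKr K hK)).1)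
    (fun K hK => (hQ K (hKr K hK)).2.1)
    (fun K hK q hq => by
      have h1 : q ≤ K ^ 3 := by exact_mod_cast (hQ K (hKr K hK)).2.2.1 q hq
      refine h1.trans ?_
      have h3 : K ≤ 2 ^ K := (Nat.lt_two_pow_self (n := K)).le
      calc K ^ 3 ≤ (2 ^ K) ^ 3 := Nat.pow_le_pow_left h3 3
        _ = 2 ^ (K * 3) := by rw [← pow_mul]
        _ ≤ 2 ^ (400 * K * 2) := Nat.pow_le_pow_right (by norm_num) (by omega)
        _ = _ := by rw [← pow_mul])
    (by filter_upwards [hμ8] with K hK; linarith) hσ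
  obtain ⟨A, hA, hup⟩ := h.upper2 hcd hX
  -- constants
  set s : ℝ := 2 * r + 2 with hs
  have hs1 : 1 ≤ s := by
    have : (0:ℝ) ≤ r := Nat.cast_nonneg r
    rw [hs]; linarith
  set D : ℝ := s ^ (1/4:ℝ) * 2 ^ gam with hD
  have hD0 : 0 < D := by positivity
  refine ⟨c0 / (16 * D), A + 1, by positivity, by linarith, ?_⟩
  filter_upwards [hlow 1 (by norm_num), hlow (-1) (by norm_num), hup] with y hy1 hy2 hy3
  -- the dyadic index
  have hit : Tendsto (fun N : ℕ => Nat.log 2 N - 1) atTop atTop := by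
    rw [tendsto_atTop]
    intro B
    filter_upwards [eventually_ge_atTop (2 ^ (B + 1))] with N hN
    have := Nat.le_log_of_pow_le (by norm_num : 1 < 2) hN
    omega
  have hr0 : 0 < r := by omega
  have hKt : Tendsto (fun i : ℕ => i / r) atTop atTop := Nat.tendsto_div_const_atTop hr0.ne'
  have hKe : ∀ᶠ N : ℕ in atTop, ⌈K0⌉₊ + ⌈s⌉₊ + 1 ≤ (Nat.log 2 N - 1) / r :=
    (hKt.comp hit).eventually_ge_atTop _
  have hμe : ∀ᶠ N : ℕ in atTop, 8 ≤ 1/2 * ∑ q ∈ Q ((Nat.log 2 N - 1) / r), ag q :=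
    (hKt.comp hit).eventually hμ8
  have hlogt : Tendsto (fun N : ℕ => Real.log (N:ℝ)) atTop atTop :=
    Real.tendsto_log_atTop.comp tendsto_natCast_atTop_atTop
  -- the finitely many initial terms
  obtain ⟨n0, hn0⟩ := eventually_atTop.1 hy3
  have hfin : ∀ᶠ N : ℕ in atTop, ∑ n ∈ Finset.range (n0 + 3), |E (pt a b n y)| ≤ RS (Real.log N) :=
    (RS_tendsto.comp hlogt).eventually_ge_atTop _
  filter_upwards [hit.eventually hy1, hit.eventually hy2, hKe, hμe, hfin, hlogt.eventually_ge_atTop 1,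
    eventually_ge_atTop 4] with N k1 k2 k3 k4 k5 k6 hN4
  set i := Nat.log 2 N - 1 with hi
  set K := i / r with hK
  have hlogN2 : 2 ≤ Nat.log 2 N := by
    apply Nat.le_log_of_pow_le (by norm_num)
    omega
  have hi1 : i + 1 = Nat.log 2 N := by omega
  have hpow : 2 ^ (i + 1) ≤ N := by rw [hi1]; exact Nat.pow_log_le_self 2 (by omega)
  have hNlt : N < 2 ^ (i + 2) := by
    have : i + 2 = Nat.log 2 N + 1 := by omega
    rw [this]
    exact Nat.lt_pow_succ_log_self (by norm_num) N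
  have hK1 : 1 ≤ K := by omega
  have hKs : s ≤ K := by
    have h1 : (⌈s⌉₊ : ℝ) ≤ K := by exact_mod_cast (by omega : ⌈s⌉₊ ≤ K)
    exact (Nat.le_ceil s).trans h1
  have hK1r : (1:ℝ) ≤ K := by exact_mod_cast hK1
  have hN0 : (0:ℝ) < N := by exact_mod_cast (by omega : 0 < N)
  have hlogN : Real.log N ≤ s * K := by
    have h1 : (N:ℝ) ≤ (2:ℝ) ^ (i + 2) := by exact_mod_cast hNlt.le
    have h2 := Real.log_le_log hN0 h1
    rw [Real.log_pow] at h2
    have h3 : Real.log 2 ≤ 1 := by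
      have := Real.log_two_lt_d9
      linarith
    have h4 : ((i + 2 : ℕ) : ℝ) * Real.log 2 ≤ ((i + 2 : ℕ) : ℝ) * 1 :=
      mul_le_mul_of_nonneg_left h3 (Nat.cast_nonneg _)
    have h5 : i + 2 ≤ (2 * r + 2) * K := by
      have h6 := Nat.div_add_mod i r
      have h7 := Nat.mod_lt i hr0
      have h8 : r * 1 ≤ r * K := Nat.mul_le_mul_left r hK1
      have h9 : (2 * r + 2) * K = r * K + r * K + 2 * K := by ring
      rw [h9]
      rw [← hK] at h6
      omega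
    have h6 : ((i + 2 : ℕ) : ℝ) ≤ (2 * r + 2) * K := by exact_mod_cast h5
    rw [hs]
    linarith
  have hRS : RS (Real.log N) ≤ D * RS K := by
    refine (RS_mono k6 hlogN).trans ?_
    exact RS_scale hs1 hKs hK1r
  have hKK0 : K0 ≤ K := hKr K (by omega)
  have hμ := (hQ K hKK0).2.2.2
  have hlb : c0 / (16 * D) * RS (Real.log N) ≤ (1/2 * ∑ q ∈ Q K, ag q - 4) / 4 := by
    have h1 : c0 / (16 * D) * RS (Real.log N) ≤ c0 / 16 * RS K := by
      calc c0 / (16 * D) * RS (Real.log N) ≤ c0 / (16 * D) * (D * RS K) :=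
            mul_le_mul_of_nonneg_left hRS (by positivity)
        _ = c0 / 16 * RS K := by field_simp
    linarith
  refine ⟨?_, ?_, ?_⟩
  · obtain ⟨n, hn, hn2⟩ := k1
    refine ⟨n, hn.trans_le hpow, ?_⟩
    rw [one_mul] at hn2
    exact hlb.trans hn2
  · obtain ⟨n, hn, hn2⟩ := k2
    refine ⟨n, hn.trans_le hpow, ?_⟩
    linarith
  · intro n hn
    have hRS0 : 0 ≤ RS (Real.log N) := RS_nonneg k6
    by_cases hn' : n < n0 + 3
    · have h1 : |E (pt a b n y)| ≤ ∑ n ∈ Finset.range (n0 + 3), |E (pt a b n y)| :=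
        Finset.single_le_sum (f := fun n => |E (pt a b n y)|) (fun _ _ => abs_nonneg _) (Finset.mem_range.2 hn')
      nlinarith
    · have h1 := hn0 n (by omega)
      have h2 : RS (Real.log ((n:ℝ) + 1)) ≤ RS (Real.log N) := by
        apply RS_mono
        · rw [Real.le_log_iff_exp_le (by positivity)]
          have h3 : (3:ℝ) ≤ n := by exact_mod_cast (by omega : 3 ≤ n)
          have := Real.exp_one_lt_d9
          linarith
        · apply Real.log_le_log (by positivity)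
          exact_mod_cast hn
      nlinarith

end Pool.Agent.W2helper40.MX
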