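import Mathlib
import Pool.Agent.W2helper40.MX.Rec

/-!
# The records of the error term of the circle problem along lacunary sequences of radii
-/

set_option autoImplicit false

open MeasureTheory Filter Topology Set Real
open Pool.Agent.H383.Gauss (En F)
open Pool.Agent.H383.Circ (ag ag_nonneg ag_Bd ag_zero wg_Wt En_Sand)
open Pool.Agent.R306.GP (pt Ctx)

namespace Pool.Agent.W2helper40.MX

/-! ## The error term -/

/-- the number of integer points with `|p| ^ 2 ≤ x` -/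
noncomputable def Nn (x : ℝ) : ℝ := (Nat.card {p : ℤ × ℤ // (p.1 : ℝ) ^ 2 + (p.2 : ℝ) ^ 2 ≤ x} : ℝ)

lemma Nn_fin (x : ℝ) : {p : ℤ × ℤ | (p.1 : ℝ) ^ 2 + (p.2 : ℝ) ^ 2 ≤ x}.Finite := by
  have h : {p : ℤ × ℤ | (p.1 : ℝ) ^ 2 + (p.2 : ℝ) ^ 2 ≤ x} ⊆
      (Set.Icc (-⌈|x| + 1⌉) ⌈|x| + 1⌉) ×ˢ (Set.Icc (-⌈|x| + 1⌉) ⌈|x| + 1⌉) := by
    rintro ⟨m, n⟩ hp
    have hp' : (m : ℝ) ^ 2 + (n : ℝ) ^ 2 ≤ x := hp
    have hx : x ≤ |x| := le_abs_self x
    have h0 : 0 ≤ |x| := abs_nonneg x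
    have key : ∀ k : ℤ, (k : ℝ) ^ 2 ≤ |x| → -⌈|x| + 1⌉ ≤ k ∧ k ≤ ⌈|x| + 1⌉ := by
      intro k hk
      have h1 : |(k : ℝ)| ≤ |x| + 1 := by
        rw [← sq_abs] at hk
        nlinarith [abs_nonneg (k : ℝ)]
      have h2 := Int.le_ceil (|x| + 1)
      obtain ⟨h3, h4⟩ := abs_le.1 h1
      constructor
      · have : (-(⌈|x| + 1⌉ : ℤ) : ℝ) ≤ k := by push_cast; linarith
        exact_mod_cast this
      · have : (k : ℝ) ≤ (⌈|x| + 1⌉ : ℤ) := by linarith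
        exact_mod_cast this
    refine ⟨key m ?_, key n ?_⟩
    · nlinarith [sq_nonneg (n : ℝ)]
    · nlinarith [sq_nonneg (m : ℝ)]
  exact ((Set.finite_Icc _ _).prod (Set.finite_Icc _ _)).subset h

lemma Nn_mono : Monotone Nn := by
  intro x y hxy
  unfold Nn
  have h : {p : ℤ × ℤ | (p.1 : ℝ) ^ 2 + (p.2 : ℝ) ^ 2 ≤ x} ⊆
      {p : ℤ × ℤ | (p.1 : ℝ) ^ 2 + (p.2 : ℝ) ^ 2 ≤ y} := fun p hp => le_trans hp hxy
  exact_mod_cast Nat.card_mono (Nn_fin y) h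

lemma En_meas : Measurable En := by
  have h1 : Measurable fun R : ℝ => Nn (R ^ 2) := Nn_mono.measurable.comp (by fun_prop)
  have h2 : En = fun R => (Nn (R ^ 2) - Real.pi * R ^ 2) / √R := rfl
  rw [h2]
  exact (h1.sub (by fun_prop)).div (by fun_prop)

lemma ctx : Ctx En ag (3 * Real.pi/4) := by
  obtain ⟨C0, hC0, hS⟩ := En_Sand
  exact Ctx.of ag_Bd ag_zero wg_Wt hC0 hS En_meas

/-! ## The conclusion, shifts -/

/-- the records have the order `RS (log N)` -/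
def Good (E : ℝ → ℝ) (R : ℕ → ℝ) : Prop := ∃ c C : ℝ, 0 < c ∧ 0 < C ∧ ∀ᶠ N : ℕ in atTop,
  (∃ n < N, c * RS (Real.log N) ≤ E (R n)) ∧ (∃ n < N, E (R n) ≤ -(c * RS (Real.log N))) ∧
    ∀ n < N, |E (R n)| ≤ C * RS (Real.log N)

lemma Good.shift {E : ℝ → ℝ} {R : ℕ → ℝ} {n0 : ℕ} (h : Good E (fun n => R (n + n0))) : Good E R := by
  obtain ⟨c, C, hc, hC, h⟩ := h
  set D : ℝ := 2 ^ (1/4:ℝ) * 2 ^ gam with hD
  have hD0 : 0 < D := by positivity
  refine ⟨c / D, C + 1, by positivity, by linarith, ?_⟩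
  have hst : Tendsto (fun N : ℕ => N - n0) atTop atTop := tendsto_sub_atTop_nat n0
  have hlogt : Tendsto (fun N : ℕ => Real.log (N:ℝ)) atTop atTop :=
    Real.tendsto_log_atTop.comp tendsto_natCast_atTop_atTop
  have hfin : ∀ᶠ N : ℕ in atTop, ∑ n ∈ Finset.range n0, |E (R n)| ≤ RS (Real.log N) :=
    (RS_tendsto.comp hlogt).eventually_ge_atTop _
  filter_upwards [hst.eventually h, hfin, (hlogt.comp hst).eventually_ge_atTop 2, hlogt.eventually_ge_atTop 2,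
    eventually_ge_atTop (2 * n0 + 4)] with N h1 h2 h3 h4 h5
  simp only [Function.comp_apply] at h3
  set N' := N - n0 with hN'
  have hNN : N' + n0 = N := by omega
  have hN'0 : (0:ℝ) < N' := by exact_mod_cast (by omega : 0 < N')
  have hN0 : (0:ℝ) < N := by exact_mod_cast (by omega : 0 < N)
  have hle : Real.log N ≤ 2 * Real.log N' := by
    have e1 : (N:ℝ) ≤ 2 * N' := by exact_mod_cast (by omega : N ≤ 2 * N')
    have e2 := Real.log_le_log hN0 e1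
    rw [Real.log_mul (by norm_num) hN'0.ne'] at e2
    have := Real.log_two_lt_d9
    linarith
  have hRS : RS (Real.log N) ≤ D * RS (Real.log N') :=
    (RS_mono (by linarith) hle).trans (RS_scale (by norm_num) h3 (by linarith))
  have hle2 : RS (Real.log N') ≤ RS (Real.log N) := by
    apply RS_mono (by linarith)
    apply Real.log_le_log hN'0
    exact_mod_cast (by omega : N' ≤ N)
  have hcD : c / D * RS (Real.log N) ≤ c * RS (Real.log N') := by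
    calc c / D * RS (Real.log N) ≤ c / D * (D * RS (Real.log N')) := mul_le_mul_of_nonneg_left hRS (by positivity)
      _ = _ := by field_simp
  obtain ⟨⟨n1, hn1, hn1'⟩, ⟨n2, hn2, hn2'⟩, hup⟩ := h1
  refine ⟨⟨n1 + n0, by omega, hcD.trans hn1'⟩, ⟨n2 + n0, by omega, by linarith⟩, ?_⟩
  intro n hn
  have hR0 : 0 ≤ RS (Real.log N) := RS_nonneg (by linarith)
  by_cases hn0 : n < n0
  · have h6 : |E (R n)| ≤ ∑ n ∈ Finset.range n0, |E (R n)| :=
      Finset.single_le_sum (f := fun n => |E (R n)|) (fun _ _ => abs_nonneg _) (Finset.mem_range.2 hn0)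
    nlinarith
  · have h6 := hup (n - n0) (by omega)
    rw [show n - n0 + n0 = n by omega] at h6
    have h7 : C * RS (Real.log N') ≤ C * RS (Real.log N) := mul_le_mul_of_nonneg_left hle2 hC.le
    linarith

/-! ## Scaling -/

lemma pt_eq {a b : ℕ → ℝ} {n0 : ℕ} (h0 : 0 < a n0) {α : ℝ} (hα : 0 < α) (n : ℕ) :
    pt (fun n => a (n + n0) / a n0) (fun n => b (n + n0)) n (a n0 * Real.log α) =
      b (n + n0) * α ^ (a (n + n0)) := by
  unfold pt
  rw [Real.rpow_def_of_pos hα]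
  congr 2
  field_simp

lemma lac_of {a b : ℕ → ℝ} (hm : Monotone a) (hb : ∀ n, 0 < b n) {α1 : ℝ} (hα1 : 0 < α1)
    {c κ : ℝ} (hc : 0 < c) (hκ : κ < 1) {n0 : ℕ} (hn0 : 1 ≤ n0) (h0 : 0 < a n0)
    (hgap : ∀ n : ℕ, n0 ≤ n → (1 + c * (n:ℝ) ^ (-κ)) * (b n * α1 ^ (a n)) ≤ b (n + 1) * α1 ^ (a (n + 1))) :
    Lac (fun n => a (n + n0) / a n0) (fun n => b (n + n0)) (a n0 * Real.log α1)
      (min (c * ((n0:ℝ) + 1) ^ (-(max κ 0))) 1) (max κ 0) := by
  refine ⟨?_, ?_, fun n => hb _, by positivity, min_le_right _ _, le_max_right _ _, max_lt hκ (by norm_num), ?_⟩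
  · intro n
    rw [le_div_iff₀ h0, one_mul]
    exact hm (by omega)
  · intro n m hnm
    exact div_le_div_of_nonneg_right (hm (by omega)) h0.le
  · intro n
    rw [pt_eq h0 hα1, pt_eq h0 hα1]
    have h1 := hgap (n + n0) (by omega)
    rw [show n + 1 + n0 = n + n0 + 1 by ring]
    refine le_trans ?_ h1
    have hpos : 0 < b (n + n0) * α1 ^ (a (n + n0)) := mul_pos (hb _) (Real.rpow_pos_of_pos hα1 _)
    apply mul_le_mul_of_nonneg_right _ hpos.le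
    have hn : (1:ℝ) ≤ ((n + n0 : ℕ) : ℝ) := by exact_mod_cast (by omega : 1 ≤ n + n0)
    have e1 : ((n + n0 : ℕ) : ℝ) ^ (-(max κ 0)) ≤ ((n + n0 : ℕ) : ℝ) ^ (-κ) :=
      Real.rpow_le_rpow_of_exponent_le hn (neg_le_neg (le_max_left _ _))
    have e2 : (((n0:ℝ) + 1) * ((n:ℝ) + 1)) ^ (-(max κ 0)) ≤ ((n + n0 : ℕ) : ℝ) ^ (-(max κ 0)) := by
      apply Real.rpow_le_rpow_of_nonpos (by linarith)
      · push_cast
        have a1 : (0:ℝ) ≤ n := Nat.cast_nonneg n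
        have a2 : (0:ℝ) ≤ n0 := Nat.cast_nonneg n0
        nlinarith
      · have := le_max_right κ 0
        linarith
    rw [Real.mul_rpow (by positivity) (by positivity)] at e2
    have e3 : min (c * ((n0:ℝ) + 1) ^ (-(max κ 0))) 1 * ((n:ℝ) + 1) ^ (-(max κ 0)) ≤ c * ((n + n0 : ℕ) : ℝ) ^ (-κ) := by
      calc min (c * ((n0:ℝ) + 1) ^ (-(max κ 0))) 1 * ((n:ℝ) + 1) ^ (-(max κ 0))
          ≤ (c * ((n0:ℝ) + 1) ^ (-(max κ 0))) * ((n:ℝ) + 1) ^ (-(max κ 0)) :=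
            mul_le_mul_of_nonneg_right (min_le_left _ _) (by positivity)
        _ = c * (((n0:ℝ) + 1) ^ (-(max κ 0)) * ((n:ℝ) + 1) ^ (-(max κ 0))) := by ring
        _ ≤ c * ((n + n0 : ℕ) : ℝ) ^ (-κ) := mul_le_mul_of_nonneg_left (e2.trans e1) hc.le
    linarith

/-- from `y` to `α = exp (y / β)` -/
lemma ae_pow {β : ℝ} (hβ : 0 < β) {c0 : ℝ} {p : ℝ → Prop} (h : ∀ᵐ y : ℝ, c0 ≤ y → p (exp (y / β))) :
    ∀ᵐ α : ℝ, 0 < α → c0 ≤ β * Real.log α → p α := by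
  rw [ae_iff] at h ⊢
  have h3 := MeasureTheory.addHaar_image_eq_zero_of_differentiableOn_of_addHaar_eq_zero
    (volume : Measure ℝ) (f := fun y : ℝ => Real.exp (y / β)) (by fun_prop) h
  refine measure_mono_null ?_ h3
  intro α hα
  have hα' : ¬ (0 < α → c0 ≤ β * Real.log α → p α) := hα
  push Not at hα'
  obtain ⟨hα1, hα2, hα3⟩ := hα'
  have he : exp (β * Real.log α / β) = α := by
    rw [mul_div_cancel_left₀ _ hβ.ne', Real.exp_log hα1]
  refine ⟨β * Real.log α, ?_, he⟩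
  change ¬ _
  intro hall
  apply hα3
  have := hall hα2
  rwa [he] at this

/-- the theorem for parameters `≥ α₁` -/
lemma good_ge {a b : ℕ → ℝ} (ha : ∃ n, 0 < a n) (hm : Monotone a) (hb : ∀ n, 0 < b n) {α1 : ℝ} (hα1 : 0 < α1)
    (hgap : ∃ c κ : ℝ, 0 < c ∧ κ < 1 ∧
      ∀ᶠ n : ℕ in atTop, (1 + c * (n:ℝ) ^ (-κ)) * (b n * α1 ^ (a n)) ≤ b (n + 1) * α1 ^ (a (n + 1))) :
    ∀ᵐ α : ℝ, α1 ≤ α → Good En (fun n => b n * α ^ (a n)) := by
  obtain ⟨c, κ, hc, hκ, hg⟩ := hgap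
  obtain ⟨na, hna⟩ := ha
  obtain ⟨n0, hn0⟩ := eventually_atTop.1 (hg.and (eventually_ge_atTop (na + 1)))
  have hn1 : 1 ≤ n0 := by have := (hn0 n0 le_rfl).2; omega
  have h0 : 0 < a n0 := hna.trans_le (hm (by have := (hn0 n0 le_rfl).2; omega))
  have hL := lac_of hm hb hα1 hc hκ hn1 h0 (fun n hn => (hn0 n hn).1)
  set c0 := a n0 * Real.log α1 with hc0
  have hae : ∀ m : ℕ, ∀ᵐ y : ℝ, y ∈ Icc c0 (c0 + m) →
      Good En (fun n => pt (fun n => a (n + n0) / a n0) (fun n => b (n + n0)) n y) := by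
    intro m
    obtain ⟨c1, C1, h1, h2, h3⟩ := hL.records (d := c0 + m) (by
      have : (0:ℝ) ≤ m := Nat.cast_nonneg m
      linarith) ctx
    rw [ae_restrict_iff' measurableSet_Icc] at h3
    filter_upwards [h3] with y hy hmem
    exact ⟨c1, C1, h1, h2, hy hmem⟩
  rw [← ae_all_iff] at hae
  have h4 : ∀ᵐ y : ℝ, c0 ≤ y → Good En (fun n => b n * (exp (y / a n0)) ^ (a n)) := by
    filter_upwards [hae] with y hy hy0
    obtain ⟨m, hm'⟩ := exists_nat_ge (y - c0)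
    have h5 := hy m ⟨hy0, by linarith⟩
    apply Good.shift (n0 := n0)
    refine (congrArg (Good En) (funext fun n => ?_)).mp h5
    have h6 := pt_eq (a := a) (b := b) h0 (exp_pos (y / a n0)) n
    rw [Real.log_exp, mul_div_cancel₀ _ h0.ne'] at h6
    exact h6
  have h5 := ae_pow h0 (p := fun α => Good En (fun n => b n * α ^ (a n))) h4
  filter_upwards [h5] with α hα hα'
  apply hα (by linarith)
  rw [hc0]
  exact mul_le_mul_of_nonneg_left (Real.log_le_log hα1 hα') h0.le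

theorem main {a b : ℕ → ℝ} {α₀ : ℝ} (hα₀ : 0 ≤ α₀) (ha : ∃ n, 0 < a n) (hm : Monotone a) (hb : ∀ n, 0 < b n)
    (hgap : ∀ α : ℝ, α₀ < α → ∃ c κ : ℝ, 0 < c ∧ κ < 1 ∧
      ∀ᶠ n : ℕ in atTop, (1 + c * (n:ℝ) ^ (-κ)) * (b n * α ^ (a n)) ≤ b (n + 1) * α ^ (a (n + 1))) :
    ∀ᵐ α : ℝ, α₀ < α → Good En (fun n => b n * α ^ (a n)) := by
  have h1 : ∀ k : ℕ, ∀ᵐ α : ℝ, α₀ + 1 / ((k:ℝ) + 1) ≤ α → Good En (fun n => b n * α ^ (a n)) := by
    intro k
    have hk : 0 < 1 / ((k:ℝ) + 1) := by positivity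
    exact good_ge ha hm hb (by linarith) (hgap _ (by linarith))
  rw [← ae_all_iff] at h1
  filter_upwards [h1] with α hα hα'
  obtain ⟨k, hk⟩ := exists_nat_one_div_lt (show 0 < α - α₀ by linarith)
  exact hα k (by linarith)

end Pool.Agent.W2helper40.MX
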